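import Mathlib

set_option autoImplicit false

universe u

/-!
Definitions for the statement: ℝ-trees, unprojectivized Outer space `cv_N`, the boundary of the
free group `F_N`, geodesic currents and the Kapovich-Lustig intersection form on
`cv_N × Curr(F_N)`.
-/

namespace Pool.Agent.Lib.MP_f2f7de_al

/-! ### ℝ-trees -/

/-- `m` lies on the geodesic segment from `x` to `y`. -/
def Btw {X : Type u} [MetricSpace X] (x m y : X) : Prop :=
  dist x m + dist m y = dist x y

/-- An ℝ-tree: a nonempty geodesic metric space satisfying the four point condition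
(that is, a 0-hyperbolic geodesic metric space). -/
structure IsRTree (X : Type u) [MetricSpace X] : Prop where
  nonempty : Nonempty X
  geodesic : ∀ x y : X, ∃ γ : ℝ → X, γ 0 = x ∧ γ (dist x y) = y ∧
    ∀ s ∈ Set.Icc 0 (dist x y), ∀ t ∈ Set.Icc 0 (dist x y), dist (γ s) (γ t) = |s - t|
  four_point : ∀ x y z w : X,
    dist x y + dist z w ≤ max (dist x z + dist y w) (dist x w + dist y z)

/-- `Y` is convex (a subtree, when `X` is an ℝ-tree and `Y` is nonempty). -/
def Conv {X : Type u} [MetricSpace X] (Y : Set X) : Prop :=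
  ∀ x ∈ Y, ∀ y ∈ Y, ∀ z, Btw x z y → z ∈ Y

/-! ### Outer space -/

/-- A representative of a point of the unprojectivized Outer space `cv_N`: an ℝ-tree with a
free, discrete and minimal isometric action of the free group `F_N`.
`discrete`: every orbit is a discrete subset. `minimal`: there is no proper invariant subtree. -/
structure OuterPoint (N : ℕ) where
  carrier : Type u
  [metric : MetricSpace carrier]
  [action : MulAction (FreeGroup (Fin N)) carrier]
  tree : IsRTree carrier
  isometric : ∀ (g : FreeGroup (Fin N)) (x y : carrier), dist (g • x) (g • y) = dist x y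
  free : ∀ (g : FreeGroup (Fin N)) (x : carrier), g • x = x → g = 1
  discrete : ∀ x : carrier, ∃ ε > 0, ∀ g : FreeGroup (Fin N), g • x ≠ x → ε ≤ dist x (g • x)
  minimal : ∀ Y : Set carrier, Y.Nonempty → Conv Y →
    (∀ g : FreeGroup (Fin N), ∀ x ∈ Y, g • x ∈ Y) → Y = Set.univ

attribute [instance] OuterPoint.metric OuterPoint.action

/-- `T` and `T'` are the same point of `cv_N`: there is an `F_N`-equivariant isometry between
them. -/
def SameTree {N : ℕ} (T T' : OuterPoint.{u} N) : Prop :=
  ∃ f : T.carrier ≃ᵢ T'.carrier, ∀ (g : FreeGroup (Fin N)) (x : T.carrier),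
    f (g • x) = g • f x

/-! ### The boundary of the free group -/

/-- The boundary `∂F_N`: infinite reduced words in the letters `(i, ±)`, `i < N`
(where `(i, true)` stands for the `i`-th generator and `(i, false)` for its inverse). -/
@[ext] structure Bdry (N : ℕ) where
  letter : ℕ → Fin N × Bool
  reduced : ∀ n, (letter n).1 = (letter (n + 1)).1 → (letter n).2 = (letter (n + 1)).2

/-- The topology of pointwise convergence. -/
instance (N : ℕ) : TopologicalSpace (Bdry N) :=
  TopologicalSpace.induced Bdry.letter inferInstance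

/-- Left multiplication of an infinite reduced word by a letter, followed by reduction. -/
def mulLetter {N : ℕ} (a : Fin N × Bool) (ξ : Bdry N) : Bdry N :=
  if h : ξ.letter 0 = (a.1, !a.2) then ⟨fun n => ξ.letter (n + 1), fun n => ξ.reduced (n + 1)⟩
  else ⟨fun n => Nat.casesOn n a fun k => ξ.letter k, by
    rintro (_ | n) h1
    · have h1' : a.1 = (ξ.letter 0).1 := h1
      change a.2 = (ξ.letter 0).2
      by_contra h2
      exact h (Prod.ext h1'.symm (by
        rw [eq_comm, Bool.not_eq_eq_eq_not]
        cases h3 : a.2 <;> cases h4 : (ξ.letter 0).2 <;> simp_all))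
    · exact ξ.reduced n h1⟩

theorem mulLetter_inv {N : ℕ} (a : Fin N × Bool) (ξ : Bdry N) :
    mulLetter (a.1, !a.2) (mulLetter a ξ) = ξ := by
  unfold mulLetter
  by_cases h : ξ.letter 0 = (a.1, !a.2)
  · have h2 : ¬ (ξ.letter 1 = ((a.1, !a.2).1, !(a.1, !a.2).2)) := by
      intro h3
      have h4 := ξ.reduced 0
      rw [h, h3] at h4
      simp at h4
    rw [dif_pos h, dif_neg h2]
    apply Bdry.ext
    funext n
    rcases n with _ | n
    · exact h.symm
    · rfl
  · rw [dif_neg h, dif_pos (by simp)]

/-- Left multiplication by a letter is a permutation of `∂F_N`. -/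
def letterPerm {N : ℕ} (a : Fin N × Bool) : Equiv.Perm (Bdry N) where
  toFun := mulLetter a
  invFun := mulLetter (a.1, !a.2)
  left_inv := mulLetter_inv a
  right_inv ξ := by
    have h := mulLetter_inv (a.1, !a.2) ξ
    simpa using h

/-- The action of `F_N` on `∂F_N`. -/
instance (N : ℕ) : MulAction (FreeGroup (Fin N)) (Bdry N) :=
  MulAction.compHom (Bdry N) (FreeGroup.lift fun i : Fin N => letterPerm (i, true))

/-- The element of `F_N` given by the first `n` letters of an infinite reduced word: the
sequence `pre ξ 0, pre ξ 1, …` is the geodesic ray from `1` to `ξ` in the Cayley tree. -/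
def pre {N : ℕ} (ξ : Bdry N) (n : ℕ) : FreeGroup (Fin N) :=
  FreeGroup.mk (List.ofFn fun i : Fin n => ξ.letter i)

/-- The double boundary `∂²F_N` of pairs of distinct boundary points. -/
@[ext] structure DBdry (N : ℕ) where
  fst : Bdry N
  snd : Bdry N
  ne : fst ≠ snd

/-- The topology induced from `∂F_N × ∂F_N`. -/
instance (N : ℕ) : TopologicalSpace (DBdry N) :=
  TopologicalSpace.induced (fun p => (p.fst, p.snd)) inferInstance

/-- The Borel sets of `∂²F_N`. -/
instance (N : ℕ) : MeasurableSpace (DBdry N) := borel _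

/-- The diagonal action of `F_N` on `∂²F_N`. -/
def DBdry.act {N : ℕ} (g : FreeGroup (Fin N)) (p : DBdry N) : DBdry N :=
  ⟨g • p.fst, g • p.snd, fun h => p.ne (MulAction.injective g h)⟩

/-- The flip of `∂²F_N`. -/
def DBdry.flip {N : ℕ} (p : DBdry N) : DBdry N :=
  ⟨p.snd, p.fst, p.ne.symm⟩

/-! ### Geodesic currents -/

/-- A geodesic current on `F_N`: a nonzero positive Radon measure on `∂²F_N` invariant under
`F_N` and under the flip. (As `∂²F_N` is locally compact, separable and metrizable, the Radon
measures are the Borel measures that are finite on compact sets.) -/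
structure Curr (N : ℕ) where
  meas : MeasureTheory.Measure (DBdry N)
  ne_zero : meas ≠ 0
  radon : ∀ K : Set (DBdry N), IsCompact K → meas K < ⊤
  invariant : ∀ (g : FreeGroup (Fin N)) (A : Set (DBdry N)), MeasurableSet A →
    meas (DBdry.act g ⁻¹' A) = meas A
  flip : ∀ A : Set (DBdry N), MeasurableSet A → meas (DBdry.flip ⁻¹' A) = meas A

/-! ### The intersection form -/

/-- `v` is a branch point: at least three directions start at `v`. -/
def IsBranch {X : Type u} [MetricSpace X] (v : X) : Prop :=
  ∃ x y z : X, x ≠ v ∧ y ≠ v ∧ z ≠ v ∧ Btw x v y ∧ Btw y v z ∧ Btw x v z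

/-- An oriented edge `(a, b)` of an ℝ-tree: `a ≠ b` are branch points and there is no branch point
strictly between them. -/
def IsEdge {X : Type u} [MetricSpace X] (e : X × X) : Prop :=
  IsBranch e.1 ∧ IsBranch e.2 ∧ e.1 ≠ e.2 ∧ ∀ v, IsBranch v → Btw e.1 v e.2 → v = e.1 ∨ v = e.2

/-- The oriented edges of `T`. -/
abbrev OEdge {N : ℕ} (T : OuterPoint.{u} N) : Type u :=
  {e : T.carrier × T.carrier // IsEdge e}

/-- Two oriented edges are equivalent if they have the same image in the quotient graph
`T / F_N`. -/
def edgeSetoid {N : ℕ} (T : OuterPoint.{u} N) : Setoid (OEdge T) where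
  r e e' := ∃ g : FreeGroup (Fin N), g • e.1.1 = e'.1.1 ∧ g • e.1.2 = e'.1.2
  iseqv := by
    refine ⟨fun e => ⟨1, by simp⟩, ?_, ?_⟩
    · rintro e e' ⟨g, h1, h2⟩
      exact ⟨g⁻¹, by simp [← h1, ← h2]⟩
    · rintro e e' e'' ⟨g, h1, h2⟩ ⟨g', h3, h4⟩
      exact ⟨g' * g, by simp [mul_smul, h1, h2, h3, h4]⟩

/-- The two-sided cylinder of an oriented edge `(a, b)` of `T`: the set of all
`(ξ, ζ) ∈ ∂²F_N` such that the geodesic line of `T` from `ξ` to `ζ` passes through `a` and then
through `b`. (The line from `ξ` to `ζ` is the limit of the segments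
from `ξ_m • o` to `ζ_n • o`, where `ξ_m → ξ` and `ζ_n → ζ` are the prefixes of `ξ` and `ζ` and
`o` is any point of `T`.) -/
def cyl {N : ℕ} (T : OuterPoint.{u} N) (a b : T.carrier) : Set (DBdry N) :=
  {p | ∀ o : T.carrier, ∃ M : ℕ, ∀ m ≥ M, ∀ n ≥ M,
    dist (pre p.fst m • o) a + dist a b + dist b (pre p.snd n • o) =
      dist (pre p.fst m • o) (pre p.snd n • o)}

/-- The Kapovich-Lustig intersection form on `cv_N × Curr(F_N)`:
`⟨T, μ⟩ = 1/2 ∑_e length(e) μ(Cyl(e'))`, the sum being over the oriented edges `e` of the quotient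
graph `T / F_N`, where `e'` is any lift of `e` to `T`. -/
noncomputable def inter {N : ℕ} (T : OuterPoint.{u} N) (μ : Curr N) : ENNReal :=
  (∑' e : Quotient (edgeSetoid T),
    ENNReal.ofReal (dist e.out.1.1 e.out.1.2) * μ.meas (cyl T e.out.1.1 e.out.1.2)) / 2

/-- `S` is spectrally rigid: the intersection numbers with the currents in `S` determine the
points of `cv_N`. -/
def SpectrallyRigid {N : ℕ} (S : Set (Curr N)) : Prop :=
  ∀ T T' : OuterPoint.{u} N, (∀ μ ∈ S, inter T μ = inter T' μ) → SameTree T T'

end Pool.Agent.Lib.MP_f2f7de_al
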