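import Mathlib
import Pool.Agent.Lib.MP_f2f7de_al.Defs

set_option autoImplicit false

universe u

/-! Basic geometry of ℝ-trees. -/

namespace Pool.Agent.Lib.MP_f2f7de_al

section Metric

variable {X : Type u} [MetricSpace X] {x y z m u v w p q : X}

theorem Btw.symm (h : Btw x m y) : Btw y m x := by
  unfold Btw at *
  rw [dist_comm y m, dist_comm m x, dist_comm y x, ← h, add_comm]

theorem btw_comm : Btw x m y ↔ Btw y m x := ⟨Btw.symm, Btw.symm⟩

theorem btw_left (x y : X) : Btw x x y := by simp [Btw]

theorem btw_right (x y : X) : Btw x y y := by simp [Btw]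

theorem Btw.eq (h : Btw x m y) : dist x m + dist m y = dist x y := h

theorem Btw.le_left (h : Btw x m y) : dist x m ≤ dist x y := by
  have := h.eq
  have := dist_nonneg (x := m) (y := y)
  linarith

theorem Btw.le_right (h : Btw x m y) : dist m y ≤ dist x y := by
  have := h.eq
  have := dist_nonneg (x := x) (y := m)
  linarith

theorem btw_self_iff : Btw x m x ↔ m = x := by
  constructor
  · intro h
    have h1 := h.eq
    rw [dist_self, dist_comm m x] at h1
    have h2 : dist x m = 0 := by linarith [dist_nonneg (x := x) (y := m)]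
    exact (dist_eq_zero.1 h2).symm
  · rintro rfl
    exact btw_left _ _

/-- `v ∈ [x,u]`, `u ∈ [x,y]` implies `v ∈ [x,y]`. -/
theorem Btw.trans (h : Btw x u y) (h' : Btw x v u) : Btw x v y := by
  have h1 := h.eq
  have h2 := h'.eq
  have h3 := dist_triangle v u y
  have h4 := dist_triangle x v y
  unfold Btw
  linarith

/-- `v ∈ [x,u]`, `u ∈ [x,y]` implies `u ∈ [v,y]`. -/
theorem Btw.trans' (h : Btw x u y) (h' : Btw x v u) : Btw v u y := by
  have h1 := h.eq
  have h2 := h'.eq
  have h3 := dist_triangle v u y
  have h4 := dist_triangle x v y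
  unfold Btw
  linarith

/-- If `x,u,v,y` are aligned in the sense `u ∈ [x,y]`, `v ∈ [u,y]` then `v ∈ [x,y]`. -/
theorem Btw.trans_right (h : Btw x u y) (h' : Btw u v y) : Btw x v y :=
  (h.symm.trans h'.symm).symm

theorem Btw.trans_right' (h : Btw x u y) (h' : Btw u v y) : Btw x u v :=
  (h.symm.trans' h'.symm).symm

theorem Btw.antisymm (h : Btw x u y) (h' : Btw u x y) : x = u := by
  have h1 := h.eq
  have h2 := h'.eq
  rw [dist_comm u x] at h2
  have : dist x u = 0 := by linarith
  exact dist_eq_zero.1 this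

end Metric

namespace IsRTree

variable {X : Type u} [MetricSpace X] (hX : IsRTree X) {x y z m u v w p q : X}
include hX

/-- the tripod property of segments. -/
theorem key (h : Btw x u y) (z : X) : Btw x u z ∨ Btw z u y := by
  have h1 := hX.four_point u z x y
  have h2 := dist_triangle x u z
  have h3 := dist_triangle z u y
  have h4 := h.eq
  unfold Btw
  rw [dist_comm z u] at *
  rw [dist_comm u x, dist_comm z x] at h1
  rcases le_max_iff.1 h1 with h5 | h5
  · right
    linarith [dist_comm z y]
  · left
    linarith [dist_comm x z]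

theorem eq_of_dist (h1 : Btw x m y) (h2 : Btw x u y) (h : dist x m = dist x u) : m = u := by
  have h3 := hX.four_point m u x y
  have h4 := h1.eq
  have h5 := h2.eq
  rw [dist_comm m x, dist_comm u x] at h3
  have h6 : dist m u ≤ 0 := by
    rcases le_max_iff.1 h3 with h7 | h7 <;> linarith
  exact dist_eq_zero.1 (le_antisymm h6 dist_nonneg)

theorem exists_point (x y : X) {t : ℝ} (h0 : 0 ≤ t) (h1 : t ≤ dist x y) :
    ∃ m, Btw x m y ∧ dist x m = t := by
  obtain ⟨γ, hγ0, hγ1, hγ⟩ := hX.geodesic x y
  have hd := dist_nonneg (x := x) (y := y)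
  refine ⟨γ t, ?_, ?_⟩
  · have h2 := hγ 0 ⟨le_refl _, hd⟩ t ⟨h0, h1⟩
    have h3 := hγ t ⟨h0, h1⟩ (dist x y) ⟨hd, le_refl _⟩
    rw [hγ0, abs_of_nonpos (by linarith)] at h2
    rw [hγ1, abs_of_nonpos (by linarith)] at h3
    unfold Btw
    linarith
  · have h2 := hγ 0 ⟨le_refl _, hd⟩ t ⟨h0, h1⟩
    rw [hγ0, abs_of_nonpos (by linarith)] at h2
    linarith

/-- The median of three points. -/
theorem median (x y z : X) : ∃ m, Btw x m y ∧ Btw y m z ∧ Btw x m z := by
  have h1 := dist_triangle x y z
  have h2 := dist_triangle x z y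
  have h3 := dist_triangle y x z
  rw [dist_comm z y] at h2
  rw [dist_comm y x] at h3
  obtain ⟨m, hm, hd⟩ := hX.exists_point x y (t := (dist x y + dist x z - dist y z) / 2)
    (by linarith) (by linarith)
  have h4 := hm.eq
  refine ⟨m, hm, ?_⟩
  have h5 := dist_triangle x m z
  have h6 := dist_triangle y m z
  rw [dist_comm y m] at h6
  rcases hX.key hm z with h | h
  · have h7 := h.eq
    refine ⟨?_, h⟩
    unfold Btw
    rw [dist_comm y m]
    linarith
  · have h7 := h.eq
    rw [dist_comm z m, dist_comm z y] at h7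
    constructor
    · unfold Btw
      rw [dist_comm y m]
      linarith
    · unfold Btw
      linarith

/-- Local geodesics are geodesics. -/
theorem concat (hpq : p ≠ q) (h1 : Btw x p q) (h2 : Btw p q y) : Btw x p y ∧ Btw x q y := by
  have h : Btw x p y := by
    rcases hX.key h1 y with h | h
    · exact h
    · exact absurd (h.symm.antisymm h2).symm hpq
  exact ⟨h, h.trans_right h2⟩

theorem order (h1 : Btw x u y) (h2 : Btw x v y) : Btw x u v ∨ Btw x v u := by
  rcases hX.key h1 v with h | h
  · exact Or.inl h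
  · exact Or.inr (h2.trans_right' h)

end IsRTree

end Pool.Agent.Lib.MP_f2f7de_al
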