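import Mathlib
import Pool.Agent.Lib.MP_f2f7de_al.Tree

set_option autoImplicit false

universe u v

/-! Free isometric actions on ℝ-trees: axes and translation lengths. -/

namespace Pool.Agent.Lib.MP_f2f7de_al

/-- free isometric action on an ℝ-tree -/
structure FTA (G : Type v) (X : Type u) [Group G] [MetricSpace X] [MulAction G X] : Prop where
  tree : IsRTree X
  iso : ∀ (g : G) (x y : X), dist (g • x) (g • y) = dist x y
  free : ∀ (g : G) (x : X), g • x = x → g = 1

/-- the axis of `g` -/
def ax {G : Type v} (X : Type u) [Group G] [MetricSpace X] [MulAction G X] (g : G) : Set X :=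
  {x | Btw x (g • x) (g • g • x)}

/-- the translation length of `g` -/
noncomputable def tl {G : Type v} (X : Type u) [Group G] [MetricSpace X] [MulAction G X]
    (g : G) : ℝ := ⨅ x : X, dist x (g • x)

namespace FTA

variable {G : Type v} {X : Type u} [Group G] [MetricSpace X] [MulAction G X] (h : FTA G X)
include h

theorem smul_btw (g : G) {x m y : X} : Btw (g • x) (g • m) (g • y) ↔ Btw x m y := by
  unfold Btw
  rw [h.iso, h.iso, h.iso]

theorem btw_smul (g : G) {x m y : X} (hb : Btw x m y) : Btw (g • x) (g • m) (g • y) :=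
  (h.smul_btw g).2 hb

theorem dist_inv (g : G) (x y : X) : dist (g⁻¹ • x) y = dist x (g • y) := by
  rw [← h.iso g, smul_inv_smul]

theorem inv_mem_ax {g : G} {x : X} (hx : x ∈ ax X g) : x ∈ ax X g⁻¹ := by
  have h1 := h.btw_smul (g⁻¹ * g⁻¹) hx
  change Btw x (g⁻¹ • x) (g⁻¹ • g⁻¹ • x)
  have h2 : (g⁻¹ * g⁻¹) • g • x = g⁻¹ • x := by
    rw [smul_smul]; congr 1; group
  have h3 : (g⁻¹ * g⁻¹) • g • g • x = x := by
    rw [smul_smul, smul_smul, show g⁻¹ * g⁻¹ * g * g = 1 by group, one_smul]
  rw [h2, h3, mul_smul] at h1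
  exact h1.symm

theorem ax_inv (g : G) : ax X g⁻¹ = ax X g := by
  ext x
  constructor
  · intro hx
    have := h.inv_mem_ax hx
    rwa [inv_inv] at this
  · exact h.inv_mem_ax

theorem smul_mem_ax {g : G} {x : X} (hx : x ∈ ax X g) (k : G) :
    k • x ∈ ax X (k * g * k⁻¹) := by
  have h1 := h.btw_smul k hx
  change Btw (k • x) ((k * g * k⁻¹) • k • x) ((k * g * k⁻¹) • (k * g * k⁻¹) • k • x)
  have h2 : (k * g * k⁻¹) • k • x = k • g • x := by
    rw [smul_smul, smul_smul]; congr 1; group
  have h3 : (k * g * k⁻¹) • k • g • x = k • g • g • x := by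
    rw [smul_smul, smul_smul, smul_smul, smul_smul]; congr 1; group
  rw [h2, h3]
  exact h1

theorem mem_ax_smul {g : G} {x : X} (k : G) (hx : x ∈ ax X (k * g * k⁻¹)) :
    k⁻¹ • x ∈ ax X g := by
  have := h.smul_mem_ax hx k⁻¹
  have h2 : k⁻¹ * (k * g * k⁻¹) * k⁻¹⁻¹ = g := by group
  rwa [h2] at this

theorem self_smul_mem_ax {g : G} {x : X} (hx : x ∈ ax X g) : g • x ∈ ax X g := by
  have := h.smul_mem_ax hx g
  have h2 : g * g * g⁻¹ = g := by group
  rwa [h2] at this

theorem pow_smul_mem_ax {g : G} {x : X} (hx : x ∈ ax X g) (n : ℤ) : g ^ n • x ∈ ax X g := by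
  have := h.smul_mem_ax hx (g ^ n)
  have h2 : g ^ n * g * (g ^ n)⁻¹ = g := by group
  rwa [h2] at this

/-- Every point projects to the axis. -/
theorem exists_proj {g : G} (hg : g ≠ 1) (p : X) : ∃ m ∈ ax X g, Btw p m (g • p) ∧
    Btw p (g • m) (g • p) ∧ Btw p m (g • m) ∧ Btw p (g • m) (g • g • p) ∧
    dist p (g • p) = dist m (g • m) + 2 * dist p m ∧
    dist p (g • g • p) = 2 * dist m (g • m) + 2 * dist p m := by
  obtain ⟨m, hm1, hm2, hm3⟩ := h.tree.median (g⁻¹ • p) p (g • p)
  have e1 : g • g⁻¹ • p = p := smul_inv_smul g p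
  -- on the segment `[p, g p]`
  have k1 : Btw p (g • m) (g • p) := by
    have := h.btw_smul g hm1
    rwa [e1] at this
  have k2 : Btw (g • p) (g • m) (g • g • p) := h.btw_smul g hm2
  have k3 : Btw p (g • m) (g • g • p) := by
    have := h.btw_smul g hm3
    rwa [e1] at this
  have d1 : dist (g • m) (g • p) = dist p m := by rw [h.iso, dist_comm]
  rcases lt_or_ge (2 * dist p m) (dist p (g • p)) with hr | hr
  · have o1 : Btw p m (g • m) := by
      rcases h.tree.order hm2 k1 with o | o
      · exact o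
      · have := o.eq
        have := k1.eq
        have := dist_nonneg (x := g • m) (y := m)
        linarith
    have e2 := o1.eq
    have e3 := k1.eq
    -- `m ∈ ax g`
    have k4 : Btw (g • p) (g • m) (g • g • m) := h.btw_smul g o1
    have k5 : Btw (g • p) (g • g • m) (g • g • p) := h.btw_smul g k1
    have k6 : Btw (g • m) (g • g • m) (g • g • p) := k5.trans' k4
    have k7 : Btw p (g • m) (g • g • m) := k3.trans_right' k6
    have k8 : Btw m (g • m) (g • g • m) := k7.trans' o1
    refine ⟨m, k8, hm2, k1, o1, k3, by linarith, ?_⟩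
    have e4 := k3.eq
    have e5 := k6.eq
    have e6 : dist (g • m) (g • g • m) = dist m (g • m) := h.iso _ _ _
    have e7 : dist (g • g • m) (g • g • p) = dist p m := by rw [h.iso, h.iso, dist_comm]
    linarith
  · exfalso
    have hD := dist_nonneg (x := p) (y := g • p)
    obtain ⟨q, hq, hqd⟩ := h.tree.exists_point p (g • p) (t := dist p (g • p) / 2)
      (by linarith) (by linarith)
    have hq' : Btw (g • p) (g • q) (g • g • p) := h.btw_smul g hq
    have hd' : dist (g • p) (g • q) = dist p (g • p) / 2 := by rw [h.iso, hqd]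
    have d2 : dist (g • p) (g • m) = dist p m := by rw [h.iso]
    have o : Btw (g • p) (g • q) (g • m) := by
      rcases h.tree.order hq' k2 with o | o
      · exact o
      · have e1 := o.eq
        have : dist (g • m) (g • q) = 0 := by
          have := dist_nonneg (x := g • m) (y := g • q)
          linarith
        rw [dist_eq_zero.1 this]
        exact btw_right _ _
    have o2 : Btw (g • p) (g • q) p := k1.symm.trans o
    have e : g • q = q := by
      refine h.tree.eq_of_dist o2 hq.symm ?_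
      have := hq.eq
      rw [hd', dist_comm (g • p) q]
      linarith
    exact hg (h.free g q e)

theorem ax_pow {g : G} (hg : g ≠ 1) {x : X} (hx : x ∈ ax X g) (n : ℕ) :
    Btw x (g ^ n • x) (g ^ (n + 1) • x) ∧ dist x (g ^ n • x) = n * dist x (g • x) := by
  have hne : ∀ n : ℕ, g ^ n • x ≠ g ^ (n + 1) • x := by
    intro n he
    rw [pow_succ, mul_smul] at he
    exact hg (h.free g x (MulAction.injective (g ^ n) he).symm)
  have hloc : ∀ n : ℕ, Btw (g ^ n • x) (g ^ (n + 1) • x) (g ^ (n + 2) • x) := by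
    intro n
    have := h.btw_smul (g ^ n) hx
    rwa [smul_smul, smul_smul, smul_smul, ← pow_succ, ← pow_succ] at this
  induction n with
  | zero => simp [btw_left]
  | succ n ih =>
    obtain ⟨ih1, ih2⟩ := ih
    have h1 := h.tree.concat (hne n) ih1 (hloc n)
    refine ⟨h1.2, ?_⟩
    have h2 := ih1.eq
    have h3 : dist (g ^ n • x) (g ^ (n + 1) • x) = dist x (g • x) := by
      rw [pow_succ, mul_smul, h.iso]
    push_cast
    linarith

theorem dist_ax_eq {g : G} (hg : g ≠ 1) {x y : X} (hx : x ∈ ax X g) (hy : y ∈ ax X g) :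
    dist x (g • x) = dist y (g • y) := by
  by_contra hne
  wlog hlt : dist x (g • x) < dist y (g • y) generalizing x y with H
  · exact H hy hx (Ne.symm hne) (lt_of_le_of_ne (not_lt.1 hlt) (Ne.symm hne))
  obtain ⟨n, hn⟩ := exists_nat_gt (2 * dist x y / (dist y (g • y) - dist x (g • x)))
  have h1 := (h.ax_pow hg hx n).2
  have h2 := (h.ax_pow hg hy n).2
  have h3 : dist (g ^ n • x) (g ^ n • y) = dist x y := h.iso _ _ _
  have h4 := dist_triangle4 y x (g ^ n • x) (g ^ n • y)
  rw [dist_comm y x] at h4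
  rw [div_lt_iff₀ (by linarith)] at hn
  nlinarith

theorem tl_eq {g : G} (hg : g ≠ 1) {x : X} (hx : x ∈ ax X g) : tl X g = dist x (g • x) := by
  have := h.tree.nonempty
  apply le_antisymm
  · exact ciInf_le ⟨0, by rintro _ ⟨y, rfl⟩; exact dist_nonneg⟩ x
  · apply le_ciInf
    intro p
    obtain ⟨m, hm, -, -, -, -, hd, -⟩ := h.exists_proj hg p
    rw [h.dist_ax_eq hg hx hm, hd]
    have := dist_nonneg (x := p) (y := m)
    linarith

theorem tl_one : tl X (1 : G) = 0 := by
  have := h.tree.nonempty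
  simp [tl]

theorem tl_pos {g : G} (hg : g ≠ 1) : 0 < tl X g := by
  obtain ⟨p⟩ := h.tree.nonempty
  obtain ⟨m, hm, -⟩ := h.exists_proj hg p
  rw [h.tl_eq hg hm]
  exact dist_pos.2 fun he => hg (h.free g m he.symm)

theorem ax_nonempty (g : G) : (ax X g).Nonempty := by
  obtain ⟨p⟩ := h.tree.nonempty
  rcases eq_or_ne g 1 with rfl | hg
  · exact ⟨p, by simp [ax, btw_left]⟩
  · obtain ⟨m, hm, -⟩ := h.exists_proj hg p
    exact ⟨m, hm⟩

theorem tl_le (g : G) (x : X) : tl X g ≤ dist x (g • x) :=
  ciInf_le ⟨0, by rintro _ ⟨y, rfl⟩; exact dist_nonneg⟩ x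

theorem tl_nonneg (g : G) : 0 ≤ tl X g := by
  have := h.tree.nonempty
  exact le_ciInf fun _ => dist_nonneg

theorem mem_ax_of_dist {g : G} (hg : g ≠ 1) {x : X} (hx : dist x (g • x) ≤ tl X g) :
    x ∈ ax X g := by
  obtain ⟨m, hm, -, -, -, -, hd, -⟩ := h.exists_proj hg x
  rw [h.tl_eq hg hm] at hx
  have h0 : dist x m = 0 := by
    have := dist_nonneg (x := x) (y := m)
    linarith
  rwa [dist_eq_zero.1 h0]

theorem tl_eq_sub {g : G} (x : X) : tl X g = dist x (g • g • x) - dist x (g • x) := by
  rcases eq_or_ne g 1 with rfl | hg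
  · rw [h.tl_one]; simp
  · obtain ⟨m, hm, -, -, -, -, hd, hd'⟩ := h.exists_proj hg x
    rw [h.tl_eq hg hm, hd, hd']
    ring

theorem tl_conj (g k : G) : tl X (k * g * k⁻¹) = tl X g := by
  rcases eq_or_ne g 1 with rfl | hg
  · simp
  · obtain ⟨m, hm⟩ := h.ax_nonempty g
    have hk : k * g * k⁻¹ ≠ 1 := by
      intro he
      apply hg
      have : g = k⁻¹ * (k * g * k⁻¹) * k := by group
      rw [this, he]; group
    rw [h.tl_eq hg hm, h.tl_eq hk (h.smul_mem_ax hm k), smul_smul]
    rw [show k * g * k⁻¹ * k = k * g by group, mul_smul, h.iso]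

theorem tl_inv (g : G) : tl X g⁻¹ = tl X g := by
  rcases eq_or_ne g 1 with rfl | hg
  · simp
  · obtain ⟨m, hm⟩ := h.ax_nonempty g
    rw [h.tl_eq hg hm, h.tl_eq (inv_ne_one.2 hg) (h.inv_mem_ax hm), dist_comm, h.dist_inv]

/-- The displacement function is convex. -/
theorem disp_le (g : G) {x y z : X} (hz : Btw x z y) :
    dist z (g • z) ≤ max (dist x (g • x)) (dist y (g • y)) := by
  have hz' := h.btw_smul g hz
  have a1 : dist x z = dist (g • x) (g • z) := (h.iso _ _ _).symm
  have a2 : dist z y = dist (g • z) (g • y) := (h.iso _ _ _).symm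
  have a3 := hz.eq
  have a4 := hz'.eq
  rcases h.tree.key hz (g • z) with k | k
  · have b1 := k.eq
    rcases h.tree.key hz' x with k' | k'
    · have b2 := k'.eq
      rw [dist_comm (g • z) x] at b2
      have := dist_nonneg (x := x) (y := z)
      rw [dist_comm (g • x) x] at b2
      exact le_max_of_le_left (by linarith)
    · have b2 := k'.eq
      have b3 := dist_triangle x y (g • y)
      exact le_max_of_le_right (by linarith)
  · have b1 := k.eq
    rw [dist_comm (g • z) z] at b1
    rcases h.tree.key hz' y with k' | k'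
    · have b2 := k'.eq
      have b3 := dist_triangle y x (g • x)
      rw [dist_comm (g • x) y] at b2
      rw [dist_comm y x] at b3
      exact le_max_of_le_left (by linarith)
    · have b2 := k'.eq
      rw [dist_comm y (g • z)] at b2
      have := dist_nonneg (x := z) (y := y)
      exact le_max_of_le_right (by linarith)

theorem conv_ax {g : G} (hg : g ≠ 1) : Conv (ax X g) := by
  intro x hx y hy z hz
  apply h.mem_ax_of_dist hg
  have h1 := h.disp_le g hz
  rwa [← h.tl_eq hg hx, ← h.tl_eq hg hy, max_self] at h1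

end FTA

end Pool.Agent.Lib.MP_f2f7de_al
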