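import Mathlib
import Pool.Agent.Lib.MP_f2f7de_al.Defs

set_option autoImplicit false

/-! The action of the free group on its boundary. -/

namespace Pool.Agent.Lib.MP_f2f7de_al

open FreeGroup

variable {N : ℕ}

theorem of_smul (i : Fin N) (ξ : Bdry N) : FreeGroup.of i • ξ = mulLetter (i, true) ξ := by
  change (FreeGroup.lift fun i : Fin N => letterPerm (i, true)) (FreeGroup.of i) ξ = _
  rw [FreeGroup.lift_apply_of]
  rfl

theorem of_inv_smul (i : Fin N) (ξ : Bdry N) :
    (FreeGroup.of i)⁻¹ • ξ = mulLetter (i, false) ξ := by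
  rw [inv_smul_eq_iff, of_smul]
  have := mulLetter_inv (i, false) ξ
  simpa using this.symm

theorem mk_letter_smul (a : Fin N × Bool) (ξ : Bdry N) :
    FreeGroup.mk [a] • ξ = mulLetter a ξ := by
  obtain ⟨i, b⟩ := a
  cases b
  · exact of_inv_smul i ξ
  · exact of_smul i ξ

/-- no cancellation between a letter and a letter -/
def NC (a b : Fin N × Bool) : Prop := a.1 = b.1 → a.2 = b.2

theorem nc_iff {a b : Fin N × Bool} : NC a b ↔ b ≠ (a.1, !a.2) := by
  unfold NC
  constructor
  · rintro h rfl
    simp at h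
  · intro h h1
    by_contra h2
    apply h
    apply Prod.ext
    · exact h1.symm
    · cases h3 : a.2 <;> cases h4 : b.2 <;> simp_all

theorem Bdry.nc (ξ : Bdry N) (n : ℕ) : NC (ξ.letter n) (ξ.letter (n + 1)) := ξ.reduced n

theorem mulLetter_letter_zero {a : Fin N × Bool} {ξ : Bdry N} (h : NC a (ξ.letter 0)) :
    (mulLetter a ξ).letter 0 = a := by
  unfold mulLetter
  rw [dif_neg (nc_iff.1 h)]
  rfl

theorem mulLetter_letter_succ {a : Fin N × Bool} {ξ : Bdry N} (h : NC a (ξ.letter 0)) (n : ℕ) :
    (mulLetter a ξ).letter (n + 1) = ξ.letter n := by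
  unfold mulLetter
  rw [dif_neg (nc_iff.1 h)]

theorem mulLetter_letter_of_cancel {a : Fin N × Bool} {ξ : Bdry N}
    (h : ξ.letter 0 = (a.1, !a.2)) (n : ℕ) :
    (mulLetter a ξ).letter n = ξ.letter (n + 1) := by
  unfold mulLetter
  rw [dif_pos h]

theorem pre_zero (ξ : Bdry N) : pre ξ 0 = 1 := by
  simp [pre, FreeGroup.one_eq_mk]

theorem pre_succ (ξ : Bdry N) (n : ℕ) :
    pre ξ (n + 1) = pre ξ n * FreeGroup.mk [ξ.letter n] := by
  unfold pre
  rw [FreeGroup.mul_mk, List.ofFn_succ_last]
  rfl

theorem pre_succ' (ξ : Bdry N) (n : ℕ) :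
    pre ξ (n + 1) = FreeGroup.mk [ξ.letter 0] *
      FreeGroup.mk (List.ofFn fun i : Fin n => ξ.letter (i + 1)) := by
  unfold pre
  rw [FreeGroup.mul_mk, List.ofFn_succ]
  rfl

theorem pre_mulLetter (a : Fin N × Bool) (ξ : Bdry N) :
    ∃ s t : ℕ, ∀ n, pre (mulLetter a ξ) (n + s) = FreeGroup.mk [a] * pre ξ (n + t) := by
  by_cases h : ξ.letter 0 = (a.1, !a.2)
  · refine ⟨0, 1, fun n => ?_⟩
    rw [pre_succ', h, ← mul_assoc]
    have h1 : FreeGroup.mk [a] * FreeGroup.mk [(a.1, !a.2)] = 1 := by
      have h2 : FreeGroup.mk [(a.1, !a.2)] = (FreeGroup.mk [a])⁻¹ := by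
        rw [FreeGroup.inv_mk]; rfl
      rw [h2, mul_inv_cancel]
    rw [h1, one_mul, add_zero]
    unfold pre
    congr 2
    funext i
    exact mulLetter_letter_of_cancel h i
  · have h' : NC a (ξ.letter 0) := nc_iff.2 h
    refine ⟨1, 0, fun n => ?_⟩
    rw [pre_succ', mulLetter_letter_zero h', add_zero]
    congr 1
    unfold pre
    congr 2
    funext i
    exact mulLetter_letter_succ h' i

/-- Translates of geodesic rays. -/
theorem pre_smul (g : FreeGroup (Fin N)) : ∀ ξ : Bdry N,
    ∃ s t : ℕ, ∀ n, pre (g • ξ) (n + s) = g * pre ξ (n + t) := by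
  induction g using FreeGroup.induction_on with
  | C1 => exact fun ξ => ⟨0, 0, fun n => by simp⟩
  | of i =>
    intro ξ
    obtain ⟨s, t, h⟩ := pre_mulLetter (i, true) ξ
    refine ⟨s, t, fun n => ?_⟩
    rw [of_smul]
    exact h n
  | inv_of i _ =>
    intro ξ
    obtain ⟨s, t, h⟩ := pre_mulLetter (i, false) ξ
    refine ⟨s, t, fun n => ?_⟩
    rw [of_inv_smul]
    exact h n
  | mul x y hx hy =>
    intro ξ
    obtain ⟨s, t, h⟩ := hx (y • ξ)
    obtain ⟨s', t', h'⟩ := hy ξ
    refine ⟨s' + s, t + t', fun n => ?_⟩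
    rw [mul_smul, ← add_assoc, h, show n + s' + t = n + t + s' by ring, h', mul_assoc, add_assoc]

theorem chain_ofFn (ξ : Bdry N) (n : ℕ) :
    FreeGroup.IsReduced (List.ofFn fun i : Fin n => ξ.letter i) := by
  unfold FreeGroup.IsReduced
  rw [List.isChain_ofFn]
  intro i hi
  exact ξ.reduced i

theorem toWord_pre (ξ : Bdry N) (n : ℕ) :
    (pre ξ n).toWord = List.ofFn fun i : Fin n => ξ.letter i := by
  unfold pre
  rw [FreeGroup.toWord_mk]
  exact (chain_ofFn ξ n).reduce_eq

theorem norm_pre (ξ : Bdry N) (n : ℕ) : (pre ξ n).norm = n := by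
  unfold FreeGroup.norm
  rw [toWord_pre, List.length_ofFn]

theorem bdry_ext_of_pre {ξ ζ : Bdry N} {s t : ℕ} (h : ∀ n, pre ξ (n + s) = pre ζ (n + t)) :
    ξ = ζ := by
  have hst : s = t := by
    have h1 := congrArg FreeGroup.norm (h 0)
    rw [norm_pre, norm_pre] at h1
    omega
  subst hst
  apply Bdry.ext
  funext n
  have h1 := congrArg FreeGroup.toWord (h (n + 1))
  rw [toWord_pre, toWord_pre] at h1
  have h2 := List.ofFn_injective h1
  have h3 := congrFun h2 ⟨n, by omega⟩
  exact h3

/-! ### Products without cancellation -/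

/-- Multiplication of an infinite word by a finite word without cancellation. -/
theorem letter_mk_smul (L : List (Fin N × Bool)) (ξ : Bdry N) (hL : FreeGroup.IsReduced L)
    (hlast : ∀ a ∈ L.getLast?, NC a (ξ.letter 0)) (n : ℕ) :
    (FreeGroup.mk L • ξ).letter n =
      if h : n < L.length then L[n] else ξ.letter (n - L.length) := by
  induction L generalizing n with
  | nil =>
    rw [← FreeGroup.one_eq_mk, one_smul]
    simp
  | cons a L ih =>
    have hL' : FreeGroup.IsReduced L := by
      unfold FreeGroup.IsReduced at hL ⊢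
      exact hL.tail
    have hlast' : ∀ b ∈ L.getLast?, NC b (ξ.letter 0) := by
      intro b hb
      apply hlast
      rw [List.getLast?_cons]
      rw [Option.mem_def] at hb ⊢
      rw [hb]
      rfl
    have ih' := ih hL' hlast'
    have e1 : FreeGroup.mk (a :: L) • ξ = mulLetter a (FreeGroup.mk L • ξ) := by
      rw [← mk_letter_smul, smul_smul, FreeGroup.mul_mk]
      rfl
    have hnc : NC a ((FreeGroup.mk L • ξ).letter 0) := by
      rw [ih' 0]
      rcases L with _ | ⟨b, L⟩
      · simp only [List.length_nil, lt_self_iff_false, ↓reduceDIte, tsub_zero]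
        apply hlast
        simp
      · simp only [List.length_cons, Nat.zero_lt_succ, ↓reduceDIte, List.getElem_cons_zero]
        unfold FreeGroup.IsReduced at hL
        rw [List.isChain_cons_cons] at hL
        exact hL.1
    rw [e1]
    rcases n with _ | n
    · rw [mulLetter_letter_zero hnc]
      simp
    · rw [mulLetter_letter_succ hnc, ih' n]
      simp only [List.length_cons, Nat.add_lt_add_iff_right, List.getElem_cons_succ,
        Nat.add_sub_add_right]

/-- If multiplying `w` by the first letter of `θ` does not shorten `w`, then `w • θ` starts with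
the reduced word of `w`. -/
theorem letter_smul_of_norm_le {w : FreeGroup (Fin N)} {θ : Bdry N}
    (h : w.norm ≤ (w * FreeGroup.mk [θ.letter 0]).norm) (n : ℕ) (hn : n < w.norm) :
    (w • θ).letter n = w.toWord[n]'hn := by
  have hlast : ∀ a ∈ w.toWord.getLast?, NC a (θ.letter 0) := by
    intro a ha
    rw [nc_iff]
    intro he
    rw [Option.mem_def, List.getLast?_eq_some_iff] at ha
    obtain ⟨L, hL⟩ := ha
    have e1 : w = FreeGroup.mk L * FreeGroup.mk [a] := by
      rw [FreeGroup.mul_mk, ← hL, FreeGroup.mk_toWord]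
    have e2 : w * FreeGroup.mk [θ.letter 0] = FreeGroup.mk L := by
      rw [e1, he, mul_assoc]
      have h2 : FreeGroup.mk [(a.1, !a.2)] = (FreeGroup.mk [a])⁻¹ := by
        rw [FreeGroup.inv_mk]; rfl
      rw [h2, mul_inv_cancel, mul_one]
    rw [e2] at h
    have h3 : w.norm = L.length + 1 := by
      unfold FreeGroup.norm
      rw [hL]
      simp
    have h4 : (FreeGroup.mk L).norm ≤ L.length := FreeGroup.norm_mk_le
    omega
  have h1 := letter_mk_smul w.toWord θ FreeGroup.isReduced_toWord hlast n
  rw [FreeGroup.mk_toWord] at h1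
  have hn' : n < w.toWord.length := hn
  rw [h1, dif_pos hn']
  rfl

/-- the shifted infinite word -/
def shift (ξ : Bdry N) (k : ℕ) : Bdry N :=
  ⟨fun n => ξ.letter (n + k), fun n => by
    have := ξ.reduced (n + k)
    rw [show n + k + 1 = n + 1 + k by ring] at this
    exact this⟩

theorem pre_smul_shift (ξ : Bdry N) (k : ℕ) : pre ξ k • shift ξ k = ξ := by
  apply Bdry.ext
  funext n
  unfold pre
  rw [letter_mk_smul _ _ (chain_ofFn ξ k)]
  · split_ifs with h
    · rw [List.getElem_ofFn]
    · rw [List.length_ofFn] at h ⊢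
      change ξ.letter (n - k + k) = _
      congr 1
      omega
  · intro a ha
    rcases k with _ | k
    · simp at ha
    · rw [List.ofFn_succ_last, List.getLast?_concat, Option.mem_some_iff] at ha
      rw [← ha]
      change NC _ (ξ.letter (0 + (k + 1)))
      rw [zero_add]
      exact ξ.reduced k

/-- the inverse of a finite prefix of `ξ` acts without cancellation on `ζ` if the first letters
of `ξ` and `ζ` differ. -/
theorem inv_pre_smul_letter {ξ ζ : Bdry N} (hne : ξ.letter 0 ≠ ζ.letter 0) (k : ℕ) :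
    ((pre ξ (k + 1))⁻¹ • ζ).letter 0 = ((ξ.letter k).1, !(ξ.letter k).2) := by
  have e1 : (pre ξ (k + 1))⁻¹ =
      FreeGroup.mk (FreeGroup.invRev (List.ofFn fun i : Fin (k + 1) => ξ.letter i)) := by
    unfold pre
    rw [FreeGroup.inv_mk]
  have hred : FreeGroup.IsReduced
      (FreeGroup.invRev (List.ofFn fun i : Fin (k + 1) => ξ.letter i)) := by
    have h1 := chain_ofFn ξ (k + 1)
    rw [FreeGroup.isReduced_iff_reduce_eq] at h1 ⊢
    rw [FreeGroup.reduce_invRev, h1]
  rw [e1, letter_mk_smul _ _ hred]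
  · rw [dif_pos (by simp)]
    unfold FreeGroup.invRev
    simp only [List.getElem_reverse, List.getElem_map, List.getElem_ofFn, List.length_map,
      List.length_ofFn, add_tsub_cancel_right, tsub_zero]
  · intro a ha
    unfold FreeGroup.invRev at ha
    rw [List.getLast?_reverse, List.ofFn_succ] at ha
    simp only [List.map_cons, List.head?_cons, Option.mem_def, Option.some.injEq] at ha
    rw [nc_iff, ← ha]
    simp only [Bool.not_not]
    exact fun h => hne h.symm

/-- If the lines `h • (ξ, ζ)` separate before index `i`, then one of the vertices of the line is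
close to the base point. -/
theorem exists_close {ξ ζ : Bdry N} (hne : ξ.letter 0 ≠ ζ.letter 0) (g : FreeGroup (Fin N))
    {i : ℕ} (hi : (g • ξ).letter i ≠ (g • ζ).letter i) :
    ∃ k, (g * pre ξ k).norm ≤ i ∨ (g * pre ζ k).norm ≤ i := by
  classical
  -- minimise over both rays
  have main : ∀ (ξ ζ : Bdry N), ξ.letter 0 ≠ ζ.letter 0 → (g • ξ).letter i ≠ (g • ζ).letter i →
      ∀ k, (∀ k', (g * pre ξ k).norm ≤ (g * pre ξ k').norm) →
      (∀ k', (g * pre ξ k).norm ≤ (g * pre ζ k').norm) → (g * pre ξ k).norm ≤ i := by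
    intro ξ ζ hne hi k h1 h2
    by_contra hcon
    push Not at hcon
    apply hi
    have e1 : g • ξ = (g * pre ξ k) • shift ξ k := by
      rw [mul_smul, pre_smul_shift]
    have e2 : g • ζ = (g * pre ξ k) • ((pre ξ k)⁻¹ • ζ) := by
      rw [mul_smul, smul_inv_smul]
    rw [e1, e2]
    rw [letter_smul_of_norm_le (w := g * pre ξ k) (θ := shift ξ k) _ i hcon,
      letter_smul_of_norm_le (w := g * pre ξ k) (θ := (pre ξ k)⁻¹ • ζ) _ i hcon]
    · rcases k with _ | k
      · rw [pre_zero, inv_one, one_smul, mul_one]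
        have := h2 1
        rw [pre_succ, pre_zero, pre_zero, one_mul, mul_one] at this
        exact this
      · rw [inv_pre_smul_letter hne, pre_succ, mul_assoc, mul_assoc]
        have h3 : FreeGroup.mk [((ξ.letter k).1, !(ξ.letter k).2)] =
            (FreeGroup.mk [ξ.letter k])⁻¹ := by
          rw [FreeGroup.inv_mk]; rfl
        rw [h3, mul_inv_cancel, mul_one]
        have := h1 k
        rwa [pre_succ] at this
    · have := h1 (k + 1)
      rw [pre_succ, ← mul_assoc] at this
      change _ ≤ (_ * FreeGroup.mk [ξ.letter (0 + k)]).norm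
      rwa [zero_add]
  obtain ⟨k₁, hk₁⟩ : ∃ k, ∀ k', (g * pre ξ k).norm ≤ (g * pre ξ k').norm := by
    have h := Nat.find_spec (p := fun n => ∃ k, (g * pre ξ k).norm = n) ⟨_, 0, rfl⟩
    obtain ⟨k, hk⟩ := h
    refine ⟨k, fun k' => ?_⟩
    rw [hk]
    exact Nat.find_min' _ ⟨k', rfl⟩
  obtain ⟨k₂, hk₂⟩ : ∃ k, ∀ k', (g * pre ζ k).norm ≤ (g * pre ζ k').norm := by
    have h := Nat.find_spec (p := fun n => ∃ k, (g * pre ζ k).norm = n) ⟨_, 0, rfl⟩
    obtain ⟨k, hk⟩ := h
    refine ⟨k, fun k' => ?_⟩
    rw [hk]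
    exact Nat.find_min' _ ⟨k', rfl⟩
  rcases le_total (g * pre ξ k₁).norm (g * pre ζ k₂).norm with h | h
  · exact ⟨k₁, Or.inl (main ξ ζ hne hi k₁ hk₁ fun k' => h.trans (hk₂ k'))⟩
  · exact ⟨k₂, Or.inr (main ζ ξ hne.symm hi.symm k₂ hk₂ fun k' => h.trans (hk₁ k'))⟩

/-! ### Periodic words -/

/-- nonempty cyclically reduced words -/
abbrev CR (N : ℕ) : Type :=
  {L : List (Fin N × Bool) // L ≠ [] ∧ FreeGroup.IsCyclicallyReduced L}

namespace CR

theorem len_pos (c : CR N) : 0 < c.1.length := List.length_pos_iff.2 c.2.1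

theorem nc_succ (c : CR N) {i : ℕ} (hi : i + 1 < c.1.length) :
    NC (c.1[i]'(by omega)) (c.1[i + 1]) := by
  have h := c.2.2.1
  unfold FreeGroup.IsReduced at h
  rw [List.isChain_iff_getElem] at h
  exact h i hi

theorem nc_wrap (c : CR N) : NC (c.1[c.1.length - 1]'(by have := c.len_pos; omega))
    (c.1[0]'c.len_pos) := by
  have h := c.2.2.2
  apply h
  · rw [Option.mem_def, List.getLast?_eq_getElem?, List.getElem?_eq_getElem]
  · rw [Option.mem_def, List.head?_eq_getElem?, List.getElem?_eq_getElem]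

/-- the periodic infinite word `ccc…` -/
def per (c : CR N) : Bdry N :=
  ⟨fun n => c.1[n % c.1.length]'(Nat.mod_lt _ c.len_pos), fun n => by
    have hpos := c.len_pos
    have hlt := Nat.mod_lt n hpos
    by_cases h : n % c.1.length + 1 < c.1.length
    · have e : (n + 1) % c.1.length = n % c.1.length + 1 := by
        rw [Nat.add_mod, Nat.mod_eq_of_lt (a := 1) (by omega), Nat.mod_eq_of_lt h]
      have := c.nc_succ h
      simp only [e]
      exact this
    · have e0 : n % c.1.length = c.1.length - 1 := by omega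
      have e : (n + 1) % c.1.length = 0 := by
        rw [Nat.add_mod, e0]
        rcases Nat.lt_or_ge 1 c.1.length with h1 | h1
        · rw [Nat.mod_eq_of_lt h1, Nat.sub_add_cancel hpos, Nat.mod_self]
        · have h2 : c.1.length = 1 := by omega
          rw [h2]
      simp only [e0, e]
      exact c.nc_wrap⟩

theorem per_letter (c : CR N) (n : ℕ) :
    c.per.letter n = c.1[n % c.1.length]'(Nat.mod_lt _ c.len_pos) := rfl

theorem per_letter_add (c : CR N) (n : ℕ) :
    c.per.letter (n + c.1.length) = c.per.letter n := by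
  rw [per_letter, per_letter]
  simp only [Nat.add_mod_right]

theorem mk_mul_pre (c : CR N) (n : ℕ) :
    FreeGroup.mk c.1 * pre c.per n = pre c.per (n + c.1.length) := by
  induction n with
  | zero =>
    rw [pre_zero, mul_one, zero_add]
    unfold pre
    congr 1
    apply List.ext_getElem
    · rw [List.length_ofFn]
    · intro i h1 h2
      rw [List.getElem_ofFn, per_letter]
      simp only [Nat.mod_eq_of_lt h1]
  | succ n ih =>
    rw [pre_succ, ← mul_assoc, ih, show n + 1 + c.1.length = n + c.1.length + 1 by ring,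
      pre_succ, per_letter_add]

theorem mk_smul_per (c : CR N) : FreeGroup.mk c.1 • c.per = c.per := by
  obtain ⟨s, t, h⟩ := pre_smul (FreeGroup.mk c.1) c.per
  apply bdry_ext_of_pre (s := s) (t := t + c.1.length)
  intro n
  rw [h, mk_mul_pre, add_assoc]

theorem pow_mul_pre (c : CR N) (k n : ℕ) :
    FreeGroup.mk c.1 ^ k * pre c.per n = pre c.per (n + k * c.1.length) := by
  induction k with
  | zero => simp
  | succ k ih =>
    rw [pow_succ', mul_assoc, ih, mk_mul_pre]
    congr 1
    ring

/-- the inverse word -/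
def inv (c : CR N) : CR N :=
  ⟨FreeGroup.invRev c.1, by
    constructor
    · intro h
      have := congrArg List.length h
      rw [FreeGroup.invRev_length] at this
      have := c.len_pos
      simp_all
    · constructor
      · have h := c.2.2.1
        rw [FreeGroup.isReduced_iff_reduce_eq] at h ⊢
        rw [FreeGroup.reduce_invRev, h]
      · intro a ha b hb hab
        have h := c.2.2.2
        unfold FreeGroup.invRev at ha hb
        rw [List.getLast?_reverse, List.head?_map, Option.mem_def, Option.map_eq_some_iff] at ha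
        rw [List.head?_reverse, List.getLast?_map, Option.mem_def, Option.map_eq_some_iff] at hb
        obtain ⟨a', ha', rfl⟩ := ha
        obtain ⟨b', hb', rfl⟩ := hb
        have := h b' hb' a' ha' hab.symm
        simp only
        rw [this]⟩

theorem mk_inv (c : CR N) : FreeGroup.mk c.inv.1 = (FreeGroup.mk c.1)⁻¹ := by
  rw [FreeGroup.inv_mk]
  rfl

theorem inv_length (c : CR N) : c.inv.1.length = c.1.length := FreeGroup.invRev_length

theorem per_zero (c : CR N) : c.per.letter 0 = c.1[0]'c.len_pos := by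
  rw [per_letter]
  simp only [Nat.zero_mod]

theorem per_ne (c : CR N) : c.per.letter 0 ≠ c.inv.per.letter 0 := by
  rw [per_zero, per_zero]
  have h := nc_iff.1 c.nc_wrap
  have e : c.inv.1[0]'c.inv.len_pos = ((c.1[c.1.length - 1]'(by have := c.len_pos; omega)).1,
      !(c.1[c.1.length - 1]'(by have := c.len_pos; omega)).2) := by
    have hrev : c.inv.1 = (c.1.map (fun g : Fin N × Bool => (g.1, !g.2))).reverse := rfl
    rw [List.getElem_of_eq hrev]
    simp only [List.getElem_reverse, List.getElem_map, List.length_map, tsub_zero]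
  rw [e]
  exact h

/-- the pair of endpoints of the axis of `c` -/
def pair (c : CR N) : DBdry N := ⟨c.per, c.inv.per, fun h => c.per_ne (by rw [h])⟩

theorem mk_smul_inv_per (c : CR N) : FreeGroup.mk c.1 • c.inv.per = c.inv.per := by
  have h := c.inv.mk_smul_per
  rw [mk_inv, inv_smul_eq_iff] at h
  exact h.symm

theorem act_pair (c : CR N) : DBdry.act (FreeGroup.mk c.1) c.pair = c.pair := by
  apply DBdry.ext
  · exact c.mk_smul_per
  · exact c.mk_smul_inv_per

theorem mk_ne_one (c : CR N) : FreeGroup.mk c.1 ≠ 1 := by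
  intro h
  have h1 := congrArg FreeGroup.toWord h
  rw [FreeGroup.toWord_mk, c.2.2.1.reduce_eq, FreeGroup.toWord_one] at h1
  exact c.2.1 h1

end CR

end Pool.Agent.Lib.MP_f2f7de_al
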