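import Mathlib
import Pool.Agent.Lib.MP_f2f7de_al.Axis

set_option autoImplicit false

universe u v

/-! Bridges between subtrees; products of hyperbolic isometries. -/

namespace Pool.Agent.Lib.MP_f2f7de_al

namespace IsRTree

variable {X : Type u} [MetricSpace X] (hX : IsRTree X) {x y z m u v w p q : X}
include hX

theorem isCompact_seg (x y : X) : IsCompact {z | Btw x z y} := by
  obtain ⟨γ, hγ0, hγ1, hγ⟩ := hX.geodesic x y
  have hd := dist_nonneg (x := x) (y := y)
  have hcont : ContinuousOn γ (Set.Icc 0 (dist x y)) := by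
    intro s hs
    apply Metric.continuousWithinAt_iff.2
    intro ε hε
    refine ⟨ε, hε, fun {t} ht hts => ?_⟩
    rw [hγ t ht s hs]
    rwa [Real.dist_eq] at hts
  have : {z | Btw x z y} = γ '' Set.Icc 0 (dist x y) := by
    ext z
    constructor
    · intro hz
      have h1 : dist x z ∈ Set.Icc 0 (dist x y) := ⟨dist_nonneg, hz.le_left⟩
      refine ⟨dist x z, h1, ?_⟩
      have h2 := hγ 0 ⟨le_refl _, hd⟩ _ h1
      have h3 := hγ _ h1 (dist x y) ⟨hd, le_refl _⟩
      rw [hγ0, zero_sub, abs_neg, abs_of_nonneg h1.1] at h2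
      rw [hγ1, abs_of_nonpos (by linarith [h1.2])] at h3
      apply hX.eq_of_dist (y := y) _ hz h2
      unfold Btw
      linarith
    · rintro ⟨t, ht, rfl⟩
      have h2 := hγ 0 ⟨le_refl _, hd⟩ _ ht
      have h3 := hγ _ ht (dist x y) ⟨hd, le_refl _⟩
      rw [hγ0, zero_sub, abs_neg, abs_of_nonneg ht.1] at h2
      rw [hγ1, abs_of_nonpos (by linarith [ht.2])] at h3
      change Btw _ _ _
      unfold Btw
      linarith
  rw [this]
  exact isCompact_Icc.image_of_continuousOn hcont

theorem bridge {A B : Set X} (hA : IsClosed A) (hB : IsClosed B) (cA : Conv A) (cB : Conv B)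
    (nA : A.Nonempty) (nB : B.Nonempty) :
    ∃ p ∈ A, ∃ q ∈ B, (∀ a ∈ A, Btw a p q) ∧ ∀ b ∈ B, Btw p q b := by
  obtain ⟨a₀, ha₀⟩ := nA
  obtain ⟨b₀, hb₀⟩ := nB
  obtain ⟨p, ⟨hpA, hps⟩, hpmin⟩ := ((hX.isCompact_seg a₀ b₀).inter_left hA).exists_isMinOn
    ⟨a₀, ha₀, btw_left _ _⟩ (f := fun z => dist z b₀) (by fun_prop)
  obtain ⟨q, ⟨hqB, hqs⟩, hqmin⟩ := ((hX.isCompact_seg p b₀).inter_left hB).exists_isMinOn
    ⟨b₀, hb₀, btw_right _ _⟩ (f := fun z => dist p z) (by fun_prop)
  refine ⟨p, hpA, q, hqB, ?_, ?_⟩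
  · intro a ha
    obtain ⟨m, h1, h2, h3⟩ := hX.median a p q
    have hmA : m ∈ A := cA a ha p hpA m h1
    have hmp : Btw p m b₀ := Btw.trans hqs h2
    have hms : Btw a₀ m b₀ := Btw.trans_right hps hmp
    have h4 := hpmin ⟨hmA, hms⟩
    simp only at h4
    have h5 := hmp.eq
    have h6 : dist p m = 0 := by
      have := dist_nonneg (x := p) (y := m)
      linarith [show dist p b₀ ≤ dist m b₀ from h4]
    rwa [← dist_eq_zero.1 h6] at h3
  · intro b hb
    obtain ⟨m, h1, h2, h3⟩ := hX.median p q b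
    have hmB : m ∈ B := cB q hqB b hb m h2
    have hmp : Btw p m b₀ := Btw.trans hqs h1
    have h4 : dist p q ≤ dist p m := hqmin ⟨hmB, hmp⟩
    have h5 := h1.eq
    have h6 : dist m q = 0 := by
      have := dist_nonneg (x := m) (y := q)
      linarith
    rwa [dist_eq_zero.1 h6] at h3

theorem proj {A : Set X} (hA : IsClosed A) (cA : Conv A) (nA : A.Nonempty) (x : X) :
    ∃ p ∈ A, ∀ a ∈ A, Btw a p x := by
  obtain ⟨p, hp, q, hq, h1, -⟩ := hX.bridge hA (isClosed_singleton (x := x)) cA (by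
    intro a ha b hb z hz
    rw [Set.mem_singleton_iff] at *
    rw [ha, hb, btw_self_iff] at hz
    exact hz) nA (Set.singleton_nonempty x)
  rw [Set.mem_singleton_iff] at hq
  exact ⟨p, hp, hq ▸ h1⟩

/-- Three subtrees meeting in the single point `p`: each direction at `p` is missed by one of
them. -/
theorem exists_avoid {ι : Type} [Finite ι] [Nonempty ι] {A : ι → Set X} (cA : ∀ i, Conv (A i))
    (hp : ∀ i, p ∈ A i) (hint : ∀ y, (∀ i, y ∈ A i) → y = p) (hq : q ≠ p) :
    ∃ i, ∀ a ∈ A i, Btw a p q := by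
  by_contra hcon
  push Not at hcon
  choose a ha hna using hcon
  have hm : ∀ i, ∃ m, Btw p m (a i) ∧ Btw p m q ∧ m ≠ p := by
    intro i
    obtain ⟨m, h1, h2, h3⟩ := hX.median (a i) p q
    refine ⟨m, h1.symm, h2, ?_⟩
    rintro rfl
    exact hna i h3
  choose m hm1 hm2 hm3 using hm
  obtain ⟨i₀, hi₀⟩ := Finite.exists_min fun i => dist p (m i)
  apply hm3 i₀
  apply hint
  intro j
  have h1 : Btw p (m i₀) (m j) := by
    rcases hX.order (hm2 i₀) (hm2 j) with h | h
    · exact h
    · have h2 : m i₀ = m j := by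
        apply hX.eq_of_dist (hm2 i₀) (hm2 j)
        exact le_antisymm (hi₀ j) h.le_left
      rw [h2]
      exact btw_right _ _
  exact cA j p (hp j) (a j) (ha j) _ (Btw.trans (hm1 j) h1)

end IsRTree

namespace FTA

variable {G : Type v} {X : Type u} [Group G] [MetricSpace X] [MulAction G X] (h : FTA G X)
include h

theorem continuous_smul (g : G) : Continuous fun x : X => g • x :=
  (Isometry.of_dist_eq (h.iso g)).continuous

theorem isClosed_ax (g : G) : IsClosed (ax X g) := by
  have h1 := h.continuous_smul g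
  have h2 : Continuous fun x : X => g • g • x := h1.comp h1
  exact isClosed_eq (by fun_prop) (by fun_prop)

theorem smul_ne {g : G} (hg : g ≠ 1) (x : X) : g • x ≠ x := fun he => hg (h.free g x he)

theorem line_dir {g : G} (hg : g ≠ 1) {p y : X} (hp : p ∈ ax X g) (hy : y ∈ ax X g)
    (hne : y ≠ p) (h1 : Btw (g • p) p y) (h2 : Btw (g⁻¹ • p) p y) : False := by
  have h3 : Btw p (g • p) (g • y) := by
    have := h.btw_smul g h2
    rwa [smul_inv_smul] at this
  have h4 := h.tree.concat (Ne.symm (h.smul_ne hg p)) h1.symm h3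
  have h5 := h4.1.eq
  have h6 := h3.eq
  have h7 := h.tl_eq hg hp
  have h8 := h.tl_eq hg hy
  rw [h.iso] at h6
  apply hne
  have := dist_nonneg (x := y) (y := p)
  have := dist_nonneg (x := p) (y := y)
  exact dist_eq_zero.1 (by linarith)

theorem line_tripod {g : G} (hg : g ≠ 1) {p a b c : X} (hp : p ∈ ax X g) (ha : a ∈ ax X g)
    (hb : b ∈ ax X g) (hc : c ∈ ax X g) (nea : a ≠ p) (neb : b ≠ p) (nec : c ≠ p)
    (h1 : Btw a p b) (h2 : Btw b p c) (h3 : Btw a p c) : False := by
  have H : ∀ y, y ∈ ax X g → y ≠ p → ¬ Btw (g • p) p y ∨ ¬ Btw (g⁻¹ • p) p y := by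
    intro y hy hne
    by_contra hcon
    push Not at hcon
    exact h.line_dir hg hp hy hne hcon.1 hcon.2
  have K : ∀ {s t r : X}, Btw s p t → ¬ Btw r p s → ¬ Btw r p t → False := by
    intro s t r k1 k2 k3
    rcases h.tree.key k1 r with k | k
    · exact k2 k.symm
    · exact k3 k
  rcases H a ha nea with ka | ka <;> rcases H b hb neb with kb | kb <;>
    rcases H c hc nec with kc | kc
  · exact K h1 ka kb
  · exact K h1 ka kb
  · exact K h3 ka kc
  · exact K h2 kb kc
  · exact K h2 kb kc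
  · exact K h3 ka kc
  · exact K h1 ka kb
  · exact K h1 ka kb

theorem tl_mul_le {g k : G} (hg : g ≠ 1) (hk : k ≠ 1) {x y : X} (hx : x ∈ ax X g)
    (hy : y ∈ ax X k) : tl X (g * k) ≤ tl X g + tl X k + 2 * dist x y := by
  have h1 := h.tl_le (g * k) (k⁻¹ • y)
  have h2 : (g * k) • k⁻¹ • y = g • y := by rw [mul_smul, smul_inv_smul]
  rw [h2] at h1
  have h3 := dist_triangle4 (k⁻¹ • y) y x (g • x)
  have h4 := dist_triangle (k⁻¹ • y) (g • x) (g • y)
  have h5 : dist (g • x) (g • y) = dist x y := h.iso _ _ _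
  have h6 : dist (k⁻¹ • y) y = tl X k := by
    rw [h.dist_inv, h.tl_eq hk hy]
  have h7 := h.tl_eq hg hx
  rw [dist_comm y x] at h3
  linarith

/-- The axis of a product of two hyperbolic isometries with disjoint axes. -/
theorem mul_axis {g k : G} (hg : g ≠ 1) (hk : k ≠ 1) {p q : X} (hp : p ∈ ax X g)
    (hq : q ∈ ax X k) (hpq : p ≠ q) (h1 : Btw (g • p) p q) (h2 : Btw (g⁻¹ • p) p q)
    (h3 : Btw p q (k • q)) (h4 : Btw p q (k⁻¹ • q)) :
    g * k ≠ 1 ∧ tl X (g * k) = tl X g + tl X k + 2 * dist p q ∧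
      p ∈ ax X (g * k) ∧ q ∈ ax X (g * k) ∧ g • p ∈ ax X (g * k) := by
  set x := k⁻¹ • q with hx
  have a1 := h.tree.concat hpq.symm h4.symm h1.symm
  -- `x q p gp`
  have a2 : Btw p (g • p) (g • q) := by
    have := h.btw_smul g h2
    rwa [smul_inv_smul] at this
  have a3 := h.tree.concat (Ne.symm (h.smul_ne hg p)) a1.2 a2
  have a4 : Btw (g • p) (g • q) (g • k • q) := h.btw_smul g h3
  have hne : g • p ≠ g • q := fun he => hpq (MulAction.injective g he)
  have a5 := h.tree.concat hne a3.2 a4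
  have e1 : (g * k) • x = g • q := by rw [mul_smul, hx, smul_inv_smul]
  have a6 : Btw x q (g • q) := a3.1.trans h4.symm
  have a7 : Btw (g • q) (g • k • q) ((g * k) • (g * k) • x) := by
    have := h.btw_smul (g * k) a6
    rw [e1] at this ⊢
    rwa [mul_smul g k q] at this
  have hne2 : g • q ≠ g • k • q := fun he =>
    h.smul_ne hk q (MulAction.injective g he).symm
  have a8 := h.tree.concat hne2 a5.2 a7
  have hxax : x ∈ ax X (g * k) := by
    change Btw x ((g * k) • x) ((g * k) • (g * k) • x)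
    have := a8.1
    rw [e1] at this ⊢
    exact this
  have hd : dist x (g • q) = tl X g + tl X k + 2 * dist p q := by
    have b1 := a3.2.eq
    have b2 := a1.2.eq
    have b3 := h4.eq
    have b4 : dist (g • p) (g • q) = dist p q := h.iso _ _ _
    have b5 := h.tl_eq hg hp
    have b6 : dist x q = tl X k := by rw [hx, h.dist_inv, h.tl_eq hk hq]
    have b7 : dist x p = dist p x := dist_comm _ _
    have b8 : dist q x = dist x q := dist_comm _ _
    linarith
  have hgk : g * k ≠ 1 := by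
    intro he
    rw [he, one_smul] at e1
    rw [← e1, dist_self] at hd
    have := dist_pos.2 hpq
    have := h.tl_nonneg g
    have := h.tl_nonneg k
    linarith
  have hgq : g • q ∈ ax X (g * k) := by
    rw [← e1]
    exact h.self_smul_mem_ax hxax
  refine ⟨hgk, ?_, ?_, ?_, ?_⟩
  · rw [h.tl_eq hgk hxax, e1, hd]
  · exact h.conv_ax hgk x hxax _ hgq p a3.1
  · exact h.conv_ax hgk x hxax _ hgq q a6
  · exact h.conv_ax hgk x hxax _ hgq _ a3.2

/-- The three axes of `g`, `gk`, `kg` meet in a single point when the axes of `g` and `k` are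
disjoint. -/
theorem inter_three {g k : G} (hg : g ≠ 1) (hk : k ≠ 1) {p q : X} (hp : p ∈ ax X g)
    (hq : q ∈ ax X k) (hpq : p ≠ q) (h1 : Btw (g • p) p q) (h2 : Btw (g⁻¹ • p) p q)
    (h3 : Btw p q (k • q)) (h4 : Btw p q (k⁻¹ • q)) :
    p ∈ ax X (g * k) ∧ p ∈ ax X (k * g) ∧
      ∀ y, y ∈ ax X g → y ∈ ax X (g * k) → y ∈ ax X (k * g) → y = p := by
  obtain ⟨hgk, -, m1, m2, m3⟩ := h.mul_axis hg hk hp hq hpq h1 h2 h3 h4
  obtain ⟨hkg, -, n1, n2, n3⟩ := h.mul_axis hk hg hq hp hpq.symm h3.symm h4.symm h1.symm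
    h2.symm
  -- `ax (k g) = g⁻¹ ax (g k)`
  have e : g * k = g * (k * g) * g⁻¹ := by group
  have m4 : g⁻¹ • p ∈ ax X (k * g) := by
    apply h.mem_ax_smul
    rwa [← e]
  refine ⟨m1, n2, ?_⟩
  intro y y1 y2 y3
  by_contra hne
  have hgp := h.smul_ne hg p
  have hgp' := h.smul_ne (inv_ne_one.2 hg) p
  have hd : ¬ Btw (g • p) p y ∨ ¬ Btw (g⁻¹ • p) p y := by
    by_contra hcon
    push Not at hcon
    exact h.line_dir hg hp y1 hne hcon.1 hcon.2
  have hopp : Btw (g⁻¹ • p) p (g • p) := by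
    have := h.btw_smul g⁻¹ hp
    rwa [inv_smul_smul, inv_smul_smul] at this
  rcases hd with hd | hd
  · -- `y` in the direction of `g p`: tripod `g⁻¹ p, q, y` on `ax (k g)`
    refine h.line_tripod hkg n2 m4 n1 y3 hgp' hpq.symm hne h2 ?_ ?_
    · rcases h.tree.key h1.symm y with k | k
      · exact k
      · exact absurd k.symm hd
    · rcases h.tree.key hopp y with k | k
      · exact k
      · exact absurd k.symm hd
  · refine h.line_tripod hgk m1 m3 m2 y2 hgp hpq.symm hne h1 ?_ ?_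
    · rcases h.tree.key h2.symm y with k | k
      · exact k
      · exact absurd k.symm hd
    · rcases h.tree.key hopp.symm y with k | k
      · exact k
      · exact absurd k.symm hd

end FTA

end Pool.Agent.Lib.MP_f2f7de_al
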