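import Mathlib
import Pool.Agent.Lib.MP_f2f7de_al.Bridge

set_option autoImplicit false

universe u u' v

/-! The translation length function determines a free minimal action on an ℝ-tree. -/

namespace Pool.Agent.Lib.MP_f2f7de_al

/-- half of the excess of the translation length of a product. -/
noncomputable def Dl {G : Type v} (X : Type u) [Group G] [MetricSpace X] [MulAction G X]
    (g k : G) : ℝ := max 0 ((tl X (g * k) - tl X g - tl X k) / 2)

namespace FTA

variable {G : Type v} {X : Type u} [Group G] [MetricSpace X] [MulAction G X] (h : FTA G X)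
include h

theorem step {g : G} (hg : g ≠ 1) {x y : X} (hx : x ∈ ax X g) (hy : y ∈ ax X g)
    (hd : tl X g ≤ dist x y) : Btw x (g • x) y ∨ Btw x (g⁻¹ • x) y := by
  have hpos := h.tl_pos hg
  have hne : y ≠ x := by
    rintro rfl
    rw [dist_self] at hd
    linarith
  have aux : ∀ k : G, k ≠ 1 → ax X k = ax X g → tl X k = tl X g → ¬ Btw (k • x) x y →
      Btw x (k • x) y := by
    intro k hk hax htl hnb
    obtain ⟨c, c1, c2, c3⟩ := h.tree.median (k • x) x y
    have hcx : c ≠ x := by
      rintro rfl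
      exact hnb c3
    have hkx : k • x ∈ ax X g := by
      rw [← hax]
      apply h.self_smul_mem_ax
      rw [hax]
      exact hx
    have hcax : c ∈ ax X g := h.conv_ax hg _ hx _ hy c c2
    rcases eq_or_ne c (k • x) with he | he
    · rwa [he] at c2
    · rcases eq_or_ne c y with he' | he'
      · rw [he'] at c1
        have h1 := c1.eq
        have h2 : dist x (k • x) = tl X g := by
          rw [← htl]
          exact (h.tl_eq hk (by rw [hax]; exact hx)).symm
        rw [dist_comm (k • x) x, dist_comm y x] at h1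
        have h3 : dist (k • x) y = 0 := by
          have := dist_nonneg (x := k • x) (y := y)
          linarith
        rw [dist_eq_zero.1 h3]
        exact btw_right _ _
      · exact (h.line_tripod hg hcax hkx hx hy he.symm hcx.symm he'.symm c1 c2 c3).elim
  have hd2 : ¬ Btw (g • x) x y ∨ ¬ Btw (g⁻¹ • x) x y := by
    by_contra hcon
    push Not at hcon
    exact h.line_dir hg hx hy hne hcon.1 hcon.2
  rcases hd2 with hd2 | hd2
  · exact Or.inl (aux g hg rfl rfl hd2)
  · exact Or.inr (aux g⁻¹ (inv_ne_one.2 hg) (h.ax_inv g) (h.tl_inv g) hd2)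

theorem two_steps {g k : G} (hg : g ≠ 1) (hk : k ≠ 1) {x y : X} (hxg : x ∈ ax X g)
    (hxk : x ∈ ax X k) (hyg : y ∈ ax X g) (h1 : Btw x (g • x) y)
    (h2 : Btw x (k • x) y) (hd : tl X g + tl X k ≤ dist x y) :
    Btw x (g • k • x) y ∧ dist x (g • k • x) = tl X g + tl X k := by
  have hpg := h.tl_pos hg
  have hpk := h.tl_pos hk
  have eg := h.tl_eq hg hxg
  have ek := h.tl_eq hk hxk
  have hsg : k • x ∈ ax X g := h.conv_ax hg _ hxg _ hyg _ h2
  have e2 := h2.eq
  rcases h.step hg hsg hyg (by linarith) with h3 | h3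
  · refine ⟨h2.trans_right h3, ?_⟩
    have h4 := (h2.trans_right' h3).eq
    have h5 : dist (k • x) (g • k • x) = tl X g := (h.tl_eq hg hsg).symm
    linarith
  · exfalso
    have h4 := (h2.trans_right' h3).eq
    have hsg' : k • x ∈ ax X g⁻¹ := by rwa [h.ax_inv]
    have h5 : dist (k • x) (g⁻¹ • k • x) = tl X g := by
      rw [← h.tl_inv g]
      exact (h.tl_eq (inv_ne_one.2 hg) hsg').symm
    have h6 : dist (g • x) (k • x) = dist x (g⁻¹ • k • x) := by
      rw [← h.iso g x, smul_inv_smul]
    rcases h.tree.order h1 h2 with h7 | h7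
    · have := h7.eq
      linarith
    · have := h7.eq
      rw [dist_comm (k • x) (g • x)] at this
      linarith

theorem overlap_lt {a b : G} (hab : a * b ≠ b * a) {x y : X} (hxa : x ∈ ax X a)
    (hxb : x ∈ ax X b) (hya : y ∈ ax X a) (hyb : y ∈ ax X b) :
    dist x y < tl X a + tl X b := by
  by_contra hcon
  push Not at hcon
  have ha : a ≠ 1 := by rintro rfl; simp at hab
  have hb : b ≠ 1 := by rintro rfl; simp at hab
  have hpa := h.tl_pos ha
  have hpb := h.tl_pos hb
  have main : ∀ g k : G, g ≠ 1 → k ≠ 1 → ax X g = ax X a → ax X k = ax X b →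
      tl X g = tl X a → tl X k = tl X b → Btw x (g • x) y → Btw x (k • x) y →
      g * k = k * g := by
    intro g k hg hk axg axk tlg tlk b1 b2
    have r1 := h.two_steps hg hk (by rw [axg]; exact hxa) (by rw [axk]; exact hxb)
      (by rw [axg]; exact hya) b1 b2 (by linarith)
    have r2 := h.two_steps hk hg (by rw [axk]; exact hxb) (by rw [axg]; exact hxa)
      (by rw [axk]; exact hyb) b2 b1 (by linarith)
    have r3 := h.tree.eq_of_dist r1.1 r2.1 (by linarith [r1.2, r2.2])
    rw [smul_smul, smul_smul] at r3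
    have r4 : ((k * g)⁻¹ * (g * k)) • x = x := by
      rw [mul_smul, r3, inv_smul_smul]
    have r5 := h.free _ _ r4
    rw [inv_mul_eq_one] at r5
    exact r5.symm
  have hA := h.step ha hxa hya (by linarith)
  have hB := h.step hb hxb hyb (by linarith)
  have ha' := inv_ne_one.2 ha
  have hb' := inv_ne_one.2 hb
  rcases hA with hA | hA <;> rcases hB with hB | hB
  · exact hab (main a b ha hb rfl rfl rfl rfl hA hB)
  · have := main a b⁻¹ ha hb' rfl (h.ax_inv b) rfl (h.tl_inv b) hA hB
    apply hab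
    have h1 : a * b = b * (b⁻¹ * a) * b := by group
    rw [h1, ← this]; group
  · have := main a⁻¹ b ha' hb (h.ax_inv a) rfl (h.tl_inv a) rfl hA hB
    apply hab
    have h1 : a * b = a * (b * a⁻¹) * a := by group
    rw [h1, ← this]; group
  · have := main a⁻¹ b⁻¹ ha' hb' (h.ax_inv a) (h.ax_inv b) (h.tl_inv a) (h.tl_inv b) hA hB
    apply hab
    rw [← mul_inv_rev, ← mul_inv_rev, inv_inj] at this
    exact this.symm

theorem exists_disjoint {a b : G} (hab : a * b ≠ b * a) :
    ∃ g k : G, g ≠ 1 ∧ k ≠ 1 ∧ Disjoint (ax X g) (ax X k) := by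
  have ha : a ≠ 1 := by rintro rfl; simp at hab
  have hb : b ≠ 1 := by rintro rfl; simp at hab
  by_cases hdis : Disjoint (ax X a) (ax X b)
  · exact ⟨a, b, ha, hb, hdis⟩
  rw [Set.not_disjoint_iff] at hdis
  obtain ⟨x₀, hxa, hxb⟩ := hdis
  have hpb := h.tl_pos hb
  obtain ⟨n, hn⟩ := exists_nat_gt ((tl X a + tl X b) / tl X b)
  rw [div_lt_iff₀ hpb] at hn
  refine ⟨a, b ^ n * a * (b ^ n)⁻¹, ha, ?_, ?_⟩
  · intro he
    apply ha
    have : a = (b ^ n)⁻¹ * (b ^ n * a * (b ^ n)⁻¹) * b ^ n := by group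
    rw [this, he]; group
  rw [Set.disjoint_left]
  intro z hz hz'
  have hz2 := h.mem_ax_smul _ hz'
  obtain ⟨w, hw, hproj⟩ := h.tree.proj (h.isClosed_ax b) (h.conv_ax hb) (h.ax_nonempty b) z
  have hwa : w ∈ ax X a := h.conv_ax ha _ hxa _ hz w (hproj x₀ hxb)
  have hw' : (b ^ n)⁻¹ • w ∈ ax X b := by
    have := h.pow_smul_mem_ax hw (-(n : ℤ))
    rwa [zpow_neg, zpow_natCast] at this
  have hwa' : (b ^ n)⁻¹ • w ∈ ax X a := by
    have hb2 : b ^ n • x₀ ∈ ax X b := by
      have := h.pow_smul_mem_ax hxb (n : ℤ)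
      rwa [zpow_natCast] at this
    have h1 := h.btw_smul (b ^ n)⁻¹ (hproj _ hb2)
    rw [inv_smul_smul] at h1
    exact h.conv_ax ha _ hxa _ hz2 _ h1
  have h1 := h.overlap_lt hab hwa' hw' hwa hw
  have h2 := (h.ax_pow hb hw n).2
  rw [h.dist_inv, ← h.tl_eq hb hw] at *
  rw [h2] at h1
  linarith

theorem exists_bridge {g k : G} (hg : g ≠ 1) (hk : k ≠ 1)
    (hd : Disjoint (ax X g) (ax X k)) : ∃ p ∈ ax X g, ∃ q ∈ ax X k, p ≠ q ∧
      Btw (g • p) p q ∧ Btw (g⁻¹ • p) p q ∧ Btw p q (k • q) ∧ Btw p q (k⁻¹ • q) := by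
  obtain ⟨p, hp, q, hq, h1, h2⟩ := h.tree.bridge (h.isClosed_ax g) (h.isClosed_ax k)
    (h.conv_ax hg) (h.conv_ax hk) (h.ax_nonempty g) (h.ax_nonempty k)
  refine ⟨p, hp, q, hq, ?_, h1 _ (h.self_smul_mem_ax hp), h1 _ ?_,
    h2 _ (h.self_smul_mem_ax hq), h2 _ ?_⟩
  · rintro rfl
    exact Set.disjoint_left.1 hd hp hq
  · have := h.self_smul_mem_ax (h.inv_mem_ax hp)
    rwa [h.ax_inv] at this
  · have := h.self_smul_mem_ax (h.inv_mem_ax hq)
    rwa [h.ax_inv] at this

theorem Dl_le {g k : G} (hg : g ≠ 1) (hk : k ≠ 1) {x y : X} (hx : x ∈ ax X g)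
    (hy : y ∈ ax X k) : Dl X g k ≤ dist x y := by
  unfold Dl
  apply max_le dist_nonneg
  have := h.tl_mul_le hg hk hx hy
  linarith

theorem isGreatest_base {c : Fin 3 → G} (hc : ∀ i, c i ≠ 1) {p : X} (hp : ∀ i, p ∈ ax X (c i))
    (hint : ∀ y, (∀ i, y ∈ ax X (c i)) → y = p) (t : G) :
    IsGreatest (Set.range fun ij : Fin 3 × Fin 3 => Dl X (c ij.1) (t * c ij.2 * t⁻¹))
      (dist p (t • p)) := by
  have hcj : ∀ j, t * c j * t⁻¹ ≠ 1 := by
    intro j he
    apply hc j
    have : c j = t⁻¹ * (t * c j * t⁻¹) * t := by group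
    rw [this, he]; group
  constructor
  · rcases eq_or_ne (t • p) p with he | hne
    · refine ⟨(0, 0), ?_⟩
      apply le_antisymm
      · exact h.Dl_le (hc 0) (hcj 0) (hp 0) (h.smul_mem_ax (hp 0) t)
      · rw [he, dist_self]
        exact le_max_left _ _
    · obtain ⟨i, hi⟩ := h.tree.exists_avoid (A := fun i => ax X (c i))
        (fun i => h.conv_ax (hc i)) hp hint hne
      have hne' : t⁻¹ • p ≠ p := by
        intro he
        apply hne
        rw [← he, smul_inv_smul, he]
      obtain ⟨j, hj⟩ := h.tree.exists_avoid (A := fun i => ax X (c i))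
        (fun i => h.conv_ax (hc i)) hp hint hne'
      refine ⟨(i, j), ?_⟩
      have hj' : ∀ a ∈ ax X (t * c j * t⁻¹), Btw a (t • p) p := by
        intro a ha
        have h1 := h.btw_smul t (hj _ (h.mem_ax_smul t ha))
        rwa [smul_inv_smul, smul_inv_smul] at h1
      have m1 := h.smul_mem_ax (hp j) t
      have k1 := h.self_smul_mem_ax (hp i)
      have k2 : (c i)⁻¹ • p ∈ ax X (c i) := by
        have := h.self_smul_mem_ax (h.inv_mem_ax (hp i))
        rwa [h.ax_inv] at this
      have k3 := h.self_smul_mem_ax m1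
      have k4 : (t * c j * t⁻¹)⁻¹ • t • p ∈ ax X (t * c j * t⁻¹) := by
        have := h.self_smul_mem_ax (h.inv_mem_ax m1)
        rwa [h.ax_inv] at this
      have h2 := (h.mul_axis (hc i) (hcj j) (hp i) m1 hne.symm (hi _ k1) (hi _ k2)
        (hj' _ k3).symm (hj' _ k4).symm).2.1
      simp only [Dl]
      rw [h2, max_eq_right]
      · ring
      · have := dist_nonneg (x := p) (y := t • p)
        linarith
  · rintro _ ⟨⟨i, j⟩, rfl⟩
    exact h.Dl_le (hc i) (hcj j) (hp i) (h.smul_mem_ax (hp j) t)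

end FTA

section two

variable {G : Type v} {X : Type u} {X' : Type u'} [Group G] [MetricSpace X] [MulAction G X]
  [MetricSpace X'] [MulAction G X'] (h : FTA G X) (h' : FTA G X')
include h h'

/-- Equality of translation lengths gives base points with equal based length functions. -/
theorem exists_base (hlen : ∀ g : G, tl X g = tl X' g) {a b : G} (hab : a * b ≠ b * a) :
    ∃ (p : X) (p' : X'), ∀ t : G, dist p (t • p) = dist p' (t • p') := by
  obtain ⟨g, k, hg, hk, hdis⟩ := h.exists_disjoint hab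
  obtain ⟨p, hp, q, hq, hpq, h1, h2, h3, h4⟩ := h.exists_bridge hg hk hdis
  obtain ⟨hgk, htl, -⟩ := h.mul_axis hg hk hp hq hpq h1 h2 h3 h4
  have hkg : k * g ≠ 1 := by
    intro he
    apply hgk
    have : g * k = g * (k * g) * g⁻¹ := by group
    rw [this, he]; group
  have hdis' : Disjoint (ax X' g) (ax X' k) := by
    rw [Set.disjoint_left]
    intro y y1 y2
    have k1 := h'.tl_mul_le hg hk y1 y2
    rw [dist_self, ← hlen, ← hlen, ← hlen, htl] at k1
    have := dist_pos.2 hpq
    linarith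
  obtain ⟨p', hp', q', hq', hpq', h1', h2', h3', h4'⟩ := h'.exists_bridge hg hk hdis'
  obtain ⟨m1, m2, m3⟩ := h.inter_three hg hk hp hq hpq h1 h2 h3 h4
  obtain ⟨m1', m2', m3'⟩ := h'.inter_three hg hk hp' hq' hpq' h1' h2' h3' h4'
  refine ⟨p, p', fun t => ?_⟩
  have hc : ∀ i : Fin 3, (![g, g * k, k * g] : Fin 3 → G) i ≠ 1 := by
    intro i
    fin_cases i
    · exact hg
    · exact hgk
    · exact hkg
  have r1 := h.isGreatest_base (c := ![g, g * k, k * g]) hc (p := p)
    (by intro i; fin_cases i; exacts [hp, m1, m2])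
    (by intro y hy; exact m3 y (hy 0) (hy 1) (hy 2)) t
  have r2 := h'.isGreatest_base (c := ![g, g * k, k * g]) hc (p := p')
    (by intro i; fin_cases i; exacts [hp', m1', m2'])
    (by intro y hy; exact m3' y (hy 0) (hy 1) (hy 2)) t
  have hD : ∀ x y : G, Dl X x y = Dl X' x y := by
    intro x y
    unfold Dl
    rw [hlen, hlen, hlen]
  simp only [hD] at r1
  exact r1.unique r2

omit h h' in
theorem dist_eq_max (hX : IsRTree X) {x w y : X} (hb : Btw x w y) (z : X) :
    dist w z = max (dist x z - dist x w) (dist y z - dist w y) := by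
  have h1 := hb.eq
  have h2 := dist_triangle x w z
  have h3 := dist_triangle y w z
  rw [dist_comm y w] at h3
  apply le_antisymm
  · rcases hX.key hb z with k | k
    · have := k.eq
      exact le_max_of_le_left (by linarith)
    · have := k.eq
      rw [dist_comm z w, dist_comm z y] at this
      exact le_max_of_le_right (by linarith)
  · exact max_le (by linarith) (by linarith)

omit h h' in
theorem hull_conv (hX : IsRTree X) (p : X) : Conv {x : X | ∃ s t : G, Btw (s • p) x (t • p)} := by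
  rintro x ⟨s₁, t₁, h1⟩ y ⟨s₂, t₂, h2⟩ z hz
  rcases hX.key hz (s₂ • p) with k | k
  · rcases hX.key k.symm (s₁ • p) with k' | k'
    · exact ⟨_, _, k'⟩
    · exact ⟨_, _, h1.trans k'⟩
  · exact ⟨_, _, h2.trans k⟩

/-- Equality of based length functions gives an equivariant isometry. -/
theorem same_of_base {p : X} {p' : X'} (hp : ∀ x : X, ∃ s t : G, Btw (s • p) x (t • p))
    (hp' : ∀ x : X', ∃ s t : G, Btw (s • p') x (t • p'))
    (hL : ∀ t : G, dist p (t • p) = dist p' (t • p')) :
    ∃ f : X ≃ᵢ X', ∀ (g : G) (x : X), f (g • x) = g • f x := by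
  have hL2 : ∀ s t : G, dist (s • p) (t • p) = dist (s • p') (t • p') := by
    intro s t
    rw [← h.iso s⁻¹, ← h'.iso s⁻¹ (s • p'), inv_smul_smul, inv_smul_smul, smul_smul, smul_smul,
      hL]
  have claim1 : ∀ x y : X, ∃ u : G, dist x (u • p) - dist y (u • p) = dist x y := by
    intro x y
    obtain ⟨s, t, hy⟩ := hp y
    rcases h.tree.key hy x with k | k
    · refine ⟨s, ?_⟩
      have := k.eq
      rw [dist_comm x, dist_comm y, dist_comm x y]
      linarith
    · refine ⟨t, ?_⟩
      have := k.eq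
      linarith
  have claim1' : ∀ x y : X', ∃ u : G, dist x (u • p') - dist y (u • p') = dist x y := by
    intro x y
    obtain ⟨s, t, hy⟩ := hp' y
    rcases h'.tree.key hy x with k | k
    · refine ⟨s, ?_⟩
      have := k.eq
      rw [dist_comm x, dist_comm y, dist_comm x y]
      linarith
    · refine ⟨t, ?_⟩
      have := k.eq
      linarith
  have ex : ∀ x : X, ∃ x' : X', ∀ u : G, dist x' (u • p') = dist x (u • p) := by
    intro x
    obtain ⟨s, t, hx⟩ := hp x
    obtain ⟨x', hx', hd⟩ := h'.tree.exists_point (s • p') (t • p') (t := dist (s • p) x)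
      dist_nonneg (by rw [← hL2]; exact hx.le_left)
    refine ⟨x', fun u => ?_⟩
    rw [dist_eq_max h.tree hx, dist_eq_max h'.tree hx', hd, ← hL2, ← hL2]
    have e1 := hx.eq
    have e2 := hx'.eq
    rw [← hL2] at e2
    rw [show dist x' (t • p') = dist x (t • p) by linarith]
  have ex' : ∀ x : X', ∃ x' : X, ∀ u : G, dist x' (u • p) = dist x (u • p') := by
    intro x
    obtain ⟨s, t, hx⟩ := hp' x
    obtain ⟨x', hx', hd⟩ := h.tree.exists_point (s • p) (t • p) (t := dist (s • p') x)
      dist_nonneg (by rw [hL2]; exact hx.le_left)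
    refine ⟨x', fun u => ?_⟩
    rw [dist_eq_max h'.tree hx, dist_eq_max h.tree hx', hd, hL2, hL2]
    have e1 := hx.eq
    have e2 := hx'.eq
    rw [hL2] at e2
    rw [show dist x' (t • p) = dist x (t • p') by linarith]
  choose f hf using ex
  choose f' hf' using ex'
  have inj : ∀ x y : X, (∀ u : G, dist x (u • p) = dist y (u • p)) → x = y := by
    intro x y hxy
    obtain ⟨u, hu⟩ := claim1 x y
    rw [hxy, sub_self] at hu
    exact dist_eq_zero.1 hu.symm
  have inj' : ∀ x y : X', (∀ u : G, dist x (u • p') = dist y (u • p')) → x = y := by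
    intro x y hxy
    obtain ⟨u, hu⟩ := claim1' x y
    rw [hxy, sub_self] at hu
    exact dist_eq_zero.1 hu.symm
  have hiso : ∀ x y : X, dist (f x) (f y) = dist x y := by
    intro x y
    apply le_antisymm
    · obtain ⟨u, hu⟩ := claim1' (f x) (f y)
      rw [← hu, hf, hf]
      have := dist_triangle x y (u • p)
      linarith
    · obtain ⟨u, hu⟩ := claim1 x y
      rw [← hu, ← hf, ← hf]
      have := dist_triangle (f x) (f y) (u • p')
      linarith
  refine ⟨⟨⟨f, f', fun x => inj _ _ fun u => ?_, fun x => inj' _ _ fun u => ?_⟩,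
    Isometry.of_dist_eq hiso⟩, ?_⟩
  · rw [hf', hf]
  · rw [hf, hf']
  · intro g x
    change f (g • x) = g • f x
    apply inj'
    intro u
    rw [hf, ← h.iso g⁻¹ (g • x), inv_smul_smul, smul_smul, ← h'.iso g⁻¹ (g • f x),
      inv_smul_smul, smul_smul, hf]

end two

end Pool.Agent.Lib.MP_f2f7de_al
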