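import Mathlib
import Pool.Agent.Lib.MP_f2f7de_al.Length

set_option autoImplicit false

universe u u' v

/-! The structure of free, discrete, minimal actions of finitely generated groups on
ℝ-trees: branch points and edges. -/

namespace Pool.Agent.Lib.MP_f2f7de_al

/-- free, discrete, minimal isometric action of a nonabelian group generated by `a` on an
ℝ-tree -/
structure DTA {G : Type v} (X : Type u) [Group G] [MetricSpace X] [MulAction G X] {N : ℕ}
    (a : Fin N → G) : Prop extends FTA G X where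
  discrete : ∀ x : X, ∃ ε > 0, ∀ g : G, g • x ≠ x → ε ≤ dist x (g • x)
  minimal : ∀ Y : Set X, Y.Nonempty → Conv Y → (∀ g : G, ∀ x ∈ Y, g • x ∈ Y) → Y = Set.univ
  gen : Subgroup.closure (Set.range a) = ⊤
  noncomm : ∃ g k : G, g * k ≠ k * g

theorem IsEdge.symm {X : Type u} [MetricSpace X] {x y : X} (h : IsEdge (x, y)) :
    IsEdge (y, x) :=
  ⟨h.2.1, h.1, h.2.2.1.symm, fun v hv hb => (h.2.2.2 v hv hb.symm).symm⟩

namespace IsRTree

variable {X : Type u} [MetricSpace X] (hX : IsRTree X) {x y z m u v w p q : X}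
include hX

/-- being in different directions. -/
theorem sep_trans (h1 : ¬ Btw x v y) (h2 : ¬ Btw y v z) : ¬ Btw x v z := by
  intro h
  rcases hX.key h y with k | k
  · exact h1 k
  · exact h2 k

/-- A branch point has a direction avoiding two given points. -/
theorem branch_avoid (hv : IsBranch v) (x y : X) : ∃ z, z ≠ v ∧ Btw x v z ∧ Btw y v z := by
  obtain ⟨d₁, d₂, d₃, n₁, n₂, n₃, h12, h23, h13⟩ := hv
  by_contra hcon
  push Not at hcon
  have c1 := hcon d₁ n₁
  have c2 := hcon d₂ n₂
  have c3 := hcon d₃ n₃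
  have K : ∀ {s t r : X}, Btw s v t → ¬ Btw r v s → ¬ Btw r v t → False := by
    intro s t r k1 k2 k3
    rcases hX.key k1 r with k | k
    · exact k2 k.symm
    · exact k3 k
  by_cases x1 : Btw x v d₁
  · by_cases x2 : Btw x v d₂
    · exact K h12 (c1 x1) (c2 x2)
    · by_cases x3 : Btw x v d₃
      · exact K h13 (c1 x1) (c3 x3)
      · exact K h23 x2 x3
  · by_cases x2 : Btw x v d₂
    · by_cases x3 : Btw x v d₃
      · exact K h23 (c2 x2) (c3 x3)
      · exact K h13 x1 x3
    · exact K h12 x1 x2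

theorem median_unique (h1 : Btw x m y) (h2 : Btw x m z) (h3 : Btw y m z) (k1 : Btw x u y)
    (k2 : Btw x u z) (k3 : Btw y u z) : m = u := by
  apply hX.eq_of_dist h1 k1
  have a1 := h1.eq
  have a2 := h2.eq
  have a3 := h3.eq
  have b1 := k1.eq
  have b2 := k2.eq
  have b3 := k3.eq
  rw [dist_comm y m] at a3
  rw [dist_comm y u] at b3
  linarith

theorem nbr_unique (h1 : IsEdge (v, w)) (h2 : IsEdge (v, u)) (h3 : ¬ Btw w v u) : w = u := by
  obtain ⟨c, c1, c2, c3⟩ := hX.median v w u
  have hcv : c ≠ v := by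
    rintro rfl
    exact h3 c2
  by_cases hcw : c = w
  · rw [hcw] at c3
    rcases h2.2.2.2 w h1.2.1 c3 with k | k
    · exact absurd k.symm h1.2.2.1
    · exact k
  by_cases hcu : c = u
  · rw [hcu] at c1
    rcases h1.2.2.2 u h2.2.1 c1 with k | k
    · exact absurd k.symm h2.2.2.1
    · exact k.symm
  · have hb : IsBranch c := ⟨v, w, u, hcv.symm, Ne.symm hcw, Ne.symm hcu, c1, c2, c3⟩
    rcases h1.2.2.2 c hb c1 with k | k
    · exact absurd k hcv
    · exact absurd k hcw

end IsRTree

namespace DTA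

variable {G : Type v} {X : Type u} [Group G] [MetricSpace X] [MulAction G X] {N : ℕ}
  {a : Fin N → G} (h : DTA X a)
include h

theorem branch_smul (g : G) {v : X} (hv : IsBranch v) : IsBranch (g • v) := by
  obtain ⟨d₁, d₂, d₃, n₁, n₂, n₃, h12, h23, h13⟩ := hv
  exact ⟨g • d₁, g • d₂, g • d₃, fun e => n₁ (MulAction.injective g e),
    fun e => n₂ (MulAction.injective g e), fun e => n₃ (MulAction.injective g e),
    h.btw_smul g h12, h.btw_smul g h23, h.btw_smul g h13⟩

theorem branch_smul_iff (g : G) {v : X} : IsBranch (g • v) ↔ IsBranch v := by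
  constructor
  · intro hv
    have := h.branch_smul g⁻¹ hv
    rwa [inv_smul_smul] at this
  · exact h.branch_smul g

theorem edge_smul (g : G) {v w : X} (he : IsEdge (v, w)) : IsEdge (g • v, g • w) := by
  refine ⟨h.branch_smul g he.1, h.branch_smul g he.2.1,
    fun e => he.2.2.1 (MulAction.injective g e), ?_⟩
  intro c hc hb
  have h1 := h.btw_smul g⁻¹ hb
  rw [inv_smul_smul, inv_smul_smul] at h1
  rcases he.2.2.2 _ (h.branch_smul g⁻¹ hc) h1 with k | k
  · left
    simp only at k ⊢
    rw [← k, smul_inv_smul]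
  · right
    simp only at k ⊢
    rw [← k, smul_inv_smul]

theorem edge_smul_iff (g : G) {v w : X} : IsEdge (g • v, g • w) ↔ IsEdge (v, w) := by
  constructor
  · intro he
    have := h.edge_smul g⁻¹ he
    rwa [inv_smul_smul, inv_smul_smul] at this
  · exact h.edge_smul g

theorem exists_branch : ∃ p : X, IsBranch p := by
  obtain ⟨x, y, hxy⟩ := h.noncomm
  obtain ⟨g, k, hg, hk, hdis⟩ := h.exists_disjoint hxy
  obtain ⟨p, hp, q, hq, hpq, h1, h2, h3, h4⟩ := h.exists_bridge hg hk hdis
  refine ⟨p, g • p, g⁻¹ • p, q, h.smul_ne hg p, h.smul_ne (inv_ne_one.2 hg) p, hpq.symm, ?_,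
    h2, h1⟩
  have := h.btw_smul g⁻¹ hp
  rw [inv_smul_smul, inv_smul_smul] at this
  exact this.symm

theorem hull (p x : X) : ∃ s t : G, Btw (s • p) x (t • p) := by
  have := h.minimal {x : X | ∃ s t : G, Btw (s • p) x (t • p)} ⟨p, 1, 1, by
    simp [btw_left]⟩ (hull_conv h.tree p) (by
      rintro g x ⟨s, t, hx⟩
      refine ⟨g * s, g * t, ?_⟩
      rw [mul_smul, mul_smul]
      exact h.btw_smul g hx)
  have h2 : x ∈ {x : X | ∃ s t : G, Btw (s • p) x (t • p)} := by
    rw [this]
    trivial
  exact h2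

theorem N_pos : 0 < N := by
  rcases Nat.eq_zero_or_pos N with rfl | hN
  · exfalso
    obtain ⟨g, k, hgk⟩ := h.noncomm
    have h1 := h.gen
    rw [Set.range_eq_empty, Subgroup.closure_empty] at h1
    have hg : g ∈ (⊥ : Subgroup G) := h1 ▸ Subgroup.mem_top g
    rw [Subgroup.mem_bot] at hg
    apply hgk
    rw [hg]; simp
  · exact hN

/-- `X` is covered by the translates of the segments `[p, a_i p]`. -/
theorem cover (p x : X) : ∃ (g : G) (i : Fin N), Btw (g • p) x (g • a i • p) := by
  obtain ⟨s, t, hx⟩ := h.hull p x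
  have main : ∀ w : G, w ∈ Subgroup.closure (Set.range a) → ∀ (g : G) (x : X),
      Btw (g • p) x (g • w • p) → ∃ (g : G) (i : Fin N), Btw (g • p) x (g • a i • p) := by
    intro w hw
    induction hw using Subgroup.closure_induction with
    | mem w hw =>
      obtain ⟨i, rfl⟩ := hw
      intro g x hx
      exact ⟨g, i, hx⟩
    | one =>
      intro g x hx
      rw [one_smul, btw_self_iff] at hx
      refine ⟨g, ⟨0, h.N_pos⟩, ?_⟩
      rw [hx]
      exact btw_left _ _
    | mul w w' _ _ ih ih' =>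
      intro g x hx
      rcases h.tree.key hx (g • w • p) with k | k
      · exact ih g x k
      · apply ih' (g * w) x
        rw [mul_smul, mul_smul]
        rwa [mul_smul] at k
    | inv w _ ih =>
      intro g x hx
      apply ih (g * w⁻¹) x
      rw [mul_smul, mul_smul, inv_smul_smul]
      exact hx.symm
  apply main (s⁻¹ * t) (h.gen ▸ Subgroup.mem_top _) s x
  rw [← mul_smul, mul_inv_cancel_left]
  exact hx

theorem orbit_isolated (k c : X) : ∃ ε > 0, ∀ g : G, dist (g • k) c < ε → g • k = c := by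
  obtain ⟨ε, hε, hd⟩ := h.discrete k
  have hd' : ∀ g g' : G, dist (g • k) (g' • k) < ε → g • k = g' • k := by
    intro g g' hlt
    by_contra hne
    have h1 : (g⁻¹ * g') • k ≠ k := by
      intro he
      apply hne
      rw [mul_smul, inv_smul_eq_iff] at he
      exact he.symm
    have h2 := hd _ h1
    rw [mul_smul, ← h.iso g, smul_inv_smul] at h2
    linarith
  by_cases hex : ∃ g₀ : G, dist (g₀ • k) c < ε / 2
  · obtain ⟨g₀, hg₀⟩ := hex
    rcases eq_or_ne (g₀ • k) c with he | hne
    · refine ⟨ε, hε, fun g hg => ?_⟩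
      rw [← he] at hg ⊢
      exact hd' g g₀ hg
    · refine ⟨dist (g₀ • k) c, dist_pos.2 hne, fun g hg => ?_⟩
      exfalso
      have h1 : dist (g • k) (g₀ • k) < ε := by
        have := dist_triangle_right (g • k) (g₀ • k) c
        linarith
      rw [hd' g g₀ h1] at hg
      exact lt_irrefl _ hg
  · push Not at hex
    refine ⟨ε / 2, by linarith, fun g hg => ?_⟩
    have := hex g
    linarith

/-- local finiteness of the translates of a segment. -/
theorem loc_fin (c p q : X) : ∃ ε > 0, ∃ H : Set G, H.Finite ∧ ∀ (g : G) (z : X),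
    Btw (g • p) z (g • q) → dist z c < ε → g ∈ H ∧ Btw (g • p) c (g • q) := by
  choose ε hε hiso using fun k : X => h.orbit_isolated k c
  obtain ⟨t, ht, hcov⟩ := (h.tree.isCompact_seg p q).elim_nhds_subcover
    (fun k => Metric.ball k (ε k / 2)) (fun k _ => Metric.ball_mem_nhds k (half_pos (hε k)))
  have htne : t.Nonempty := by
    have := hcov (btw_left p q)
    simp only [Set.mem_iUnion] at this
    obtain ⟨k, hk, -⟩ := this
    exact ⟨k, hk⟩
  obtain ⟨k₀, hk₀, hmin⟩ := t.exists_min_image ε htne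
  refine ⟨ε k₀ / 2, half_pos (hε _), ⋃ k ∈ t, {g : G | g • k = c}, ?_, ?_⟩
  · apply Set.Finite.biUnion t.finite_toSet
    intro k _
    apply Set.Subsingleton.finite
    intro g hg g' hg'
    have : (g'⁻¹ * g) • k = k := by
      rw [mul_smul, inv_smul_eq_iff]
      exact hg.trans hg'.symm
    have := h.free _ _ this
    rw [inv_mul_eq_one] at this
    exact this.symm
  · intro g z hz hzc
    have hz' : Btw p (g⁻¹ • z) q := by
      have := h.btw_smul g⁻¹ hz
      rwa [inv_smul_smul, inv_smul_smul] at this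
    have := hcov hz'
    simp only [Set.mem_iUnion, Metric.mem_ball] at this
    obtain ⟨k, hk, hk2⟩ := this
    have e : g • k = c := by
      apply hiso
      have h1 : dist z (g • k) < ε k / 2 := by
        rw [← h.dist_inv]
        exact hk2
      have h2 := hmin k hk
      have h3 := dist_triangle (g • k) z c
      rw [dist_comm (g • k) z] at h3
      linarith
    refine ⟨?_, ?_⟩
    · simp only [Set.mem_iUnion]
      exact ⟨k, hk, e⟩
    · rw [← e]
      exact h.btw_smul g (ht k hk)

/-- Near every point there are only finitely many directions. -/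
theorem dir_finite (c : X) : ∃ ε > 0, ∃ E : Set X, E.Finite ∧ ∀ v z : X, dist v c < ε → z ≠ v →
    ∃ e ∈ E, ∃ z', z' ≠ v ∧ Btw v z' z ∧ Btw v z' e := by
  obtain ⟨p⟩ := h.tree.nonempty
  choose! ε hε H hH hloc using fun (c : X) (i : Fin N) => h.loc_fin c p (a i • p)
  have := Fin.pos_iff_nonempty.1 h.N_pos
  obtain ⟨i₀, hi₀⟩ := Finite.exists_min fun i => ε c i
  refine ⟨ε c i₀, hε _ _, ⋃ i : Fin N, ⋃ g ∈ H c i, {g • p, g • a i • p}, ?_, ?_⟩
  · apply Set.finite_iUnion
    intro i
    apply Set.Finite.biUnion (hH c i)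
    intro g _
    exact Set.toFinite _
  · intro v z hv hz
    obtain ⟨i₁, hi₁⟩ := Finite.exists_min fun i => ε v i
    have hpos := dist_pos.2 hz.symm
    set t := min (dist v z) (min (ε v i₁) (ε c i₀ - dist v c)) / 2 with ht
    have ht0 : 0 < min (dist v z) (min (ε v i₁) (ε c i₀ - dist v c)) :=
      lt_min hpos (lt_min (hε _ _) (by linarith))
    have ht1 : t ≤ dist v z := by
      have := min_le_left (dist v z) (min (ε v i₁) (ε c i₀ - dist v c))
      linarith
    have ht2 : t < ε v i₁ := by
      have := (min_le_right (dist v z) (min (ε v i₁) (ε c i₀ - dist v c))).trans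
        (min_le_left _ _)
      linarith
    have ht3 : t < ε c i₀ - dist v c := by
      have := (min_le_right (dist v z) (min (ε v i₁) (ε c i₀ - dist v c))).trans
        (min_le_right _ _)
      linarith
    obtain ⟨z', hz', hd⟩ := h.tree.exists_point v z (t := t) (by linarith) ht1
    have hz'v : z' ≠ v := by
      rintro rfl
      rw [dist_self] at hd
      linarith
    obtain ⟨g, i, hgi⟩ := h.cover p z'
    have h1 := hloc v i g z' hgi (by
      rw [dist_comm]
      linarith [hi₁ i])
    have h2 := hloc c i g z' hgi (by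
      have := dist_triangle z' v c
      rw [dist_comm z' v] at this
      linarith [hi₀ i])
    have hmem : ∀ e, e = g • p ∨ e = g • a i • p →
        e ∈ ⋃ i : Fin N, ⋃ g ∈ H c i, ({g • p, g • a i • p} : Set X) := by
      intro e he
      simp only [Set.mem_iUnion]
      exact ⟨i, g, h2.1, by simpa using he⟩
    rcases h.tree.order h1.2 hgi with k | k
    · exact ⟨_, hmem _ (Or.inr rfl), z', hz'v, hz', hgi.trans' k⟩
    · exact ⟨_, hmem _ (Or.inl rfl), z', hz'v, hz', k.symm⟩

/-- A segment contains finitely many branch points. -/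
theorem finite_branch (x y : X) : {v | IsBranch v ∧ Btw x v y}.Finite := by
  choose ε hε E hE hdir using h.dir_finite
  obtain ⟨t, -, hcov⟩ := (h.tree.isCompact_seg x y).elim_nhds_subcover
    (fun k => Metric.ball k (ε k)) (fun k _ => Metric.ball_mem_nhds k (hε k))
  have hsub : {v | IsBranch v ∧ Btw x v y} ⊆
      ⋃ c ∈ t, ⋃ e ∈ E c, {m | Btw x m y ∧ Btw x m e ∧ Btw y m e} := by
    rintro v ⟨hv, hb⟩
    have := hcov hb
    simp only [Set.mem_iUnion, Metric.mem_ball] at this
    obtain ⟨c, hc, hvc⟩ := this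
    obtain ⟨z, hz, z1, z2⟩ := h.tree.branch_avoid hv x y
    obtain ⟨e, he, z', hz', k1, k2⟩ := hdir c v z hvc hz
    simp only [Set.mem_iUnion]
    refine ⟨c, hc, e, he, hb, ?_, ?_⟩
    · exact (h.tree.concat hz'.symm (z1.trans_right' k1) k2).1
    · exact (h.tree.concat hz'.symm (z2.trans_right' k1) k2).1
  refine Set.Finite.subset ?_ hsub
  apply Set.Finite.biUnion t.finite_toSet
  intro c _
  apply Set.Finite.biUnion (hE c)
  intro e _
  apply Set.Subsingleton.finite
  rintro m ⟨m1, m2, m3⟩ u ⟨u1, u2, u3⟩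
  exact h.tree.median_unique m1 m2 m3 u1 u2 u3

/-- Finitely many orbits of branch points. -/
theorem finite_orbits : ∃ R : Set X, R.Finite ∧ (∀ r ∈ R, IsBranch r) ∧
    ∀ v, IsBranch v → ∃ g : G, g • v ∈ R := by
  obtain ⟨p⟩ := h.tree.nonempty
  refine ⟨⋃ i : Fin N, {v | IsBranch v ∧ Btw p v (a i • p)},
    Set.finite_iUnion fun i => h.finite_branch _ _, ?_, ?_⟩
  · intro r hr
    simp only [Set.mem_iUnion] at hr
    obtain ⟨i, hr, -⟩ := hr
    exact hr
  · intro v hv
    obtain ⟨g, i, hgi⟩ := h.cover p v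
    refine ⟨g⁻¹, ?_⟩
    simp only [Set.mem_iUnion]
    refine ⟨i, h.branch_smul _ hv, ?_⟩
    have := h.btw_smul g⁻¹ hgi
    rwa [inv_smul_smul, inv_smul_smul] at this

theorem finite_nbr (v : X) : {w | IsEdge (v, w)}.Finite := by
  obtain ⟨ε, hε, E, hE, hdir⟩ := h.dir_finite v
  have hE' : ∀ w, IsEdge (v, w) → ∃ e ∈ E, ¬ Btw w v e := by
    intro w hw
    obtain ⟨e, he, z', hz', k1, k2⟩ := hdir v w (by rwa [dist_self]) hw.2.2.1.symm
    refine ⟨e, he, fun hb => hz' ?_⟩
    -- `z' ∈ [v,w] ∩ [v,e]` and `v ∈ [w,e]`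
    have h1 := k1.eq
    have h2 := k2.eq
    have h3 := hb.eq
    have h4 := dist_triangle w z' e
    rw [dist_comm w v] at h3
    rw [dist_comm w z'] at h4
    have h5 : dist v z' = 0 := by
      have := dist_nonneg (x := v) (y := z')
      linarith
    exact (dist_eq_zero.1 h5).symm
  choose! f hf1 hf2 using hE'
  refine Set.Finite.of_finite_image (f := f) (hE.subset ?_) ?_
  · rintro _ ⟨w, hw, rfl⟩
    exact hf1 w hw
  · intro w hw u hu he
    apply h.tree.nbr_unique hw hu
    apply h.tree.sep_trans (hf2 w hw)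
    rw [he]
    exact fun hb => hf2 u hu hb.symm

/-- Every direction at a branch point contains a neighbour. -/
theorem exists_nbr {v z : X} (hv : IsBranch v) (hz : z ≠ v) :
    ∃ w, IsEdge (v, w) ∧ ¬ Btw w v z := by
  obtain ⟨s, t, hst⟩ := h.hull v z
  have hs : ∃ s : X, IsBranch s ∧ Btw v z s := by
    rcases h.tree.key hst v with k | k
    · exact ⟨_, h.branch_smul s hv, k.symm⟩
    · exact ⟨_, h.branch_smul t hv, k⟩
  obtain ⟨s, hs, hb⟩ := hs
  have hsv : s ≠ v := by
    rintro rfl
    rw [btw_self_iff] at hb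
    exact hz hb
  obtain ⟨w, ⟨⟨hw1, hw2⟩, hw3⟩, hwmin⟩ := Set.exists_min_image
    ({w | IsBranch w ∧ Btw v w s} \ {v}) (fun w => dist v w)
    ((h.finite_branch v s).subset Set.sdiff_subset) ⟨s, ⟨hs, btw_right _ _⟩, hsv⟩
  have hwv : w ≠ v := hw3
  refine ⟨w, ⟨hv, hw1, hwv.symm, ?_⟩, ?_⟩
  · intro c hc hbc
    simp only at hbc ⊢
    by_cases hcv : c = v
    · exact Or.inl hcv
    · right
      have h1 := hwmin c ⟨⟨hc, hw2.trans hbc⟩, hcv⟩
      have h2 := hbc.eq
      have h3 : dist c w = 0 := by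
        have := dist_nonneg (x := c) (y := w)
        linarith
      exact dist_eq_zero.1 h3
  · intro hcon
    rcases h.tree.order hw2 hb with k | k
    · have := hcon.eq
      have h2 := k.eq
      have h3 : dist v w = 0 := by
        rw [dist_comm w v] at this
        have := dist_nonneg (x := v) (y := w)
        have := dist_nonneg (x := w) (y := z)
        linarith
      exact hwv (dist_eq_zero.1 h3).symm
    · have := hcon.eq
      have h2 := k.eq
      have h3 : dist v z = 0 := by
        rw [dist_comm w v] at this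
        have := dist_nonneg (x := v) (y := z)
        have := dist_nonneg (x := z) (y := w)
        rw [dist_comm w z] at *
        linarith
      exact hz (dist_eq_zero.1 h3).symm

/-- A branch point has three distinct neighbours. -/
theorem three_nbrs {v : X} (hv : IsBranch v) : ∃ f : Fin 3 → X, Function.Injective f ∧
    ∀ i, IsEdge (v, f i) := by
  obtain ⟨d₁, d₂, d₃, n₁, n₂, n₃, h12, h23, h13⟩ := id hv
  obtain ⟨w₁, e₁, s₁⟩ := h.exists_nbr hv n₁
  obtain ⟨w₂, e₂, s₂⟩ := h.exists_nbr hv n₂
  obtain ⟨w₃, e₃, s₃⟩ := h.exists_nbr hv n₃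
  have k12 : w₁ ≠ w₂ := by
    rintro rfl
    exact h.tree.sep_trans (fun hb => s₁ hb.symm) s₂ h12
  have k13 : w₁ ≠ w₃ := by
    rintro rfl
    exact h.tree.sep_trans (fun hb => s₁ hb.symm) s₃ h13
  have k23 : w₂ ≠ w₃ := by
    rintro rfl
    exact h.tree.sep_trans (fun hb => s₂ hb.symm) s₃ h23
  refine ⟨![w₁, w₂, w₃], ?_, ?_⟩
  · intro i j hij
    fin_cases i <;> fin_cases j <;> simp_all [Ne.symm k12, Ne.symm k13, Ne.symm k23]
  · intro i
    fin_cases i
    exacts [e₁, e₂, e₃]

/-- The last vertex before `y` on `[x, y]`. -/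
theorem exists_prev {x y : X} (hx : IsBranch x) (hy : IsBranch y) (hne : x ≠ y) :
    ∃ z, IsEdge (z, y) ∧ Btw x z y := by
  obtain ⟨w, hw, hs⟩ := h.exists_nbr hy hne
  refine ⟨w, hw.symm, ?_⟩
  obtain ⟨c, c1, c2, c3⟩ := h.tree.median y w x
  have hcy : c ≠ y := by
    rintro rfl
    exact hs c2
  by_cases hcw : c = w
  · rw [hcw] at c3
    exact c3.symm
  by_cases hcx : c = x
  · rw [hcx] at c1
    rcases hw.2.2.2 x hx c1 with k | k
    · exact absurd k hne
    · have k' : x = w := k
      rw [← k']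
      exact btw_left _ _
  · have hb : IsBranch c := ⟨y, w, x, hcy.symm, Ne.symm hcw, Ne.symm hcx, c1, c2, c3⟩
    rcases hw.2.2.2 c hb c1 with k | k
    · exact absurd k hcy
    · exact absurd k hcw

/-- Induction along segments. -/
theorem seg_ind {x : X} (hx : IsBranch x) {P : X → Prop} (h0 : P x)
    (hs : ∀ z y, IsEdge (z, y) → Btw x z y → P z → P y) : ∀ y, IsBranch y → P y := by
  have main : ∀ n : ℕ, ∀ y, IsBranch y → {v | IsBranch v ∧ Btw x v y}.ncard ≤ n → P y := by
    intro n
    induction n with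
    | zero =>
      intro y hy hn
      rw [Nat.le_zero, Set.ncard_eq_zero (h.finite_branch x y)] at hn
      have : y ∈ {v | IsBranch v ∧ Btw x v y} := ⟨hy, btw_right _ _⟩
      rw [hn] at this
      exact this.elim
    | succ n ih =>
      intro y hy hn
      by_cases hxy : x = y
      · rwa [← hxy]
      obtain ⟨z, hz, hb⟩ := h.exists_prev hx hy hxy
      apply hs z y hz hb
      apply ih z hz.1
      have hlt : {v | IsBranch v ∧ Btw x v z}.ncard < {v | IsBranch v ∧ Btw x v y}.ncard := by
        apply Set.ncard_lt_ncard _ (h.finite_branch x y)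
        refine ⟨fun v hv => ⟨hv.1, hb.trans hv.2⟩, fun hsub => ?_⟩
        have := (hsub (show y ∈ {v | IsBranch v ∧ Btw x v y} from ⟨hy, btw_right _ _⟩)).2
        have h1 := this.eq
        have h2 := hb.eq
        have h3 : dist z y = 0 := by
          rw [dist_comm y z] at h1
          have := dist_nonneg (x := z) (y := y)
          linarith
        exact hz.2.2.1 (dist_eq_zero.1 h3)
      omega
  exact fun y hy => main _ y hy le_rfl

omit [Group G] [MulAction G X] h in
/-- The median of three branch points is a branch point. -/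
theorem branch_median {x y z m : X} (hx : IsBranch x) (hy : IsBranch y) (hz : IsBranch z)
    (h1 : Btw x m y) (h2 : Btw y m z) (h3 : Btw x m z) : IsBranch m := by
  by_cases e1 : x = m
  · rwa [← e1]
  by_cases e2 : y = m
  · rwa [← e2]
  by_cases e3 : z = m
  · rwa [← e3]
  exact ⟨x, y, z, e1, e2, e3, h1, h2, h3⟩

/-- No inversions. -/
theorem no_inversion {x y : X} (hne : x ≠ y) (g : G) : ¬ (g • x = y ∧ g • y = x) := by
  rintro ⟨h1, h2⟩
  obtain ⟨m, hm, hd⟩ := h.tree.exists_point x y (t := dist x y / 2)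
    (by have := dist_nonneg (x := x) (y := y); linarith)
    (by have := dist_nonneg (x := x) (y := y); linarith)
  have h3 := h.btw_smul g hm
  rw [h1, h2] at h3
  have h4 : g • m = m := by
    apply h.tree.eq_of_dist h3 hm.symm
    rw [← h1, h.iso, h1, hd, dist_comm y m]
    have := hm.eq
    linarith
  have h5 := h.free g m h4
  rw [h5, one_smul] at h1
  exact hne h1

end DTA

end Pool.Agent.Lib.MP_f2f7de_al
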