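import Mathlib
import Pool.Agent.Lib.MP_f2f7de_al.Struct

set_option autoImplicit false

universe u u' v

/-! Sums over the edges of a segment; the number of edge orbits is at most `6 N`. -/

namespace Pool.Agent.Lib.MP_f2f7de_al

/-- oriented edges up to the group action -/
def eSetoid (G : Type v) (X : Type u) [Group G] [MetricSpace X] [MulAction G X] :
    Setoid {e : X × X // IsEdge e} where
  r e e' := ∃ g : G, g • e.1.1 = e'.1.1 ∧ g • e.1.2 = e'.1.2
  iseqv := by
    refine ⟨fun e => ⟨1, by simp⟩, ?_, ?_⟩
    · rintro e e' ⟨g, h1, h2⟩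
      exact ⟨g⁻¹, by simp [← h1, ← h2]⟩
    · rintro e e' e'' ⟨g, h1, h2⟩ ⟨g', h3, h4⟩
      exact ⟨g' * g, by simp [mul_smul, h1, h2, h3, h4]⟩

/-- branch points up to the group action -/
def vSetoid (G : Type v) (X : Type u) [Group G] [MetricSpace X] [MulAction G X] :
    Setoid {v : X // IsBranch v} where
  r e e' := ∃ g : G, g • e.1 = e'.1
  iseqv := by
    refine ⟨fun e => ⟨1, by simp⟩, ?_, ?_⟩
    · rintro e e' ⟨g, h1⟩
      exact ⟨g⁻¹, by simp [← h1]⟩
    · rintro e e' e'' ⟨g, h1⟩ ⟨g', h3⟩
      exact ⟨g' * g, by simp [mul_smul, h1, h3]⟩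

/-- `x, a, b, y` are aligned in this order. -/
def Ali {X : Type u} [MetricSpace X] (x a b y : X) : Prop :=
  dist x a + dist a b + dist b y = dist x y

section

variable {X : Type u} [MetricSpace X] {x a b y : X}

theorem Ali.btw₁ (h : Ali x a b y) : Btw x a b := by
  unfold Ali Btw at *
  have := dist_triangle x a b
  have := dist_triangle x b y
  linarith

theorem Ali.btw₂ (h : Ali x a b y) : Btw x b y := by
  unfold Ali Btw at *
  have := dist_triangle x a b
  have := dist_triangle x b y
  linarith

theorem Ali.symm (h : Ali x a b y) : Ali y b a x := by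
  unfold Ali at *
  rw [dist_comm y b, dist_comm b a, dist_comm a x, dist_comm y x]
  linarith

theorem Ali.btw₃ (h : Ali x a b y) : Btw x a y := h.btw₂.trans h.btw₁

theorem Ali.btw₄ (h : Ali x a b y) : Btw a b y := h.symm.btw₁.symm

theorem ali_of (h1 : Btw x a b) (h2 : Btw x b y) : Ali x a b y := by
  unfold Ali Btw at *
  linarith

theorem ali_of' (h1 : Btw x a y) (h2 : Btw a b y) : Ali x a b y := by
  unfold Ali Btw at *
  linarith

end

/-- the oriented edges on the oriented segment from `x` to `y` -/
def OS {X : Type u} [MetricSpace X] (x y : X) : Set {e : X × X // IsEdge e} :=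
  {e | Ali x e.1.1 e.1.2 y}

/-- sum over the edges on a segment -/
noncomputable def J {X : Type u} [MetricSpace X] (f : {e : X × X // IsEdge e} → ℝ) (x y : X) :
    ℝ := ∑ᶠ e ∈ OS x y, f e

/-- reversal -/
def rev {X : Type u} [MetricSpace X] (e : {e : X × X // IsEdge e}) :
    {e : X × X // IsEdge e} := ⟨(e.1.2, e.1.1), e.2.symm⟩

theorem rev_rev {X : Type u} [MetricSpace X] (e : {e : X × X // IsEdge e}) :
    rev (rev e) = e := rfl

/-- translation -/
def edgeSmul {G : Type v} {X : Type u} [Group G] [MetricSpace X] [MulAction G X] {N : ℕ}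
    {a : Fin N → G} (h : DTA X a) (g : G) (e : {e : X × X // IsEdge e}) :
    {e : X × X // IsEdge e} := ⟨(g • e.1.1, g • e.1.2), h.edge_smul g e.2⟩

namespace DTA

variable {G : Type v} {X : Type u} [Group G] [MetricSpace X] [MulAction G X] {N : ℕ}
  {a : Fin N → G} (h : DTA X a)
include h

theorem finite_OS (x y : X) : (OS x y).Finite := by
  have h1 := h.finite_branch x y
  refine Set.Finite.of_finite_image (f := Subtype.val) ((h1.prod h1).subset ?_)
    Subtype.val_injective.injOn
  rintro _ ⟨e, he, rfl⟩
  exact ⟨⟨e.2.1, he.btw₃⟩, ⟨e.2.2.1, he.btw₂⟩⟩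

theorem J_eq_sum (f : {e : X × X // IsEdge e} → ℝ) (x y : X) :
    J f x y = ∑ e ∈ (h.finite_OS x y).toFinset, f e :=
  finsum_mem_eq_finite_toFinset_sum _ _

omit [Group G] [MulAction G X] h in
theorem J_self (f : {e : X × X // IsEdge e} → ℝ) (x : X) : J f x x = 0 := by
  have : OS x x = ∅ := by
    rw [Set.eq_empty_iff_forall_notMem]
    intro e he
    have h1 : Ali x e.1.1 e.1.2 x := he
    unfold Ali at h1
    rw [dist_self] at h1
    have h2 := dist_pos.2 e.2.2.2.1
    have := dist_nonneg (x := x) (y := e.1.1)
    have := dist_nonneg (x := e.1.2) (y := x)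
    linarith
  unfold J
  rw [this, finsum_mem_empty]

omit [Group G] [MulAction G X] h in
theorem J_edge (f : {e : X × X // IsEdge e} → ℝ) {x y : X} (he : IsEdge (x, y)) :
    J f x y = f ⟨(x, y), he⟩ := by
  have : OS x y = {⟨(x, y), he⟩} := by
    ext e
    constructor
    · intro hm
      have hm' : Ali x e.1.1 e.1.2 y := hm
      have h1 := he.2.2.2 _ e.2.1 hm'.btw₃
      have h2 := he.2.2.2 _ e.2.2.1 hm'.btw₂
      simp only at h1 h2
      have h3 : e.1.1 ≠ e.1.2 := e.2.2.2.1
      rw [Set.mem_singleton_iff]
      apply Subtype.ext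
      rcases h1 with h1 | h1
      · rcases h2 with h2 | h2
        · exact absurd (h1.trans h2.symm) h3
        · exact Prod.ext h1 h2
      · exfalso
        unfold Ali at hm'
        rw [h1] at hm'
        have := dist_pos.2 h3
        rw [h1] at this
        have := dist_nonneg (x := e.1.2) (y := y)
        linarith
    · intro hm
      rw [Set.mem_singleton_iff] at hm
      rw [hm]
      change Ali x x y y
      simp [Ali]
  unfold J
  rw [this, finsum_mem_singleton]

theorem OS_split {x m y : X} (hm : IsBranch m) (hb : Btw x m y) :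
    OS x y = OS x m ∪ OS m y := by
  ext e
  constructor
  · intro he
    have he' : Ali x e.1.1 e.1.2 y := he
    have b := hb.eq
    rcases h.tree.order he'.btw₃ hb with k1 | k1
    · rcases h.tree.order he'.btw₂ hb with k2 | k2
      · left
        exact ali_of he'.btw₁ k2
      · -- `m` between the endpoints
        have k3 : Btw e.1.1 m e.1.2 := k2.trans' k1
        rcases e.2.2.2.2 m hm k3 with k | k
        · right
          change Ali m e.1.1 e.1.2 y
          rw [k]
          unfold Ali
          rw [dist_self]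
          have := he'.btw₄.eq
          linarith
        · left
          change Ali x e.1.1 e.1.2 m
          rw [k]
          unfold Ali
          rw [dist_self]
          have := he'.btw₁.eq
          linarith
    · right
      change Ali m e.1.1 e.1.2 y
      unfold Ali at *
      have := k1.eq
      linarith
  · rintro (he | he)
    · have he' : Ali x e.1.1 e.1.2 m := he
      exact ali_of he'.btw₁ (hb.trans he'.btw₂)
    · have he' : Ali m e.1.1 e.1.2 y := he
      exact ali_of' (hb.trans_right he'.btw₃) he'.btw₄

omit [Group G] [MulAction G X] h in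
theorem OS_disjoint {x m y : X} (hb : Btw x m y) : Disjoint (OS x m) (OS m y) := by
  rw [Set.disjoint_left]
  intro e he he2
  have e1 : Ali x e.1.1 e.1.2 m := he
  have e2 : Ali m e.1.1 e.1.2 y := he2
  unfold Ali at e1 e2
  have b := hb.eq
  have t1 := dist_triangle4 x e.1.1 e.1.2 y
  have t2 := dist_pos.2 e.2.2.2.1
  have := dist_nonneg (x := e.1.2) (y := m)
  have := dist_nonneg (x := m) (y := e.1.1)
  linarith

theorem J_split (f : {e : X × X // IsEdge e} → ℝ) {x m y : X} (hm : IsBranch m)
    (hb : Btw x m y) : J f x y = J f x m + J f m y := by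
  unfold J
  rw [h.OS_split hm hb, finsum_mem_union (OS_disjoint hb) (h.finite_OS _ _) (h.finite_OS _ _)]

theorem J_swap {f : {e : X × X // IsEdge e} → ℝ} (hf : ∀ e, f (rev e) = - f e) (x y : X) :
    J f y x = - J f x y := by
  unfold J
  rw [← finsum_mem_neg_distrib _ (h.finite_OS x y)]
  apply finsum_mem_eq_of_bijOn rev
  · refine ⟨?_, ?_, ?_⟩
    · intro e he
      exact Ali.symm he
    · intro e _ e' _ hee
      rw [← rev_rev e, hee, rev_rev]
    · intro e he
      exact ⟨rev e, Ali.symm he, rfl⟩
  · intro e _
    rw [hf, neg_neg]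

theorem J_smul {f : {e : X × X // IsEdge e} → ℝ} (hf : ∀ (g : G) e, f (edgeSmul h g e) = f e)
    (g : G) (x y : X) : J f (g • x) (g • y) = J f x y := by
  unfold J
  symm
  apply finsum_mem_eq_of_bijOn (edgeSmul h g)
  · refine ⟨?_, ?_, ?_⟩
    · intro e he
      change Ali (g • x) (g • e.1.1) (g • e.1.2) (g • y)
      unfold Ali
      rw [h.iso, h.iso, h.iso, h.iso]
      exact he
    · intro e _ e' _ hee
      have h1 := congrArg Subtype.val hee
      have h2 := congrArg Prod.fst h1
      have h3 := congrArg Prod.snd h1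
      exact Subtype.ext (Prod.ext (MulAction.injective g h2) (MulAction.injective g h3))
    · intro e he
      refine ⟨edgeSmul h g⁻¹ e, ?_, ?_⟩
      · change Ali x (g⁻¹ • e.1.1) (g⁻¹ • e.1.2) y
        have he' : Ali (g • x) e.1.1 e.1.2 (g • y) := he
        unfold Ali at he' ⊢
        have e1 : dist x (g⁻¹ • e.1.1) = dist (g • x) e.1.1 := by
          rw [← h.iso g, smul_inv_smul]
        have e2 : dist (g⁻¹ • e.1.2) y = dist e.1.2 (g • y) := by
          rw [← h.iso g, smul_inv_smul]
        rw [e1, e2, h.iso, ← h.iso g x y]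
        exact he'
      · apply Subtype.ext
        apply Prod.ext
        · exact smul_inv_smul g _
        · exact smul_inv_smul g _
  · intro e _
    rw [hf]

theorem J_cocycle {f : {e : X × X // IsEdge e} → ℝ} (hf : ∀ e, f (rev e) = - f e) {x y z : X}
    (hx : IsBranch x) (hy : IsBranch y) (hz : IsBranch z) :
    J f x z = J f x y + J f y z := by
  obtain ⟨m, m1, m2, m3⟩ := h.tree.median x y z
  have hm : IsBranch m := branch_median hx hy hz m1 m2 m3
  rw [h.J_split f hm m1, h.J_split f hm m2, h.J_split f hm m3, h.J_swap hf m y]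
  ring

theorem J_add (f f' : {e : X × X // IsEdge e} → ℝ) (x y : X) :
    J (f + f') x y = J f x y + J f' x y := by
  rw [h.J_eq_sum, h.J_eq_sum, h.J_eq_sum, ← Finset.sum_add_distrib]
  rfl

theorem J_const_smul (r : ℝ) (f : {e : X × X // IsEdge e} → ℝ) (x y : X) :
    J (r • f) x y = r * J f x y := by
  rw [h.J_eq_sum, h.J_eq_sum, Finset.mul_sum]
  rfl

/-- functions that are additive along segments are sums over edges -/
theorem eq_J {δ : X → X → ℝ} {x : X} (hx : IsBranch x) (hδ : ∀ m y, IsBranch m → IsBranch y →
    Btw x m y → δ x y = δ x m + δ m y) (y : X) (hy : IsBranch y) :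
    δ x y = J (fun e => δ e.1.1 e.1.2) x y := by
  refine h.seg_ind hx (P := fun y => δ x y = J (fun e => δ e.1.1 e.1.2) x y) ?_ ?_ y hy
  · rw [J_self]
    have := hδ x x hx hx (btw_left _ _)
    linarith
  · intro z y hz hb ih
    rw [h.J_split _ hz.1 hb, ← ih, J_edge _ hz, hδ z y hz.1 hz.2.1 hb]

theorem finite_W : Finite (Quotient (vSetoid G X)) := by
  obtain ⟨R, hR, hb, hcov⟩ := h.finite_orbits
  have := hR.to_subtype
  apply Finite.of_surjective (fun r : R => (Quotient.mk (vSetoid G X) ⟨r.1, hb r.1 r.2⟩))
  intro w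
  induction w using Quotient.inductionOn with
  | h v =>
    obtain ⟨g, hg⟩ := hcov v.1 v.2
    refine ⟨⟨g • v.1, hg⟩, ?_⟩
    apply Quotient.sound
    exact ⟨g⁻¹, by simp⟩

theorem finite_Q : Finite (Quotient (eSetoid G X)) := by
  obtain ⟨R, hR, hb, hcov⟩ := h.finite_orbits
  have hfin : {e : {e : X × X // IsEdge e} | e.1.1 ∈ R}.Finite := by
    have h1 : {e : X × X | IsEdge e ∧ e.1 ∈ R}.Finite := by
      have h2 : {e : X × X | IsEdge e ∧ e.1 ∈ R} ⊆
          ⋃ r ∈ R, (fun w => (r, w)) '' {w | IsEdge (r, w)} := by
        rintro ⟨r, w⟩ ⟨he, hr⟩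
        simp only [Set.mem_iUnion]
        exact ⟨r, hr, w, he, rfl⟩
      refine Set.Finite.subset ?_ h2
      apply Set.Finite.biUnion hR
      intro r _
      exact (h.finite_nbr r).image _
    refine Set.Finite.of_finite_image (f := Subtype.val) (h1.subset ?_)
      Subtype.val_injective.injOn
    rintro _ ⟨e, he, rfl⟩
    exact ⟨e.2, he⟩
  have := hfin.to_subtype
  apply Finite.of_surjective (fun e : {e : {e : X × X // IsEdge e} | e.1.1 ∈ R} =>
    (Quotient.mk (eSetoid G X) e.1))
  intro w
  induction w using Quotient.inductionOn with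
  | h e =>
    obtain ⟨g, hg⟩ := hcov e.1.1 e.2.1
    refine ⟨⟨edgeSmul h g e, hg⟩, ?_⟩
    apply Quotient.sound
    exact ⟨g⁻¹, inv_smul_smul g _, inv_smul_smul g _⟩

theorem mk_edgeSmul (g : G) (e : {e : X × X // IsEdge e}) :
    Quotient.mk (eSetoid G X) (edgeSmul h g e) = Quotient.mk (eSetoid G X) e := by
  apply Quotient.sound
  exact ⟨g⁻¹, inv_smul_smul g _, inv_smul_smul g _⟩

/-- three times the number of vertices is at most the number of oriented edges -/
theorem three_mul_le : 3 * Nat.card (Quotient (vSetoid G X)) ≤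
    Nat.card (Quotient (eSetoid G X)) := by
  have := h.finite_W
  have := h.finite_Q
  choose f hf1 hf2 using fun v : {v : X // IsBranch v} => h.three_nbrs v.2
  have hinj : Function.Injective (fun p : Quotient (vSetoid G X) × Fin 3 =>
      Quotient.mk (eSetoid G X) ⟨(p.1.out.1, f p.1.out p.2), hf2 _ _⟩) := by
    rintro ⟨w, i⟩ ⟨w', i'⟩ he
    obtain ⟨g, hg1, hg2⟩ := Quotient.exact he
    simp only at hg1 hg2
    have hw : w = w' := by
      rw [← Quotient.out_eq w, ← Quotient.out_eq w']
      apply Quotient.sound
      exact ⟨g, hg1⟩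
    subst hw
    have := h.free _ _ hg1
    rw [this, one_smul] at hg2
    rw [hf1 _ hg2]
  have h1 := Nat.card_le_card_of_injective _ hinj
  rw [Nat.card_prod, Nat.card_eq_fintype_card (α := Fin 3), Fintype.card_fin] at h1
  omega

/-- reversal on edge orbits -/
def revQ (G : Type v) (X : Type u) [Group G] [MetricSpace X] [MulAction G X] :
    Quotient (eSetoid G X) → Quotient (eSetoid G X) :=
  Quotient.map rev (by
    rintro e e' ⟨g, h1, h2⟩
    exact ⟨g, h2, h1⟩)

omit h in
theorem revQ_revQ (q : Quotient (eSetoid G X)) : revQ G X (revQ G X q) = q := by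
  induction q using Quotient.inductionOn with
  | h e => rfl

theorem revQ_ne (q : Quotient (eSetoid G X)) : revQ G X q ≠ q := by
  induction q using Quotient.inductionOn with
  | h e =>
    intro he
    obtain ⟨g, h1, h2⟩ := Quotient.exact he
    exact h.no_inversion e.2.2.2.1 g ⟨h2, h1⟩

/-- antisymmetric functions on edge orbits -/
def AS (G : Type v) (X : Type u) [Group G] [MetricSpace X] [MulAction G X] :
    Submodule ℝ (Quotient (eSetoid G X) → ℝ) where
  carrier := {c | ∀ q, c (revQ G X q) = - c q}
  zero_mem' := by intro q; simp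
  add_mem' := by
    intro c d hc hd q
    simp only [Pi.add_apply]
    rw [hc q, hd q]
    ring
  smul_mem' := by
    intro r c hc q
    simp only [Pi.smul_apply, smul_eq_mul]
    rw [hc q]
    ring

theorem exists_sign : ∃ σ : Quotient (eSetoid G X) → ℝ, (∀ q, σ (revQ G X q) = - σ q) ∧
    ∀ q, σ q ≠ 0 := by
  have := h.finite_Q
  let e := Finite.equivFin (Quotient (eSetoid G X))
  refine ⟨fun q => if e q < e (revQ G X q) then 1 else -1, ?_, ?_⟩
  · intro q
    simp only
    rw [revQ_revQ]
    have hne : e (revQ G X q) ≠ e q := fun he => h.revQ_ne q (e.injective he)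
    rcases lt_or_gt_of_ne hne with hlt | hlt
    · rw [if_pos hlt, if_neg (not_lt.2 hlt.le)]; ring
    · rw [if_neg (not_lt.2 hlt.le), if_pos hlt]
  · intro q
    simp only
    split_ifs <;> norm_num

theorem card_Q_le : Nat.card (Quotient (eSetoid G X)) ≤ 2 * Module.finrank ℝ (AS G X) := by
  have := h.finite_Q
  have := Fintype.ofFinite (Quotient (eSetoid G X))
  obtain ⟨σ, hσ1, hσ2⟩ := h.exists_sign
  let M : (Quotient (eSetoid G X) → ℝ) →ₗ[ℝ] (AS G X) × (AS G X) :=
    { toFun := fun c => (⟨fun q => c q - c (revQ G X q), by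
        intro q
        simp only
        rw [revQ_revQ]
        ring⟩, ⟨fun q => σ q * (c q + c (revQ G X q)), by
        intro q
        simp only
        rw [revQ_revQ, hσ1]
        ring⟩)
      map_add' := by
        intro c d
        apply Prod.ext
        · apply Subtype.ext
          funext q
          simp only [Pi.add_apply, Prod.fst_add, Submodule.coe_add]
          ring
        · apply Subtype.ext
          funext q
          simp only [Pi.add_apply, Prod.snd_add, Submodule.coe_add]
          ring
      map_smul' := by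
        intro r c
        apply Prod.ext
        · apply Subtype.ext
          funext q
          simp only [Pi.smul_apply, smul_eq_mul, RingHom.id_apply, Prod.smul_fst,
            Submodule.coe_smul]
          ring
        · apply Subtype.ext
          funext q
          simp only [Pi.smul_apply, smul_eq_mul, RingHom.id_apply, Prod.smul_snd,
            Submodule.coe_smul]
          ring }
  have hM : Function.Injective M := by
    rw [injective_iff_map_eq_zero]
    intro c hc
    funext q
    have h1 := congrArg (fun x : (AS G X) × (AS G X) => x.1.1 q) hc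
    have h2 := congrArg (fun x : (AS G X) × (AS G X) => x.2.1 q) hc
    have h1' : c q - c (revQ G X q) = 0 := h1
    have h2' : σ q * (c q + c (revQ G X q)) = 0 := h2
    have h3 := (mul_eq_zero.1 h2').resolve_left (hσ2 q)
    simp only [Pi.zero_apply]
    linarith
  have h1 := LinearMap.finrank_le_finrank_of_injective hM
  rw [Module.finrank_prod, Module.finrank_fintype_fun_eq_card, ← Nat.card_eq_fintype_card] at h1
  omega

theorem finrank_AS_le : Module.finrank ℝ (AS G X) ≤ N + Nat.card (Quotient (vSetoid G X)) := by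
  have := h.finite_W
  have := h.finite_Q
  have := Fintype.ofFinite (Quotient (eSetoid G X))
  have := Fintype.ofFinite (Quotient (vSetoid G X))
  obtain ⟨v₀, hv₀⟩ := h.exists_branch
  let F : (AS G X) → ({e : X × X // IsEdge e} → ℝ) := fun c e => c.1 (Quotient.mk _ e)
  let L : (AS G X) →ₗ[ℝ] (Fin N → ℝ) × (Quotient (vSetoid G X) → ℝ) :=
    { toFun := fun c => (fun i => J (F c) v₀ (a i • v₀), fun w => J (F c) v₀ w.out.1)
      map_add' := by
        intro c d
        have hF : F (c + d) = F c + F d := rfl
        apply Prod.ext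
        · funext i
          simp only [hF, h.J_add, Prod.fst_add, Pi.add_apply]
        · funext i
          simp only [hF, h.J_add, Prod.snd_add, Pi.add_apply]
      map_smul' := by
        intro r c
        have hF : F (r • c) = r • F c := rfl
        apply Prod.ext
        · funext i
          simp only [hF, h.J_const_smul, Prod.smul_fst, Pi.smul_apply, smul_eq_mul,
            RingHom.id_apply]
        · funext i
          simp only [hF, h.J_const_smul, Prod.smul_snd, Pi.smul_apply, smul_eq_mul,
            RingHom.id_apply] }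
  have hL : Function.Injective L := by
    rw [injective_iff_map_eq_zero]
    intro c hc
    have hrev : ∀ e, F c (rev e) = - F c e := fun e => c.2 (Quotient.mk _ e)
    have hinv : ∀ (g : G) e, F c (edgeSmul h g e) = F c e := by
      intro g e
      change c.1 _ = c.1 _
      rw [h.mk_edgeSmul]
    have h1 : ∀ i, J (F c) v₀ (a i • v₀) = 0 := fun i =>
      congrFun (congrArg Prod.fst hc) i
    have h2 : ∀ w : Quotient (vSetoid G X), J (F c) v₀ w.out.1 = 0 := fun w =>
      congrFun (congrArg Prod.snd hc) w
    have hχ : ∀ g : G, J (F c) v₀ (g • v₀) = 0 := by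
      intro g
      have hg : g ∈ Subgroup.closure (Set.range a) := h.gen ▸ Subgroup.mem_top g
      induction hg using Subgroup.closure_induction with
      | mem x hx =>
        obtain ⟨i, rfl⟩ := hx
        exact h1 i
      | one => rw [one_smul, J_self]
      | mul x y _ _ ihx ihy =>
        rw [h.J_cocycle hrev hv₀ (h.branch_smul x hv₀) (h.branch_smul _ hv₀), ihx, mul_smul,
          h.J_smul hinv, ihy, add_zero]
      | inv x _ ih =>
        have h3 := h.J_cocycle hrev (h.branch_smul x⁻¹ hv₀) hv₀ (h.branch_smul x⁻¹ hv₀)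
        have h4 := h.J_smul hinv x⁻¹ v₀ (x • v₀)
        rw [inv_smul_smul] at h4
        rw [J_self, h4, ih, zero_add] at h3
        exact h3.symm
    have hv : ∀ v, IsBranch v → J (F c) v₀ v = 0 := by
      intro v hv
      obtain ⟨g, hg⟩ := Quotient.exact (Quotient.out_eq (Quotient.mk (vSetoid G X) ⟨v, hv⟩))
      have h3 : J (F c) v₀ v = J (F c) v₀ (g • v₀) + J (F c) (g • v₀) v :=
        h.J_cocycle hrev hv₀ (h.branch_smul g hv₀) hv
      simp only at hg
      rw [hχ, zero_add, ← hg, h.J_smul hinv, h2] at h3
      rw [← hg]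
      exact h3
    apply Subtype.ext
    funext q
    induction q using Quotient.inductionOn with
    | h e =>
      change F c e = 0
      have h3 := J_edge (F c) e.2
      have h4 := h.J_cocycle hrev e.2.1 hv₀ e.2.2.1
      have h5 := h.J_swap hrev v₀ e.1.1
      rw [hv _ e.2.1] at h5
      rw [h5, hv _ e.2.2.1] at h4
      rw [h4] at h3
      have h6 : (⟨(e.1.1, e.1.2), e.2⟩ : {e : X × X // IsEdge e}) = e := rfl
      rw [h6] at h3
      linarith
  have h1 := LinearMap.finrank_le_finrank_of_injective hL
  rw [Module.finrank_prod, Module.finrank_fintype_fun_eq_card,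
    Module.finrank_fintype_fun_eq_card, ← Nat.card_eq_fintype_card, ← Nat.card_eq_fintype_card,
    Nat.card_eq_fintype_card (α := Fin N), Fintype.card_fin] at h1
  exact h1

/-- There are at most `6 N` orbits of oriented edges. -/
theorem card_Q_bound : Nat.card (Quotient (eSetoid G X)) ≤ 6 * N := by
  have h1 := h.three_mul_le
  have h2 := h.card_Q_le
  have h3 := h.finrank_AS_le
  omega

end DTA

end Pool.Agent.Lib.MP_f2f7de_al
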