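import Mathlib
import Pool.Agent.Lib.MP_f2f7de_al.Count

set_option autoImplicit false

universe u u' v

/-! Combinatorial types: the length functions of all the trees of a given combinatorial type
lie in a subspace of dimension at most `6 N`. -/

namespace Pool.Agent.Lib.MP_f2f7de_al

/-- a finite code of the combinatorial type of `X` -/
def HasCode {G : Type v} (X : Type u) [Group G] [MetricSpace X] [MulAction G X] (n : ℕ)
    (D : Finset (ℕ × ℕ × G)) (v : ℕ → X) : Prop :=
  (∀ i < n, IsBranch (v i)) ∧ (∀ x : X, IsBranch x → ∃ i < n, ∃ g : G, x = g • v i) ∧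
  (∀ i < n, ∀ j < n, ∀ g : G, v i = g • v j → i = j) ∧
  ∀ i < n, ∀ j < n, ∀ g : G, (i, j, g) ∈ D ↔ IsEdge (v i, g • v j)

/-- lift a function on edge orbits to edges -/
def lft {G : Type v} {X : Type u} [Group G] [MetricSpace X] [MulAction G X]
    (c : Quotient (eSetoid G X) → ℝ) (e : {e : X × X // IsEdge e}) : ℝ := c (Quotient.mk _ e)

namespace DTA

section one

variable {G : Type v} {X : Type u} [Group G] [MetricSpace X] [MulAction G X] {N : ℕ}
  {a : Fin N → G} (h : DTA X a)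
include h

theorem exists_code : ∃ (n : ℕ) (D : Finset (ℕ × ℕ × G)) (v : ℕ → X), HasCode X n D v := by
  classical
  have := h.finite_W
  obtain ⟨n, ⟨e⟩⟩ := Finite.exists_equiv_fin (Quotient (vSetoid G X))
  obtain ⟨v₀, hv₀⟩ := h.exists_branch
  let v : ℕ → X := fun i => if hi : i < n then (e.symm ⟨i, hi⟩).out.1 else v₀
  have hv : ∀ i (hi : i < n), v i = (e.symm ⟨i, hi⟩).out.1 := fun i hi => dif_pos hi
  have h1 : ∀ i < n, IsBranch (v i) := by
    intro i hi
    rw [hv i hi]
    exact (e.symm ⟨i, hi⟩).out.2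
  have h3 : ∀ i < n, ∀ j < n, ∀ g : G, v i = g • v j → i = j := by
    intro i hi j hj g hg
    rw [hv i hi, hv j hj] at hg
    have : e.symm ⟨j, hj⟩ = e.symm ⟨i, hi⟩ := by
      rw [← Quotient.out_eq (e.symm ⟨i, hi⟩), ← Quotient.out_eq (e.symm ⟨j, hj⟩)]
      apply Quotient.sound
      exact ⟨g, hg.symm⟩
    have := e.symm.injective this
    exact (Fin.mk.inj_iff.1 this).symm
  have hfin : {t : ℕ × ℕ × G | t.1 < n ∧ t.2.1 < n ∧ IsEdge (v t.1, t.2.2 • v t.2.1)}.Finite := by
    have hsub : {t : ℕ × ℕ × G | t.1 < n ∧ t.2.1 < n ∧ IsEdge (v t.1, t.2.2 • v t.2.1)} ⊆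
        ⋃ i ∈ Finset.range n, (fun jg => (i, jg)) ''
          {jg : ℕ × G | jg.1 < n ∧ IsEdge (v i, jg.2 • v jg.1)} := by
      rintro ⟨i, j, g⟩ ⟨hi, hj, he⟩
      simp only [Set.mem_iUnion, Finset.mem_range]
      exact ⟨i, hi, (j, g), ⟨hj, he⟩, rfl⟩
    refine Set.Finite.subset ?_ hsub
    apply Set.Finite.biUnion (Finset.finite_toSet _)
    intro i _
    apply Set.Finite.image
    refine Set.Finite.of_finite_image (f := fun jg : ℕ × G => jg.2 • v jg.1)
      ((h.finite_nbr (v i)).subset ?_) ?_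
    · rintro _ ⟨jg, ⟨-, he⟩, rfl⟩
      exact he
    · rintro ⟨j, g⟩ ⟨hj, -⟩ ⟨j', g'⟩ ⟨hj', -⟩ he
      simp only at he hj hj'
      have e1 : v j = (g⁻¹ * g') • v j' := by
        rw [mul_smul, ← he, inv_smul_smul]
      have e2 := h3 j hj j' hj' _ e1
      subst e2
      have e3 := h.free _ _ e1.symm
      rw [inv_mul_eq_one] at e3
      rw [e3]
  refine ⟨n, hfin.toFinset, v, h1, ?_, h3, ?_⟩
  · intro x hx
    refine ⟨e (Quotient.mk _ ⟨x, hx⟩), (e _).2, ?_⟩
    have e1 := hv (e (Quotient.mk (vSetoid G X) ⟨x, hx⟩)) (e _).2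
    simp only [Fin.eta, Equiv.symm_apply_apply] at e1
    obtain ⟨g, hg⟩ := Quotient.exact (Quotient.out_eq (Quotient.mk (vSetoid G X) ⟨x, hx⟩))
    refine ⟨g, ?_⟩
    rw [e1]
    exact hg.symm
  · intro i hi j hj g
    rw [Set.Finite.mem_toFinset]
    exact ⟨fun ht => ht.2.2, fun ht => ⟨hi, hj, ht⟩⟩

omit h in
theorem lft_add (c d : Quotient (eSetoid G X) → ℝ) : lft (c + d) = lft c + lft d := rfl

omit h in
theorem lft_smul (r : ℝ) (c : Quotient (eSetoid G X) → ℝ) : lft (r • c) = r • lft c := rfl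

/-- the linear map from weights of edge orbits to length functions -/
noncomputable def Ψ (v₀ : X) : (Quotient (eSetoid G X) → ℝ) →ₗ[ℝ] (G → ℝ) where
  toFun c := fun g => J (lft c) v₀ (g • g • v₀) - J (lft c) v₀ (g • v₀)
  map_add' := by
    intro c d
    funext g
    rw [lft_add, h.J_add, h.J_add, Pi.add_apply]
    ring
  map_smul' := by
    intro r c
    funext g
    rw [lft_smul, h.J_const_smul, h.J_const_smul, Pi.smul_apply, smul_eq_mul, RingHom.id_apply]
    ring

theorem finrank_range_Ψ (v₀ : X) : Module.Finite ℝ (LinearMap.range (h.Ψ v₀)) ∧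
    Module.finrank ℝ (LinearMap.range (h.Ψ v₀)) ≤ 6 * N := by
  have := h.finite_Q
  have := Fintype.ofFinite (Quotient (eSetoid G X))
  refine ⟨inferInstance, ?_⟩
  refine (LinearMap.finrank_range_le _).trans ?_
  rw [Module.finrank_fintype_fun_eq_card, ← Nat.card_eq_fintype_card]
  exact h.card_Q_bound

end one

section two

variable {G : Type v} {X : Type u} {X' : Type u'} [Group G] [MetricSpace X] [MulAction G X]
  [MetricSpace X'] [MulAction G X'] {N : ℕ} {a : Fin N → G} (h : DTA X a) (h' : DTA X' a)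
include h h'

theorem exists_transfer {n : ℕ} {D : Finset (ℕ × ℕ × G)} {v : ℕ → X} {v' : ℕ → X'}
    (hc : HasCode X n D v) (hc' : HasCode X' n D v') : ∃ φ : X → X',
    (∀ x, IsBranch x → IsBranch (φ x)) ∧ (∀ (g : G) x, IsBranch x → φ (g • x) = g • φ x) ∧
    (∀ x y, IsBranch x → IsBranch y → φ x = φ y → x = y) ∧
    (∀ x y, IsEdge (x, y) → IsEdge (φ x, φ y)) := by
  classical
  obtain ⟨c1, c2, c3, c4⟩ := hc
  obtain ⟨c1', c2', c3', c4'⟩ := hc'
  choose! idx hidx gr hgr using c2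
  have spec : ∀ i < n, ∀ g : G, (fun x => gr x • v' (idx x)) (g • v i) = g • v' i := by
    intro i hi g
    simp only
    have hb := h.branch_smul g (c1 i hi)
    have e1 := hgr _ hb
    have e2 : v (idx (g • v i)) = ((gr (g • v i))⁻¹ * g) • v i := by
      rw [mul_smul, eq_inv_smul_iff]
      exact e1.symm
    have e3 := c3 _ (hidx _ hb) i hi _ e2
    rw [e3] at e2 ⊢
    have e4 := h.free _ _ e2.symm
    rw [inv_mul_eq_one] at e4
    rw [e4]
  generalize hφ : (fun x => gr x • v' (idx x)) = φ at spec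
  have cov : ∀ x, IsBranch x → ∃ i, i < n ∧ ∃ g : G, x = g • v i := fun x hx =>
    ⟨idx x, hidx x hx, gr x, hgr x hx⟩
  refine ⟨φ, ?_, ?_, ?_, ?_⟩
  · intro x hx
    obtain ⟨i, hi, g, rfl⟩ := cov x hx
    rw [spec i hi]
    exact h'.branch_smul g (c1' i hi)
  · intro k x hx
    obtain ⟨i, hi, g, rfl⟩ := cov x hx
    rw [spec i hi, smul_smul, spec i hi, smul_smul]
  · intro x y hx hy he
    obtain ⟨i, hi, g, rfl⟩ := cov x hx
    obtain ⟨j, hj, k, rfl⟩ := cov y hy
    rw [spec i hi, spec j hj] at he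
    have e2 : v' i = (g⁻¹ * k) • v' j := by
      rw [mul_smul, eq_inv_smul_iff]
      exact he
    have e3 := c3' i hi j hj _ e2
    subst e3
    have e4 := h'.free _ _ e2.symm
    rw [inv_mul_eq_one] at e4
    rw [e4]
  · intro x y hxy
    obtain ⟨i, hi, g, rfl⟩ := cov x hxy.1
    obtain ⟨j, hj, k, rfl⟩ := cov y hxy.2.1
    rw [spec i hi, spec j hj]
    have e1 : IsEdge (v i, (g⁻¹ * k) • v j) := by
      have := h.edge_smul g⁻¹ hxy
      rwa [inv_smul_smul, smul_smul] at this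
    have e2 := (c4' i hi j hj _).1 ((c4 i hi j hj _).2 e1)
    have e3 := h'.edge_smul g e2
    rwa [smul_smul, mul_inv_cancel_left] at e3

theorem transfer_btw {φ : X → X'} (f3 : ∀ x y, IsBranch x → IsBranch y → φ x = φ y → x = y)
    (f4 : ∀ x y, IsEdge (x, y) → IsEdge (φ x, φ y)) {x : X} (hx : IsBranch x) :
    ∀ y, IsBranch y → ∀ m, IsBranch m → Btw x m y → Btw (φ x) (φ m) (φ y) := by
  refine h.seg_ind hx (P := fun y => ∀ m, IsBranch m → Btw x m y → Btw (φ x) (φ m) (φ y))
    ?_ ?_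
  · intro m _ hb
    rw [btw_self_iff] at hb
    rw [hb]
    exact btw_left _ _
  · intro z y hz hb ih m hm hmb
    have hxzy : Btw (φ x) (φ z) (φ y) := by
      by_cases hxz : x = z
      · rw [hxz]
        exact btw_left _ _
      obtain ⟨t, ht, htb⟩ := h.exists_prev hx hz.1 hxz
      have k1 : Btw t z y := hb.trans' htb
      have hty : t ≠ y := by
        rintro rfl
        rw [btw_self_iff] at k1
        exact hz.2.2.1 k1
      have k2 : Btw (φ t) (φ z) (φ y) := by
        by_contra hcon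
        have := h'.tree.nbr_unique (f4 _ _ ht.symm) (f4 _ _ hz) hcon
        exact hty (f3 _ _ ht.1 hz.2.1 this)
      have k3 := ih t ht.1 htb
      have k4 : φ t ≠ φ z := fun e => ht.2.2.1 (f3 _ _ ht.1 hz.1 e)
      exact (h'.tree.concat k4 k3 k2).2
    rcases h.tree.order hmb hb with k | k
    · exact hxzy.trans (ih m hm k)
    · have k1 : Btw z m y := hmb.trans' k
      rcases hz.2.2.2 m hm k1 with e | e
      · have e' : m = z := e
        rw [e']
        exact hxzy
      · have e' : m = y := e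
        rw [e']
        exact btw_right _ _

theorem tl_mem_range {n : ℕ} {D : Finset (ℕ × ℕ × G)} {v : ℕ → X} {v' : ℕ → X'}
    (hc : HasCode X n D v) (hc' : HasCode X' n D v') {v₀ : X} (hv₀ : IsBranch v₀) :
    tl (G := G) X' ∈ LinearMap.range (h.Ψ v₀) := by
  obtain ⟨φ, f1, f2, f3, f4⟩ := h.exists_transfer h' hc hc'
  have f5 := h.transfer_btw h' f3 f4 hv₀
  let c : Quotient (eSetoid G X) → ℝ := Quotient.lift
    (fun e => dist (φ e.1.1) (φ e.1.2)) (by
      rintro e e' ⟨g, h1, h2⟩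
      rw [← h1, ← h2, f2 _ _ e.2.1, f2 _ _ e.2.2.1, h'.iso])
  have hL : ∀ g : G, dist (φ v₀) (g • φ v₀) = J (lft c) v₀ (g • v₀) := by
    intro g
    have h1 := h.eq_J (δ := fun x y => dist (φ x) (φ y)) hv₀
      (fun m y hm hy hb => (f5 y hy m hm hb).eq.symm) (g • v₀) (h.branch_smul g hv₀)
    rw [f2 g v₀ hv₀] at h1
    exact h1
  refine ⟨c, ?_⟩
  funext g
  rw [h'.tl_eq_sub (φ v₀), smul_smul, hL, hL, ← smul_smul]
  rfl

end two

end DTA

/-- For every code there is a subspace of dimension at most `6 N` containing the translation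
length functions of all the trees with that code. -/
theorem exists_subspace {G : Type v} [Group G] {N : ℕ} (a : Fin N → G) (n : ℕ)
    (D : Finset (ℕ × ℕ × G)) : ∃ W : Submodule ℝ (G → ℝ), Module.Finite ℝ W ∧
      Module.finrank ℝ W ≤ 6 * N ∧
      ∀ (X : Type u) [MetricSpace X] [MulAction G X], DTA X a → ∀ v : ℕ → X,
        HasCode X n D v → tl (G := G) X ∈ W := by
  by_cases hex : ∃ (X : Type u) (_ : MetricSpace X) (_ : MulAction G X) (_ : DTA X a)
      (v : ℕ → X), HasCode X n D v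
  · obtain ⟨X, _, _, h, v, hc⟩ := hex
    obtain ⟨v₀, hv₀⟩ := h.exists_branch
    refine ⟨LinearMap.range (h.Ψ v₀), (h.finrank_range_Ψ v₀).1, (h.finrank_range_Ψ v₀).2, ?_⟩
    intro X' _ _ h' v' hc'
    exact h.tl_mem_range h' hc hc' hv₀
  · refine ⟨⊥, inferInstance, by simp, ?_⟩
    intro X _ _ h v hc
    exact (hex ⟨X, _, _, h, v, hc⟩).elim

end Pool.Agent.Lib.MP_f2f7de_al
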