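import Mathlib
import Pool.Agent.Lib.MP_f2f7de_al.Bdry

set_option autoImplicit false

/-! Counting currents and their weighted sums. -/

namespace Pool.Agent.Lib.MP_f2f7de_al

open MeasureTheory

variable {N : ℕ}

instance : T2Space (Bdry N) :=
  T2Space.of_injective_continuous (f := Bdry.letter) (fun _ _ h => Bdry.ext h)
    continuous_induced_dom

instance : T2Space (DBdry N) :=
  T2Space.of_injective_continuous (f := fun p : DBdry N => (p.fst, p.snd))
    (fun _ _ h => DBdry.ext (congrArg Prod.fst h) (congrArg Prod.snd h)) continuous_induced_dom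

instance : BorelSpace (DBdry N) := ⟨rfl⟩

theorem continuous_letter (i : ℕ) : Continuous fun ξ : Bdry N => ξ.letter i :=
  (continuous_apply i).comp continuous_induced_dom

theorem continuous_pair : Continuous fun p : DBdry N => (p.fst, p.snd) :=
  continuous_induced_dom

theorem continuous_fst : Continuous fun p : DBdry N => p.fst :=
  _root_.continuous_fst.comp continuous_pair

theorem continuous_snd : Continuous fun p : DBdry N => p.snd :=
  _root_.continuous_snd.comp continuous_pair

instance : Countable (FreeGroup (Fin N)) := FreeGroup.toWord_injective.countable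

instance : MulAction (FreeGroup (Fin N)) (DBdry N) where
  smul := DBdry.act
  one_smul p := DBdry.ext (one_smul _ p.fst) (one_smul _ p.snd)
  mul_smul g k p := DBdry.ext (mul_smul g k p.fst) (mul_smul g k p.snd)

theorem act_eq_smul (g : FreeGroup (Fin N)) (p : DBdry N) : DBdry.act g p = g • p := rfl

theorem flip_smul (g : FreeGroup (Fin N)) (p : DBdry N) :
    DBdry.flip (g • p) = g • DBdry.flip p := rfl

theorem flip_flip (p : DBdry N) : DBdry.flip (DBdry.flip p) = p := rfl

/-- pairs that differ before index `m` -/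
def Am (N m : ℕ) : Set (DBdry N) := {p | ∃ i < m, p.fst.letter i ≠ p.snd.letter i}

theorem exists_subset_Am {K : Set (DBdry N)} (hK : IsCompact K) : ∃ m, K ⊆ Am N m := by
  have hopen : ∀ m, IsOpen (Am N m) := by
    intro m
    have : Am N m = ⋃ i ∈ Finset.range m, {p | p.fst.letter i ≠ p.snd.letter i} := by
      ext p
      simp [Am]
    rw [this]
    apply isOpen_biUnion
    intro i _
    exact isOpen_ne_fun ((continuous_letter i).comp continuous_fst)
      ((continuous_letter i).comp continuous_snd)
  have hcov : K ⊆ ⋃ m, Am N m := by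
    intro p _
    rw [Set.mem_iUnion]
    by_contra hcon
    push Not at hcon
    apply p.ne
    apply Bdry.ext
    funext i
    by_contra hi
    exact hcon (i + 1) ⟨i, Nat.lt_succ_self i, hi⟩
  have hdir : Directed (· ⊆ ·) (Am N) := by
    intro m n
    refine ⟨max m n, ?_, ?_⟩
    · rintro p ⟨i, hi, h⟩
      exact ⟨i, lt_of_lt_of_le hi (le_max_left _ _), h⟩
    · rintro p ⟨i, hi, h⟩
      exact ⟨i, lt_of_lt_of_le hi (le_max_right _ _), h⟩
  exact hK.elim_directed_cover _ hopen hcov hdir

namespace CR

/-- cosets of the cyclic group generated by `c` -/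
abbrev Cos (c : CR N) : Type := FreeGroup (Fin N) ⧸ Subgroup.zpowers (FreeGroup.mk c.1)

instance (c : CR N) : Countable c.Cos := Quotient.countable

/-- translates of the axis of `c` -/
noncomputable def orb (c : CR N) (q : c.Cos) : DBdry N := q.out • c.pair

theorem stab (c : CR N) {z : FreeGroup (Fin N)} (hz : z ∈ Subgroup.zpowers (FreeGroup.mk c.1)) :
    z • c.pair = c.pair := by
  have h : Subgroup.zpowers (FreeGroup.mk c.1) ≤ MulAction.stabilizer (FreeGroup (Fin N)) c.pair :=
    Subgroup.zpowers_le.2 c.act_pair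
  exact h hz

theorem orb_mk (c : CR N) (g : FreeGroup (Fin N)) : c.orb (QuotientGroup.mk g) = g • c.pair := by
  unfold orb
  obtain ⟨z, hz⟩ := QuotientGroup.mk_out_eq_mul (Subgroup.zpowers (FreeGroup.mk c.1)) g
  rw [hz, mul_smul, c.stab z.2]

theorem orb_smul (c : CR N) (g : FreeGroup (Fin N)) (q : c.Cos) : c.orb (g • q) = g • c.orb q := by
  induction q using QuotientGroup.induction_on with
  | H x =>
    rw [orb_mk]
    change c.orb (QuotientGroup.mk (g * x)) = _
    rw [orb_mk, mul_smul]

/-- The counting current of `c`. -/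
noncomputable def eta (c : CR N) : Measure (DBdry N) :=
  Measure.sum fun q : c.Cos => Measure.dirac (c.orb q) + Measure.dirac (DBdry.flip (c.orb q))

theorem eta_apply (c : CR N) (A : Set (DBdry N)) :
    c.eta A = ∑' q : c.Cos, (A.indicator 1 (c.orb q) + A.indicator 1 (DBdry.flip (c.orb q))) := by
  unfold eta
  rw [Measure.sum_apply_of_countable]
  apply tsum_congr
  intro q
  rw [Measure.add_apply, Measure.dirac_apply, Measure.dirac_apply]

theorem eta_act (c : CR N) (g : FreeGroup (Fin N)) (A : Set (DBdry N)) :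
    c.eta (DBdry.act g ⁻¹' A) = c.eta A := by
  symm
  rw [eta_apply, eta_apply, ← (MulAction.toPerm g : Equiv.Perm c.Cos).tsum_eq]
  apply tsum_congr
  intro q
  rw [MulAction.toPerm_apply, orb_smul]
  rfl

theorem eta_flip (c : CR N) (A : Set (DBdry N)) : c.eta (DBdry.flip ⁻¹' A) = c.eta A := by
  rw [eta_apply, eta_apply]
  apply tsum_congr
  intro q
  rw [add_comm]
  rfl

theorem one_le_eta (c : CR N) : 1 ≤ c.eta Set.univ := by
  rw [eta_apply]
  refine le_trans ?_ (ENNReal.le_tsum (QuotientGroup.mk 1))
  simp

/-- the ball of radius `m` -/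
theorem finite_ball (N m : ℕ) : {w : FreeGroup (Fin N) | w.norm < m}.Finite := by
  have h := List.finite_length_lt (Fin N × Bool) m
  exact h.preimage FreeGroup.toWord_injective.injOn

theorem mem_of_orb_mem (c : CR N) {m : ℕ} {q : c.Cos} (hq : c.orb q ∈ Am N m) :
    ∃ w : FreeGroup (Fin N), w.norm < m ∧ ∃ (r : Fin c.1.length) (b : Bool),
      q = QuotientGroup.mk (w * (pre (if b then c.per else c.inv.per) r)⁻¹) := by
  obtain ⟨i, hi, hne⟩ := hq
  obtain ⟨k, hk⟩ := exists_close c.per_ne q.out hne
  have hpos := c.len_pos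
  rcases hk with hk | hk
  · refine ⟨q.out * pre c.per k, by omega, ⟨k % c.1.length, Nat.mod_lt _ hpos⟩, true, ?_⟩
    have e : pre c.per k = FreeGroup.mk c.1 ^ (k / c.1.length) * pre c.per (k % c.1.length) := by
      rw [pow_mul_pre]
      congr 1
      exact (Nat.mod_add_div' k c.1.length).symm
    rw [if_pos rfl]
    simp only
    rw [e, ← mul_assoc, mul_inv_cancel_right, QuotientGroup.mk_mul_of_mem _
      (Subgroup.npow_mem_zpowers _ _), QuotientGroup.out_eq']
  · refine ⟨q.out * pre c.inv.per k, by omega, ⟨k % c.1.length, Nat.mod_lt _ hpos⟩, false, ?_⟩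
    have e : pre c.inv.per k =
        (FreeGroup.mk c.1)⁻¹ ^ (k / c.1.length) * pre c.inv.per (k % c.1.length) := by
      rw [← mk_inv, pow_mul_pre, inv_length]
      congr 1
      exact (Nat.mod_add_div' k c.1.length).symm
    rw [if_neg (by simp)]
    simp only
    rw [e, ← mul_assoc, mul_inv_cancel_right, QuotientGroup.mk_mul_of_mem _ (by
      rw [inv_pow]
      exact inv_mem (Subgroup.npow_mem_zpowers _ _)), QuotientGroup.out_eq']

theorem eta_Am_le (c : CR N) (m : ℕ) : c.eta (Am N m) ≤
    ((4 * {w : FreeGroup (Fin N) | w.norm < m}.ncard * c.1.length : ℕ) : ENNReal) := by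
  classical
  set B := (finite_ball N m).toFinset with hB
  set S : Set c.Cos := {q | c.orb q ∈ Am N m} with hS
  let T : Finset c.Cos := (B ×ˢ (Finset.univ : Finset (Fin c.1.length × Bool))).image
    fun x => QuotientGroup.mk (x.1 * (pre (if x.2.2 then c.per else c.inv.per) x.2.1)⁻¹)
  have hST : S ⊆ T := by
    intro q hq
    obtain ⟨w, hw, r, b, hqe⟩ := c.mem_of_orb_mem hq
    simp only [T, Finset.coe_image, Set.mem_image, Finset.mem_coe, Finset.mem_product,
      Finset.mem_univ, and_true]
    exact ⟨(w, r, b), by rw [hB, Set.Finite.mem_toFinset]; exact hw, hqe.symm⟩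
  have hcard : T.card ≤ 2 * {w : FreeGroup (Fin N) | w.norm < m}.ncard * c.1.length := by
    refine Finset.card_image_le.trans ?_
    rw [Finset.card_product, Finset.card_univ, Fintype.card_prod, Fintype.card_fin,
      Fintype.card_bool, hB, ← Set.ncard_eq_toFinset_card _ (finite_ball N m)]
    apply le_of_eq
    ring
  have hval : ∀ q : c.Cos, ((Am N m).indicator 1 (c.orb q) : ENNReal) +
      (Am N m).indicator 1 (DBdry.flip (c.orb q)) ≤ (T : Set c.Cos).indicator 2 q := by
    intro q
    have hflip : DBdry.flip (c.orb q) ∈ Am N m ↔ c.orb q ∈ Am N m := by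
      constructor
      · rintro ⟨i, hi, h⟩
        exact ⟨i, hi, h.symm⟩
      · rintro ⟨i, hi, h⟩
        exact ⟨i, hi, h.symm⟩
    by_cases hq : c.orb q ∈ Am N m
    · rw [Set.indicator_of_mem hq, Set.indicator_of_mem (hflip.2 hq),
        Set.indicator_of_mem (hST hq)]
      simp only [Pi.ofNat_apply]
      exact le_of_eq one_add_one_eq_two
    · rw [Set.indicator_of_notMem hq, Set.indicator_of_notMem (fun h => hq (hflip.1 h))]
      simp
  rw [eta_apply]
  refine (ENNReal.tsum_le_tsum hval).trans ?_
  rw [tsum_eq_sum (s := T) (fun q hq => Set.indicator_of_notMem (by exact_mod_cast hq) _)]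
  rw [Finset.sum_congr rfl (fun q hq => Set.indicator_of_mem (by exact_mod_cast hq) _)]
  simp only [Pi.ofNat_apply, Finset.sum_const, nsmul_eq_mul]
  have h1 : ((T.card : ENNReal)) * 2 = ((T.card * 2 : ℕ) : ENNReal) := by push_cast; rfl
  rw [h1]
  apply Nat.cast_le.2
  have : 4 * {w : FreeGroup (Fin N) | w.norm < m}.ncard * c.1.length =
      2 * {w : FreeGroup (Fin N) | w.norm < m}.ncard * c.1.length * 2 := by ring
  omega

end CR

/-- the weights -/
noncomputable def wt (e : ℕ → CR N) (t : ℝ) (n : ℕ) : ENNReal :=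
  ENNReal.ofReal (t ^ n / (e n).1.length)

/-- The weighted sum of counting currents `∑ t^n / |c_n| η_{c_n}`. -/
noncomputable def muMeas (e : ℕ → CR N) (t : ℝ) : Measure (DBdry N) :=
  Measure.sum fun n => wt e t n • (e n).eta

theorem muMeas_apply (e : ℕ → CR N) (t : ℝ) (A : Set (DBdry N)) :
    muMeas e t A = ∑' n, wt e t n * (e n).eta A := by
  unfold muMeas
  rw [Measure.sum_apply_of_countable]
  rfl

/-- The weighted sum of counting currents as a current. -/
noncomputable def muCurr (e : ℕ → CR N) (t : ℝ) (ht : t ∈ Set.Ioo (0 : ℝ) 1) : Curr N where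
  meas := muMeas e t
  ne_zero := by
    intro h
    have h1 : muMeas e t Set.univ = 0 := by rw [h]; rfl
    rw [muMeas_apply, ENNReal.tsum_eq_zero] at h1
    have h2 := h1 0
    rw [mul_eq_zero] at h2
    rcases h2 with h2 | h2
    · unfold wt at h2
      rw [ENNReal.ofReal_eq_zero] at h2
      have := (e 0).len_pos
      have h3 : (0 : ℝ) < t ^ 0 / (e 0).1.length := by positivity
      linarith
    · have := (e 0).one_le_eta
      rw [h2] at this
      exact absurd this (by simp)
  radon := by
    intro K hK
    obtain ⟨m, hm⟩ := exists_subset_Am hK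
    refine lt_of_le_of_lt (measure_mono hm) ?_
    rw [muMeas_apply]
    set B := {w : FreeGroup (Fin N) | w.norm < m}.ncard with hB
    have h1 : ∀ n, wt e t n * (e n).eta (Am N m) ≤ ENNReal.ofReal (4 * B * t ^ n) := by
      intro n
      refine (mul_le_mul_right ((e n).eta_Am_le m) _).trans ?_
      unfold wt
      rw [← ENNReal.ofReal_natCast, ← ENNReal.ofReal_mul (by
        have := ht.1
        positivity)]
      apply ENNReal.ofReal_le_ofReal
      have := (e n).len_pos
      rw [div_mul_eq_mul_div, div_le_iff₀ (by positivity)]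
      push_cast
      rw [← hB]
      apply le_of_eq
      ring
    refine lt_of_le_of_lt (ENNReal.tsum_le_tsum h1) ?_
    rw [← ENNReal.ofReal_tsum_of_nonneg]
    · exact ENNReal.ofReal_lt_top
    · intro n
      have := ht.1
      positivity
    · exact (summable_geometric_of_lt_one ht.1.le ht.2).mul_left _
  invariant := by
    intro g A _
    rw [muMeas_apply, muMeas_apply]
    apply tsum_congr
    intro n
    rw [CR.eta_act]
  flip := by
    intro A _
    rw [muMeas_apply, muMeas_apply]
    apply tsum_congr
    intro n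
    rw [CR.eta_flip]

end Pool.Agent.Lib.MP_f2f7de_al
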