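import Mathlib
import Pool.Agent.Lib.MP_f2f7de_al.Class
import Pool.Agent.Lib.MP_f2f7de_al.Count2

set_option autoImplicit false

universe u

/-! The intersection number with a weighted sum of counting currents. -/

namespace Pool.Agent.Lib.MP_f2f7de_al

variable {N : ℕ}

theorem OuterPoint.dta (T : OuterPoint.{u} N) (hN : 2 ≤ N) :
    DTA T.carrier (fun i : Fin N => FreeGroup.of i) where
  tree := T.tree
  iso := T.isometric
  free := T.free
  discrete := T.discrete
  minimal := T.minimal
  gen := FreeGroup.closure_range_of _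
  noncomm := by
    refine ⟨FreeGroup.of ⟨0, by omega⟩, FreeGroup.of ⟨1, by omega⟩, ?_⟩
    intro h
    have h1 := congrArg FreeGroup.toWord h
    simp [FreeGroup.toWord_mul] at h1

theorem mem_cyl_of {T : OuterPoint.{u} N} {g : FreeGroup (Fin N)} {p : DBdry N}
    {a b : T.carrier} (hp : p ∈ cyl T (g⁻¹ • a) (g⁻¹ • b)) : g • p ∈ cyl T a b := by
  intro o
  obtain ⟨M, hM⟩ := hp o
  obtain ⟨s, t, h1⟩ := pre_smul g p.fst
  obtain ⟨s', t', h2⟩ := pre_smul g p.snd
  refine ⟨M + s + s', fun m hm n hn => ?_⟩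
  have e1 : pre (g • p).fst m = g * pre p.fst (m - s + t) := by
    have := h1 (m - s)
    rwa [Nat.sub_add_cancel (by omega)] at this
  have e2 : pre (g • p).snd n = g * pre p.snd (n - s' + t') := by
    have := h2 (n - s')
    rwa [Nat.sub_add_cancel (by omega)] at this
  have h3 := hM (m - s + t) (by omega) (n - s' + t') (by omega)
  rw [e1, e2, mul_smul, mul_smul, T.isometric]
  have e3 : dist (g • pre p.fst (m - s + t) • o) a =
      dist (pre p.fst (m - s + t) • o) (g⁻¹ • a) := by
    rw [← T.isometric g _ (g⁻¹ • a), smul_inv_smul]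
  have e4 : dist b (g • pre p.snd (n - s' + t') • o) =
      dist (g⁻¹ • b) (pre p.snd (n - s' + t') • o) := by
    rw [← T.isometric g (g⁻¹ • b), smul_inv_smul]
  rw [e3, e4, ← h3, T.isometric]

theorem smul_mem_cyl {T : OuterPoint.{u} N} {g : FreeGroup (Fin N)} {p : DBdry N}
    {a b : T.carrier} : g • p ∈ cyl T a b ↔ p ∈ cyl T (g⁻¹ • a) (g⁻¹ • b) := by
  constructor
  · intro h
    have h1 := mem_cyl_of (g := g⁻¹) (p := g • p) (a := g⁻¹ • a) (b := g⁻¹ • b) (by
      rw [inv_inv, smul_inv_smul, smul_inv_smul]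
      exact h)
    rwa [inv_smul_smul] at h1
  · exact mem_cyl_of

theorem flip_mem_cyl {T : OuterPoint.{u} N} {p : DBdry N} {a b : T.carrier} :
    DBdry.flip p ∈ cyl T a b ↔ p ∈ cyl T b a := by
  constructor
  · intro h o
    obtain ⟨M, hM⟩ := h o
    refine ⟨M, fun m hm n hn => ?_⟩
    have h1 := hM n hn m hm
    exact Ali.symm (show Ali (pre p.snd n • o) a b (pre p.fst m • o) from h1)
  · intro h o
    obtain ⟨M, hM⟩ := h o
    refine ⟨M, fun m hm n hn => ?_⟩
    have h1 := hM n hn m hm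
    exact Ali.symm (show Ali (pre p.fst n • o) b a (pre p.snd m • o) from h1)

namespace DTA

variable {X : Type u} [MetricSpace X] {G : Type} [Group G] [MulAction G X]
  {a : Fin N → G} (h : DTA X a)
include h

theorem exists_branch_ax {g : G} (hg : g ≠ 1) : ∃ x, x ∈ ax X g ∧ IsBranch x := by
  obtain ⟨p, hp⟩ := h.exists_branch
  obtain ⟨m, hm, hproj⟩ := h.tree.proj (h.isClosed_ax g) (h.conv_ax hg) (h.ax_nonempty g) p
  by_cases he : p = m
  · exact ⟨p, he ▸ hm, hp⟩
  · have h1 := h.self_smul_mem_ax hm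
    have h2 : g⁻¹ • m ∈ ax X g := by
      have := h.self_smul_mem_ax (h.inv_mem_ax hm)
      rwa [h.ax_inv] at this
    have h3 : Btw (g⁻¹ • m) m (g • m) := by
      have := h.btw_smul g⁻¹ hm
      rwa [inv_smul_smul, inv_smul_smul] at this
    exact ⟨m, hm, p, g • m, g⁻¹ • m, he, h.smul_ne hg m, h.smul_ne (inv_ne_one.2 hg) m,
      (hproj _ h1).symm, h3.symm, (hproj _ h2).symm⟩

theorem dist_zpow {g : G} (hg : g ≠ 1) {x : X} (hx : x ∈ ax X g) (i j : ℤ) :
    dist (g ^ i • x) (g ^ j • x) = |(i : ℝ) - j| * tl X g := by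
  have main : ∀ i j : ℤ, i ≤ j → dist (g ^ i • x) (g ^ j • x) = ((j : ℝ) - i) * tl X g := by
    intro i j hij
    obtain ⟨n, hn⟩ := Int.le.dest hij
    have h1 := (h.ax_pow hg hx n).2
    rw [← hn, zpow_add, mul_smul, h.iso, zpow_natCast, h1, h.tl_eq hg hx]
    push_cast
    ring
  rcases le_total i j with hij | hij
  · rw [main i j hij]
    have : (i : ℝ) ≤ j := by exact_mod_cast hij
    rw [abs_of_nonpos (by linarith)]
    ring
  · rw [dist_comm, main j i hij]
    have : (j : ℝ) ≤ i := by exact_mod_cast hij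
    rw [abs_of_nonneg (by linarith)]

theorem btw_zpow {g : G} (hg : g ≠ 1) {x : X} (hx : x ∈ ax X g) {i j k : ℤ} (h1 : k ≤ j)
    (h2 : j ≤ i) : Btw (g ^ i • x) (g ^ j • x) (g ^ k • x) := by
  unfold Btw
  rw [h.dist_zpow hg hx, h.dist_zpow hg hx, h.dist_zpow hg hx]
  have h1' : (k : ℝ) ≤ j := by exact_mod_cast h1
  have h2' : (j : ℝ) ≤ i := by exact_mod_cast h2
  rw [abs_of_nonneg (by linarith), abs_of_nonneg (by linarith), abs_of_nonneg (by linarith)]
  ring

/-- positively oriented edges of the axis (towards the repelling end) -/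
def Xc (g : G) (x : X) : Set {e : X × X // IsEdge e} :=
  {s | ∃ M : ℕ, Ali (g ^ (M : ℤ) • x) s.1.1 s.1.2 (g ^ (-(M : ℤ)) • x)}

omit h in
theorem ali_mono {x x' a b y y' : X} (h1 : Ali x a b y) (h2 : Btw x' x y) (h3 : Btw x' y y') :
    Ali x' a b y' := by
  have k1 : Btw x' b y := h2.trans_right h1.btw₂
  have k2 : Btw x' a b := by
    have e1 := k1.eq
    have e2 := h2.eq
    unfold Ali at h1
    have t1 := dist_triangle x' a b
    have t2 := dist_triangle x' x a
    have t3 := dist_triangle x' b y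
    unfold Btw
    linarith
  exact ali_of k2 (h3.trans k1)

theorem mem_OS_mono {g : G} (hg : g ≠ 1) {x : X} (hx : x ∈ ax X g) {i j i' j' : ℤ}
    {p q : X} (hp : Ali (g ^ i • x) p q (g ^ j • x)) (h1 : j' ≤ j) (h2 : j ≤ i) (h3 : i ≤ i') :
    Ali (g ^ i' • x) p q (g ^ j' • x) :=
  ali_mono hp (h.btw_zpow hg hx h2 h3) (h.btw_zpow hg hx h1 (h2.trans h3))

theorem exists_period {g : G} (hg : g ≠ 1) {x : X} (hx : x ∈ ax X g) (hb : IsBranch x)
    {s : {e : X × X // IsEdge e}} : s ∈ Xc g x ↔ ∃ k : ℤ, s ∈ OS (g ^ (k + 1) • x) (g ^ k • x) := by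
  constructor
  · rintro ⟨M, hM⟩
    -- induction on the length
    have main : ∀ n : ℕ, ∀ i : ℤ, s ∈ OS (g ^ (i + n) • x) (g ^ i • x) →
        ∃ k : ℤ, s ∈ OS (g ^ (k + 1) • x) (g ^ k • x) := by
      intro n
      induction n with
      | zero =>
        intro i hi
        exfalso
        have h1 : Ali (g ^ (i + (0 : ℕ)) • x) s.1.1 s.1.2 (g ^ i • x) := hi
        rw [Nat.cast_zero, add_zero] at h1
        unfold Ali at h1
        rw [dist_self] at h1
        have h2 := dist_pos.2 s.2.2.2.1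
        have := dist_nonneg (x := g ^ i • x) (y := s.1.1)
        have := dist_nonneg (x := s.1.2) (y := g ^ i • x)
        linarith
      | succ n ih =>
        intro i hi
        rw [h.OS_split (h.branch_smul (g ^ (i + n)) hb) (h.btw_zpow hg hx (by omega)
          (by push_cast; omega))] at hi
        rcases hi with hi | hi
        · refine ⟨i + n, ?_⟩
          have e : i + ((n + 1 : ℕ) : ℤ) = i + n + 1 := by push_cast; ring
          rwa [e] at hi
        · exact ih i hi
    apply main (2 * M) (-(M : ℤ))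
    have e : -(M : ℤ) + ((2 * M : ℕ) : ℤ) = M := by push_cast; omega
    rw [e]
    exact hM
  · rintro ⟨k, hk⟩
    exact ⟨k.natAbs + 1, h.mem_OS_mono hg hx hk (by omega) (by omega) (by omega)⟩

theorem period_unique {g : G} (hg : g ≠ 1) {x : X} (hx : x ∈ ax X g)
    {s : {e : X × X // IsEdge e}} {k l : ℤ} (hk : s ∈ OS (g ^ (k + 1) • x) (g ^ k • x))
    (hl : s ∈ OS (g ^ (l + 1) • x) (g ^ l • x)) : k = l := by
  have main : ∀ k l : ℤ, s ∈ OS (g ^ (k + 1) • x) (g ^ k • x) →
      s ∈ OS (g ^ (l + 1) • x) (g ^ l • x) → ¬ k < l := by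
    intro k l hk hl hlt
    -- `s` lies in both `[y (l+1), y l]` and `[y l, y k]`
    have h1 : s ∈ OS (g ^ l • x) (g ^ k • x) :=
      h.mem_OS_mono hg hx hk le_rfl (by omega) (by omega)
    exact Set.disjoint_left.1 (OS_disjoint (h.btw_zpow hg hx (i := l + 1) (j := l) (k := k)
      hlt.le (by omega))) hl h1
  rcases lt_trichotomy k l with hlt | heq | hgt
  · exact (main k l hk hl hlt).elim
  · exact heq
  · exact (main l k hl hk hgt).elim

theorem Xc_indicator {g : G} (hg : g ≠ 1) {x : X} (hx : x ∈ ax X g) (hb : IsBranch x)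
    (s : {e : X × X // IsEdge e}) :
    (Xc g x).indicator (1 : {e : X × X // IsEdge e} → ENNReal) s =
      ∑' j : ℤ, (OS (g • x) x).indicator 1 (edgeSmul h (g ^ j) s) := by
  have hiff : ∀ j : ℤ, edgeSmul h (g ^ j) s ∈ OS (g • x) x ↔
      s ∈ OS (g ^ (-j + 1) • x) (g ^ (-j) • x) := by
    intro j
    change Ali (g • x) (g ^ j • s.1.1) (g ^ j • s.1.2) x ↔
      Ali (g ^ (-j + 1) • x) s.1.1 s.1.2 (g ^ (-j) • x)
    unfold Ali
    have e1 : dist (g • x) (g ^ j • s.1.1) = dist (g ^ (-j + 1) • x) s.1.1 := by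
      rw [← h.iso (g ^ j) (g ^ (-j + 1) • x), smul_smul, ← zpow_add]
      congr 2
      rw [show j + (-j + 1) = 1 by ring, zpow_one]
    have e2 : dist (g ^ j • s.1.2) x = dist s.1.2 (g ^ (-j) • x) := by
      rw [← h.iso (g ^ j) s.1.2, smul_smul, ← zpow_add, add_neg_cancel, zpow_zero, one_smul]
    have e3 : dist (g • x) x = dist (g ^ (-j + 1) • x) (g ^ (-j) • x) := by
      rw [h.dist_zpow hg hx, dist_comm, ← h.tl_eq hg hx]
      push_cast
      rw [show -(j : ℝ) + 1 - -(j : ℝ) = 1 by ring, abs_one, one_mul]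
    rw [e1, e2, e3, h.iso]
  by_cases hs : s ∈ Xc g x
  · obtain ⟨k, hk⟩ := (h.exists_period hg hx hb).1 hs
    rw [Set.indicator_of_mem hs, tsum_eq_single (-k)]
    · rw [Set.indicator_of_mem]
      · rfl
      · rw [hiff, neg_neg]
        exact hk
    · intro j hj
      apply Set.indicator_of_notMem
      rw [hiff]
      intro hcon
      apply hj
      have := h.period_unique hg hx hk hcon
      omega
  · rw [Set.indicator_of_notMem hs]
    symm
    rw [ENNReal.tsum_eq_zero]
    intro j
    apply Set.indicator_of_notMem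
    rw [hiff]
    intro hcon
    exact hs ((h.exists_period hg hx hb).2 ⟨_, hcon⟩)

omit h in
theorem ali_replace (hX : IsRTree X) {u u' a b v v' : X} (hA : Ali u a b v)
    (h1 : dist u u' < dist u a) (h2 : dist v v' < dist v b) : Ali u' a b v' := by
  have k1 : Ali u' a b v := by
    apply ali_of' _ hA.btw₄
    rcases hX.key hA.btw₃ u' with k | k
    · have := k.le_left
      linarith
    · exact k
  have k2 := k1.symm
  have k3 : Ali v' b a u' := by
    apply ali_of' _ k2.btw₄
    rcases hX.key k2.btw₃ v' with k | k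
    · have := k.le_left
      linarith
    · exact k
  exact k3.symm

end DTA

/-- the set of positively oriented edges on the axis of `c` is given by the cylinders -/
theorem pair_mem_cyl {T : OuterPoint.{u} N} (h : DTA T.carrier (fun i : Fin N => FreeGroup.of i))
    (c : CR N) {x : T.carrier} (hx : x ∈ ax T.carrier (FreeGroup.mk c.1))
    (s : {e : T.carrier × T.carrier // IsEdge e}) :
    c.pair ∈ cyl T s.1.1 s.1.2 ↔ s ∈ DTA.Xc (FreeGroup.mk c.1) x := by
  have hg := c.mk_ne_one
  set g := FreeGroup.mk c.1 with hgdef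
  have hpos := c.len_pos
  constructor
  · intro hp
    obtain ⟨M, hM⟩ := hp x
    refine ⟨M, ?_⟩
    have h1 := hM (M * c.1.length) (Nat.le_mul_of_pos_right M hpos) (M * c.1.length)
      (Nat.le_mul_of_pos_right M hpos)
    have e1 : pre c.pair.fst (M * c.1.length) = g ^ M := by
      have := c.pow_mul_pre M 0
      rw [pre_zero, mul_one, zero_add] at this
      exact this.symm
    have e2 : pre c.pair.snd (M * c.1.length) = (g⁻¹) ^ M := by
      have := c.inv.pow_mul_pre M 0
      rw [pre_zero, mul_one, zero_add, c.inv_length, c.mk_inv] at this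
      exact this.symm
    rw [e1, e2] at h1
    unfold Ali
    rw [zpow_natCast, zpow_neg, zpow_natCast, ← inv_pow]
    exact h1
  · rintro ⟨M, hM⟩ o
    -- bound for the distances
    obtain ⟨ρ, hρ⟩ : ∃ ρ : ℝ, ∀ r < c.1.length, dist x (pre c.per r • o) ≤ ρ ∧
        dist x (pre c.inv.per r • o) ≤ ρ := by
      refine ⟨∑ r ∈ Finset.range c.1.length, (dist x (pre c.per r • o) +
        dist x (pre c.inv.per r • o)), fun r hr => ?_⟩
      have h1 : dist x (pre c.per r • o) + dist x (pre c.inv.per r • o) ≤ _ :=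
        Finset.single_le_sum (f := fun r => dist x (pre c.per r • o) +
        dist x (pre c.inv.per r • o)) (fun i _ => by positivity) (Finset.mem_range.2 hr)
      have := dist_nonneg (x := x) (y := pre c.per r • o)
      have := dist_nonneg (x := x) (y := pre c.inv.per r • o)
      constructor <;> linarith
    have hℓ := h.tl_pos hg
    obtain ⟨K, hK⟩ := exists_nat_gt (ρ / tl T.carrier g)
    rw [div_lt_iff₀ hℓ] at hK
    refine ⟨(M + K) * c.1.length, fun m hm n hn => ?_⟩
    set k := m / c.1.length with hk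
    set l := n / c.1.length with hl
    have hk1 : M + K ≤ k := (Nat.le_div_iff_mul_le hpos).2 hm
    have hl1 : M + K ≤ l := (Nat.le_div_iff_mul_le hpos).2 hn
    have e1 : pre c.pair.fst m • o = g ^ k • pre c.per (m % c.1.length) • o := by
      rw [smul_smul, hgdef, c.pow_mul_pre, Nat.mod_add_div']
      rfl
    have e2 : pre c.pair.snd n • o = (g⁻¹) ^ l • pre c.inv.per (n % c.1.length) • o := by
      rw [smul_smul, hgdef, ← c.mk_inv, c.inv.pow_mul_pre, c.inv_length, Nat.mod_add_div']
      rfl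
    rw [e1, e2]
    have hA : Ali (g ^ (k : ℤ) • x) s.1.1 s.1.2 (g ^ (-(l : ℤ)) • x) :=
      h.mem_OS_mono hg hx hM (by omega) (by omega) (by omega)
    rw [zpow_natCast, zpow_neg, zpow_natCast, ← inv_pow] at hA
    apply DTA.ali_replace h.tree hA
    · rw [h.iso]
      refine lt_of_le_of_lt (hρ _ (Nat.mod_lt _ hpos)).1 (lt_of_lt_of_le hK ?_)
      -- `dist (g^k x) a ≥ dist (g^k x) (g^M x) ≥ K ℓ`
      have b1 : Btw (g ^ (k : ℤ) • x) (g ^ (M : ℤ) • x) (g ^ (-(M : ℤ)) • x) :=
        h.btw_zpow hg hx (by omega) (by omega)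
      have b2 := b1.trans_right' hM.btw₃
      have b3 := b2.le_left
      rw [h.dist_zpow hg hx, zpow_natCast] at b3
      refine le_trans ?_ b3
      apply mul_le_mul_of_nonneg_right _ hℓ.le
      have : (M : ℝ) + K ≤ k := by exact_mod_cast hk1
      rw [Int.cast_natCast, Int.cast_natCast, abs_of_nonneg (by linarith)]
      linarith
    · rw [h.iso]
      refine lt_of_le_of_lt (hρ _ (Nat.mod_lt _ hpos)).2 (lt_of_lt_of_le hK ?_)
      have b1 : Btw (g ^ (-(l : ℤ)) • x) (g ^ (-(M : ℤ)) • x) (g ^ (M : ℤ) • x) :=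
        (h.btw_zpow hg hx (by omega) (by omega)).symm
      have b2 := b1.trans_right' hM.btw₂.symm
      have b3 := b2.le_left
      rw [h.dist_zpow hg hx, zpow_neg, zpow_natCast, ← inv_pow] at b3
      refine le_trans ?_ b3
      apply mul_le_mul_of_nonneg_right _ hℓ.le
      have : (M : ℝ) + K ≤ l := by exact_mod_cast hl1
      push_cast
      rw [abs_of_nonpos (by linarith)]
      linarith

end Pool.Agent.Lib.MP_f2f7de_al
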