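import Mathlib
import Pool.Agent.Lib.MP_f2f7de_al.Inter

set_option autoImplicit false

universe u

/-! `⟨T, ∑ w_n η_{c_n}⟩ = ∑ w_n ‖c_n‖_T`. -/

namespace Pool.Agent.Lib.MP_f2f7de_al

variable {N : ℕ}

section

variable {T : OuterPoint.{u} N} (h : DTA T.carrier (fun i : Fin N => FreeGroup.of i)) (c : CR N)
  {x : T.carrier} (hx : x ∈ ax T.carrier (FreeGroup.mk c.1)) (hb : IsBranch x)
include h hx

theorem beta_bij : Function.Bijective (fun p : c.Cos × ℤ =>
    (FreeGroup.mk c.1) ^ p.2 * p.1.out⁻¹) := by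
  have hg := c.mk_ne_one
  constructor
  · rintro ⟨q, j⟩ ⟨q', j'⟩ he
    simp only at he
    have h1 : q.out = q'.out * (FreeGroup.mk c.1) ^ (j - j') := by
      have h2 : q.out⁻¹ = (FreeGroup.mk c.1) ^ (-j) * ((FreeGroup.mk c.1) ^ j' * q'.out⁻¹) := by
        rw [← he, ← mul_assoc, ← zpow_add, neg_add_cancel, zpow_zero, one_mul]
      rw [← inv_inv q.out, h2, mul_inv_rev, mul_inv_rev, inv_inv, ← zpow_neg, ← zpow_neg, neg_neg,
        mul_assoc, ← zpow_add]
      congr 2
      ring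
    have hq : q = q' := by
      rw [← QuotientGroup.out_eq' q, ← QuotientGroup.out_eq' q', h1,
        QuotientGroup.mk_mul_of_mem _ (Subgroup.zpow_mem_zpowers _ _)]
    subst hq
    have h3 : (FreeGroup.mk c.1) ^ (j - j') = 1 := by
      have := h1.symm
      rwa [mul_eq_left] at this
    have h4 := h.dist_zpow hg hx (j - j') 0
    rw [h3, zpow_zero, dist_self] at h4
    have h5 := h.tl_pos hg
    have h6 : |((j - j' : ℤ) : ℝ) - ((0 : ℤ) : ℝ)| = 0 := by
      rcases mul_eq_zero.1 h4.symm with h6 | h6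
      · exact h6
      · linarith
    rw [abs_eq_zero, Int.cast_zero, sub_zero, Int.cast_eq_zero] at h6
    rw [Prod.mk.injEq]
    exact ⟨rfl, by omega⟩
  · intro k
    obtain ⟨⟨z, hz⟩, hq⟩ := QuotientGroup.mk_out_eq_mul
      (Subgroup.zpowers (FreeGroup.mk c.1)) k⁻¹
    obtain ⟨i, hi⟩ := Subgroup.mem_zpowers_iff.1 hz
    refine ⟨(QuotientGroup.mk k⁻¹, i), ?_⟩
    simp only at hq ⊢
    rw [hq, mul_inv_rev, inv_inv, ← hi, mul_inv_cancel_left]

omit hx in
theorem gamma_bij : Function.Bijective (fun p : Quotient (edgeSetoid T) × FreeGroup (Fin N) =>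
    edgeSmul h p.2 p.1.out) := by
  constructor
  · rintro ⟨e, k⟩ ⟨e', k'⟩ he
    have h1 := congrArg Subtype.val he
    have h2 : k • e.out.1.1 = k' • e'.out.1.1 := congrArg Prod.fst h1
    have h3 : k • e.out.1.2 = k' • e'.out.1.2 := congrArg Prod.snd h1
    have hee : e = e' := by
      rw [← Quotient.out_eq e, ← Quotient.out_eq e']
      apply Quotient.sound
      refine ⟨k'⁻¹ * k, ?_, ?_⟩
      · rw [mul_smul, h2, inv_smul_smul]
      · rw [mul_smul, h3, inv_smul_smul]
    subst hee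
    have h4 : (k'⁻¹ * k) • e.out.1.1 = e.out.1.1 := by
      rw [mul_smul, h2, inv_smul_smul]
    have h5 := h.free _ _ h4
    rw [inv_mul_eq_one] at h5
    rw [h5]
  · intro s
    obtain ⟨g, hg1, hg2⟩ := Quotient.exact (Quotient.out_eq
      (Quotient.mk (edgeSetoid T) (s : OEdge T)))
    refine ⟨(Quotient.mk (edgeSetoid T) (s : OEdge T), g), ?_⟩
    apply Subtype.ext
    apply Prod.ext
    · exact hg1
    · exact hg2

include hb

theorem tsum_orb (s : {e : T.carrier × T.carrier // IsEdge e}) :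
    ∑' q : c.Cos, (cyl T s.1.1 s.1.2).indicator (1 : DBdry N → ENNReal) (c.orb q) =
      ∑' k : FreeGroup (Fin N), (OS (FreeGroup.mk c.1 • x) x).indicator
        (1 : {e : T.carrier × T.carrier // IsEdge e} → ENNReal) (edgeSmul h k s) := by
  rw [← (Equiv.ofBijective _ (beta_bij h c hx)).tsum_eq, ENNReal.tsum_prod']
  apply tsum_congr
  intro q
  have h1 : (cyl T s.1.1 s.1.2).indicator (1 : DBdry N → ENNReal) (c.orb q) =
      (DTA.Xc (FreeGroup.mk c.1) x).indicator 1 (edgeSmul h q.out⁻¹ s) := by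
    have hiff : c.orb q ∈ cyl T s.1.1 s.1.2 ↔
        edgeSmul h q.out⁻¹ s ∈ DTA.Xc (FreeGroup.mk c.1) x := by
      rw [← pair_mem_cyl h c hx]
      unfold CR.orb
      rw [smul_mem_cyl]
      rfl
    by_cases hm : c.orb q ∈ cyl T s.1.1 s.1.2
    · rw [Set.indicator_of_mem hm, Set.indicator_of_mem (hiff.1 hm)]
      rfl
    · rw [Set.indicator_of_notMem hm, Set.indicator_of_notMem (fun hc => hm (hiff.2 hc))]
  rw [h1, h.Xc_indicator c.mk_ne_one hx hb]
  apply tsum_congr
  intro j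
  congr 1
  apply Subtype.ext
  apply Prod.ext
  · exact (mul_smul _ _ _).symm
  · exact (mul_smul _ _ _).symm

theorem tsum_len : ∑' s : {e : T.carrier × T.carrier // IsEdge e},
    ENNReal.ofReal (dist s.1.1 s.1.2) * (OS (FreeGroup.mk c.1 • x) x).indicator 1 s =
      ENNReal.ofReal (tl T.carrier (FreeGroup.mk c.1)) := by
  have hfin := h.finite_OS (FreeGroup.mk c.1 • x) x
  rw [tsum_eq_sum (s := hfin.toFinset) (fun s hs => by
    rw [Set.Finite.mem_toFinset] at hs
    rw [Set.indicator_of_notMem hs, mul_zero])]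
  have h2 : ∑ s ∈ hfin.toFinset, ENNReal.ofReal (dist s.1.1 s.1.2) *
      (OS (FreeGroup.mk c.1 • x) x).indicator 1 s =
      ∑ s ∈ hfin.toFinset, ENNReal.ofReal (dist s.1.1 s.1.2) :=
    Finset.sum_congr rfl (fun s hs => by
      rw [Set.Finite.mem_toFinset] at hs
      rw [Set.indicator_of_mem hs, Pi.one_apply, mul_one])
  rw [h2, ← ENNReal.ofReal_sum_of_nonneg (fun s _ => dist_nonneg)]
  congr 1
  have h1 := h.eq_J (δ := fun p q => dist p q) (h.branch_smul (FreeGroup.mk c.1) hb)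
    (fun m y _ _ hm => hm.eq.symm) x hb
  rw [h.J_eq_sum] at h1
  rw [← h1, dist_comm]
  exact (h.tl_eq c.mk_ne_one hx).symm

/-- `⟨T, η_c⟩ = ‖c‖_T` (up to the factor `2`) -/
theorem tsum_eta : ∑' e : Quotient (edgeSetoid T),
    ENNReal.ofReal (dist e.out.1.1 e.out.1.2) * c.eta (cyl T e.out.1.1 e.out.1.2) =
      2 * ENNReal.ofReal (tl T.carrier (FreeGroup.mk c.1)) := by
  have key : ∀ f : {e : T.carrier × T.carrier // IsEdge e} → ENNReal,
      ∑' (e : Quotient (edgeSetoid T)) (k : FreeGroup (Fin N)), f (edgeSmul h k e.out) =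
        ∑' s, f s := by
    intro f
    rw [← (Equiv.ofBijective _ (gamma_bij h)).tsum_eq f, ENNReal.tsum_prod']
    rfl
  set R := (OS (FreeGroup.mk c.1 • x) x).indicator
    (1 : {e : T.carrier × T.carrier // IsEdge e} → ENNReal) with hR
  obtain ⟨Φ, hΦ⟩ : ∃ Φ : {e : T.carrier × T.carrier // IsEdge e} → ENNReal, ∀ s, Φ s =
      ENNReal.ofReal (dist s.1.1 s.1.2) * R s + ENNReal.ofReal (dist s.1.1 s.1.2) * R (rev s) :=
    ⟨_, fun _ => rfl⟩
  have h1 : ∀ e : Quotient (edgeSetoid T), ENNReal.ofReal (dist e.out.1.1 e.out.1.2) *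
      c.eta (cyl T e.out.1.1 e.out.1.2) =
      ∑' k : FreeGroup (Fin N), Φ (edgeSmul h k e.out) := by
    intro e
    have e1 : c.eta (cyl T e.out.1.1 e.out.1.2) =
        ∑' k : FreeGroup (Fin N), (R (edgeSmul h k e.out) + R (edgeSmul h k (rev e.out))) := by
      rw [CR.eta_apply, ENNReal.tsum_add, ENNReal.tsum_add]
      congr 1
      · exact tsum_orb h c hx hb e.out
      · rw [← tsum_orb h c hx hb (rev e.out)]
        apply tsum_congr
        intro q
        by_cases hm : DBdry.flip (c.orb q) ∈ cyl T e.out.1.1 e.out.1.2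
        · have hm' : c.orb q ∈ cyl T (rev e.out).1.1 (rev e.out).1.2 := flip_mem_cyl.1 hm
          rw [Set.indicator_of_mem hm, Set.indicator_of_mem hm']
          rfl
        · have hm' : c.orb q ∉ cyl T (rev e.out).1.1 (rev e.out).1.2 :=
            fun hc => hm (flip_mem_cyl.2 hc)
          rw [Set.indicator_of_notMem hm, Set.indicator_of_notMem hm']
    rw [e1, ← ENNReal.tsum_mul_left]
    apply tsum_congr
    intro k
    have e2 : dist (edgeSmul h k e.out).1.1 (edgeSmul h k e.out).1.2 =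
        dist e.out.1.1 e.out.1.2 := h.iso _ _ _
    rw [hΦ, e2, mul_add]
    rfl
  rw [tsum_congr h1, key, tsum_congr hΦ, ENNReal.tsum_add, two_mul]
  congr 1
  · exact tsum_len h c hx hb
  · have hrev : Function.Involutive
        (rev : {e : T.carrier × T.carrier // IsEdge e} → _) := fun s => rfl
    rw [← tsum_len h c hx hb, ← (hrev.toPerm rev).tsum_eq]
    apply tsum_congr
    intro s
    change ENNReal.ofReal (dist s.1.2 s.1.1) * R s = _
    rw [dist_comm]

end

theorem inter_muCurr {T : OuterPoint.{u} N}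
    (h : DTA T.carrier (fun i : Fin N => FreeGroup.of i)) (e : ℕ → CR N) (t : ℝ)
    (ht : t ∈ Set.Ioo (0 : ℝ) 1) : inter T (muCurr e t ht) =
      ∑' n, wt e t n * ENNReal.ofReal (tl T.carrier (FreeGroup.mk (e n).1)) := by
  unfold inter
  have h1 : ∀ E : Quotient (edgeSetoid T), ENNReal.ofReal (dist E.out.1.1 E.out.1.2) *
      (muCurr e t ht).meas (cyl T E.out.1.1 E.out.1.2) =
      ∑' n, wt e t n * (ENNReal.ofReal (dist E.out.1.1 E.out.1.2) *
        (e n).eta (cyl T E.out.1.1 E.out.1.2)) := by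
    intro E
    change ENNReal.ofReal _ * muMeas e t _ = _
    rw [muMeas_apply, ← ENNReal.tsum_mul_left]
    apply tsum_congr
    intro n
    ring
  rw [tsum_congr h1, ENNReal.tsum_comm, div_eq_mul_inv, ← ENNReal.tsum_mul_right]
  apply tsum_congr
  intro n
  obtain ⟨x, hx, hb⟩ := h.exists_branch_ax (e n).mk_ne_one
  rw [ENNReal.tsum_mul_left, tsum_eta h (e n) hx hb, mul_assoc, mul_assoc,
    mul_comm (ENNReal.ofReal _), ← mul_assoc (2 : ENNReal),
    ENNReal.mul_inv_cancel two_ne_zero ENNReal.ofNat_ne_top, one_mul]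

end Pool.Agent.Lib.MP_f2f7de_al
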