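import Mathlib

set_option autoImplicit false

/-! Finitely many power series functionals separate the points of countably many
finite-dimensional spaces of bounded sequences. -/

namespace Pool.Agent.Lib.MP_f2f7de_al

open Filter Topology

theorem summable_bdd {u : ℕ → ℝ} {C : ℝ} (hu : ∀ n, |u n| ≤ C) {t : ℝ} (h0 : 0 ≤ t)
    (h1 : t < 1) : Summable fun n => u n * t ^ n := by
  apply Summable.of_norm_bounded (g := fun n => C * t ^ n)
  · exact (summable_geometric_of_lt_one h0 h1).mul_left C
  · intro n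
    rw [Real.norm_eq_abs, abs_mul, abs_of_nonneg (pow_nonneg h0 n)]
    exact mul_le_mul_of_nonneg_right (hu n) (pow_nonneg h0 n)

theorem countable_zeros {u : ℕ → ℝ} {C : ℝ} (hu : ∀ n, |u n| ≤ C) (hne : u ≠ 0) :
    {t : ℝ | t ∈ Set.Ioo (0 : ℝ) 1 ∧ ∑' n, u n * t ^ n = 0}.Countable := by
  set p : FormalMultilinearSeries ℝ ℝ ℝ := FormalMultilinearSeries.ofScalars ℝ u with hp
  have hrad : (1 : ENNReal) ≤ p.radius := by
    have := p.le_radius_of_bound C (r := 1) (by
      intro n
      rw [NNReal.coe_one, one_pow, mul_one, hp, FormalMultilinearSeries.ofScalars_norm]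
      exact hu n)
    simpa using this
  have hball := p.hasFPowerSeriesOnBall (lt_of_lt_of_le one_pos hrad)
  have hball1 := hball.mono one_pos hrad
  have han : AnalyticOnNhd ℝ p.sum (Metric.eball 0 1) := hball1.analyticOnNhd
  have hsum : ∀ t, p.sum t = ∑' n, u n * t ^ n := by
    intro t
    have := FormalMultilinearSeries.ofScalars_sum_eq (E := ℝ) u t
    simp only [smul_eq_mul] at this
    exact this
  have hpre : IsPreconnected (Metric.eball (0 : ℝ) 1) := by
    have h1 : Metric.eball (0 : ℝ) 1 = Metric.ball 0 1 := by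
      have := Metric.eball_ofReal (x := (0 : ℝ)) (ε := 1)
      rwa [ENNReal.ofReal_one] at this
    rw [h1]
    exact (convex_ball _ _).isPreconnected
  rcases han.eqOn_zero_or_eventually_ne_zero_of_preconnected hpre with h | h
  · exfalso
    have h2 := hball.hasFPowerSeriesAt.eq_zero_of_eventually (by
      filter_upwards [Metric.eball_mem_nhds (0 : ℝ) one_pos] with z hz
      exact h hz)
    rw [hp, FormalMultilinearSeries.ofScalars_series_eq_zero] at h2
    exact hne h2
  · have h1 : IsDiscrete ({x | p.sum x ≠ 0}ᶜ ∩ Metric.eball 0 1) :=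
      isDiscrete_of_codiscreteWithin (by rwa [compl_compl])
    have h2 : DiscreteTopology ↑({x | p.sum x ≠ 0}ᶜ ∩ Metric.eball (0 : ℝ) 1) :=
      isDiscrete_iff_discreteTopology.1 h1
    have h3 : ({x | p.sum x ≠ 0}ᶜ ∩ Metric.eball (0 : ℝ) 1).Countable :=
      TopologicalSpace.separableSpace_iff_countable.1 inferInstance
    apply h3.mono
    rintro t ⟨⟨ht0, ht1⟩, ht⟩
    refine ⟨?_, ?_⟩
    · simp only [Set.mem_compl_iff, Set.mem_ofPred_eq, not_not]
      rw [hsum, ht]
    · rw [Metric.mem_eball, edist_dist, Real.dist_eq, sub_zero, abs_of_pos ht0]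
      exact ENNReal.ofReal_lt_one.2 ht1

/-- Countably many subspaces of dimension at most `d` of the space of bounded sequences are
separated from `0` by `d` functionals `u ↦ ∑ u_n t_i^n`. -/
theorem exists_points (d : ℕ) : ∀ {ι : Type} [Countable ι] (W : ι → Submodule ℝ (ℕ → ℝ)),
    (∀ j, Module.Finite ℝ (W j)) → (∀ j, Module.finrank ℝ (W j) ≤ d) →
    (∀ j, ∀ u ∈ W j, ∃ C, ∀ n, |u n| ≤ C) →
    ∃ t : Fin d → ℝ, (∀ i, t i ∈ Set.Ioo (0 : ℝ) 1) ∧
      ∀ j, ∀ u ∈ W j, (∀ i, ∑' n, u n * t i ^ n = 0) → u = 0 := by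
  induction d with
  | zero =>
    intro ι _ W hfin hrk hbd
    refine ⟨Fin.elim0, fun i => i.elim0, ?_⟩
    intro j u hu _
    have := hfin j
    have h1 : W j = ⊥ := Submodule.finrank_eq_zero.1 (Nat.le_zero.1 (hrk j))
    rw [h1] at hu
    exact hu
  | succ d ih =>
    intro ι _ W hfin hrk hbd
    -- choose a nonzero vector in every nonzero subspace
    have hw : ∀ j, ∃ u, W j ≠ ⊥ → u ∈ W j ∧ u ≠ 0 := by
      intro j
      by_cases hj : W j = ⊥
      · exact ⟨0, fun hcon => absurd hj hcon⟩
      · obtain ⟨u, hu, hu0⟩ := Submodule.exists_mem_ne_zero_of_ne_bot hj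
        exact ⟨u, fun _ => ⟨hu, hu0⟩⟩
    choose w hw using hw
    have hcount : (⋃ j, {t : ℝ | t ∈ Set.Ioo (0 : ℝ) 1 ∧ W j ≠ ⊥ ∧
        ∑' n, w j n * t ^ n = 0}).Countable := by
      apply Set.countable_iUnion
      intro j
      by_cases hj : W j = ⊥
      · apply Set.Countable.mono _ Set.countable_empty
        rintro t ⟨_, h, _⟩
        exact (h hj).elim
      · obtain ⟨C, hC⟩ := hbd j _ (hw j hj).1
        apply (countable_zeros hC (hw j hj).2).mono
        rintro t ⟨h1, -, h2⟩
        exact ⟨h1, h2⟩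
    have hex : ∃ t₀ ∈ Set.Ioo (0 : ℝ) 1, t₀ ∉ ⋃ j, {t : ℝ | t ∈ Set.Ioo (0 : ℝ) 1 ∧ W j ≠ ⊥ ∧
        ∑' n, w j n * t ^ n = 0} := by
      by_contra hcon
      push Not at hcon
      have h1 : (Set.Ioo (0 : ℝ) 1).Countable := hcount.mono hcon
      have h2 := Cardinal.mk_Ioo_real (zero_lt_one' ℝ)
      have h3 := Cardinal.le_aleph0_iff_set_countable.2 h1
      rw [h2] at h3
      exact absurd Cardinal.aleph0_lt_continuum (not_lt.2 h3)
    obtain ⟨t₀, ht₀, hnot⟩ := hex
    let W' : ι → Submodule ℝ (ℕ → ℝ) := fun j =>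
      { carrier := {u | u ∈ W j ∧ ∑' n, u n * t₀ ^ n = 0}
        zero_mem' := ⟨(W j).zero_mem, by simp⟩
        add_mem' := by
          rintro u v ⟨hu, hu'⟩ ⟨hv, hv'⟩
          refine ⟨(W j).add_mem hu hv, ?_⟩
          obtain ⟨C, hC⟩ := hbd j u hu
          obtain ⟨D, hD⟩ := hbd j v hv
          have h1 := (summable_bdd hC ht₀.1.le ht₀.2).tsum_add (summable_bdd hD ht₀.1.le ht₀.2)
          rw [hu', hv', add_zero] at h1
          rw [← h1]
          apply tsum_congr
          intro n
          rw [Pi.add_apply]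
          ring
        smul_mem' := by
          rintro r u ⟨hu, hu'⟩
          refine ⟨(W j).smul_mem r hu, ?_⟩
          have h1 : ∑' n, (r • u) n * t₀ ^ n = r * ∑' n, u n * t₀ ^ n := by
            rw [← tsum_mul_left]
            apply tsum_congr
            intro n
            rw [Pi.smul_apply, smul_eq_mul]
            ring
          rw [h1, hu', mul_zero] }
    have hle : ∀ j, W' j ≤ W j := fun j u hu => hu.1
    have hfin' : ∀ j, Module.Finite ℝ (W' j) := by
      intro j
      have := hfin j
      exact Submodule.finiteDimensional_of_le (hle j)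
    obtain ⟨t, ht, hsep⟩ := ih W' hfin' (by
      intro j
      have := hfin j
      by_cases hj : W j = ⊥
      · have h1 : W' j = ⊥ := by
          rw [eq_bot_iff, ← hj]
          exact hle j
        rw [h1]
        simp
      · have hlt : W' j < W j := by
          refine lt_of_le_of_ne (hle j) ?_
          intro heq
          have h1 : w j ∈ W' j := by
            rw [heq]
            exact (hw j hj).1
          apply hnot
          simp only [Set.mem_iUnion]
          exact ⟨j, ht₀, hj, h1.2⟩
        have h1 := Submodule.finrank_lt_finrank_of_lt hlt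
        have h2 := hrk j
        omega) (fun j u hu => hbd j u hu.1)
    refine ⟨Fin.cons t₀ t, ?_, ?_⟩
    · intro i
      refine Fin.cases ?_ ?_ i
      · exact ht₀
      · exact ht
    · intro j u hu hz
      apply hsep j u ⟨hu, ?_⟩
      · intro i
        exact hz i.succ
      · exact hz 0

end Pool.Agent.Lib.MP_f2f7de_al
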