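import Mathlib
import Pool.Agent.Lib.MP_f2f7de_al.Formula
import Pool.Agent.Lib.MP_f2f7de_al.Generic

set_option autoImplicit false

universe u

/-! Existence of a finite spectrally rigid set of currents. -/

namespace Pool.Agent.Lib.MP_f2f7de_al

variable {N : ℕ}

theorem tl_le_length {T : OuterPoint.{u} N}
    (h : DTA T.carrier (fun i : Fin N => FreeGroup.of i)) : ∃ C : ℝ, 0 ≤ C ∧
      ∀ L : List (Fin N × Bool), tl T.carrier (FreeGroup.mk L) ≤ C * L.length := by
  obtain ⟨p⟩ := h.tree.nonempty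
  have := Fin.pos_iff_nonempty.1 h.N_pos
  obtain ⟨a₀, ha₀⟩ := Finite.exists_max fun a : Fin N × Bool => dist p (FreeGroup.mk [a] • p)
  refine ⟨dist p (FreeGroup.mk [a₀] • p), dist_nonneg, fun L => ?_⟩
  have main : ∀ L : List (Fin N × Bool), dist p (FreeGroup.mk L • p) ≤
      dist p (FreeGroup.mk [a₀] • p) * L.length := by
    intro L
    induction L with
    | nil =>
      rw [← FreeGroup.one_eq_mk, one_smul]
      simp
    | cons a L ih =>
      have e1 : FreeGroup.mk (a :: L) • p = FreeGroup.mk [a] • FreeGroup.mk L • p := by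
        rw [smul_smul, FreeGroup.mul_mk]
        rfl
      rw [e1]
      have h1 := dist_triangle p (FreeGroup.mk [a] • p) (FreeGroup.mk [a] • FreeGroup.mk L • p)
      rw [h.iso] at h1
      have h2 := ha₀ a
      rw [List.length_cons]
      push_cast
      linarith
  exact (h.tl_le _ p).trans (main L)

theorem tl_eq_of_CR {T T' : OuterPoint.{u} N}
    (h : DTA T.carrier (fun i : Fin N => FreeGroup.of i))
    (h' : DTA T'.carrier (fun i : Fin N => FreeGroup.of i))
    (hc : ∀ c : CR N, tl T.carrier (FreeGroup.mk c.1) = tl T'.carrier (FreeGroup.mk c.1))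
    (g : FreeGroup (Fin N)) : tl T.carrier g = tl T'.carrier g := by
  have e := FreeGroup.reduceCyclically.conj_conjugator_reduceCyclically g.toWord
  set u := FreeGroup.reduceCyclically.conjugator g.toWord
  set r := FreeGroup.reduceCyclically g.toWord with hr
  have e2 : g = FreeGroup.mk u * FreeGroup.mk r * (FreeGroup.mk u)⁻¹ := by
    rw [FreeGroup.inv_mk, FreeGroup.mul_mk, FreeGroup.mul_mk, e, FreeGroup.mk_toWord]
  rw [e2, h.tl_conj, h'.tl_conj]
  by_cases hr0 : r = []
  · rw [hr0, ← FreeGroup.one_eq_mk, h.tl_one, h'.tl_one]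
  · exact hc ⟨r, hr0, FreeGroup.reduceCyclically.isCyclicallyReduced FreeGroup.isReduced_toWord⟩

theorem same_of_tl {T T' : OuterPoint.{u} N}
    (h : DTA T.carrier (fun i : Fin N => FreeGroup.of i))
    (h' : DTA T'.carrier (fun i : Fin N => FreeGroup.of i))
    (hlen : ∀ g : FreeGroup (Fin N), tl T.carrier g = tl T'.carrier g) : SameTree T T' := by
  obtain ⟨x, y, hxy⟩ := h.noncomm
  obtain ⟨p, p', hL⟩ := exists_base h.toFTA h'.toFTA hlen hxy
  exact same_of_base h.toFTA h'.toFTA (h.hull p) (h'.hull p') hL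

/-- bounded sequences -/
def Bd : Submodule ℝ (ℕ → ℝ) where
  carrier := {u | ∃ C, ∀ n, |u n| ≤ C}
  zero_mem' := ⟨0, by simp⟩
  add_mem' := by
    rintro u v ⟨C, hC⟩ ⟨D, hD⟩
    exact ⟨C + D, fun n => (abs_add_le _ _).trans (add_le_add (hC n) (hD n))⟩
  smul_mem' := by
    rintro r u ⟨C, hC⟩
    refine ⟨|r| * C, fun n => ?_⟩
    rw [Pi.smul_apply, smul_eq_mul, abs_mul]
    exact mul_le_mul_of_nonneg_left (hC n) (abs_nonneg r)

/-- normalized restriction to an enumerated family of words -/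
noncomputable def Rs (e : ℕ → CR N) : (FreeGroup (Fin N) → ℝ) →ₗ[ℝ] (ℕ → ℝ) where
  toFun u := fun n => u (FreeGroup.mk (e n).1) / (e n).1.length
  map_add' := by
    intro u v
    funext n
    simp only [Pi.add_apply]
    ring
  map_smul' := by
    intro r u
    funext n
    simp only [Pi.smul_apply, smul_eq_mul, RingHom.id_apply]
    ring

theorem exists_finite_rigid (hN : 2 ≤ N) :
    ∃ S : Set (Curr N), S.Finite ∧ SpectrallyRigid.{u} S := by
  classical
  -- enumeration of the cyclically reduced words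
  have hne : Nonempty (CR N) := ⟨⟨[(⟨0, by omega⟩, true)], by simp,
    FreeGroup.IsCyclicallyReduced.singleton⟩⟩
  obtain ⟨e, he⟩ := exists_surjective_nat (CR N)
  -- the finite-dimensional spaces
  choose W hWfin hWrk hW using fun (D : ℕ × Finset (ℕ × ℕ × FreeGroup (Fin N))) =>
    exists_subspace.{u} (fun i : Fin N => FreeGroup.of i) D.1 D.2
  let ι : Type := (ℕ × Finset (ℕ × ℕ × FreeGroup (Fin N))) ×
    (ℕ × Finset (ℕ × ℕ × FreeGroup (Fin N)))
  let V : ι → Submodule ℝ (ℕ → ℝ) := fun j =>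
    (Submodule.map (Rs e) (W j.1 ⊔ W j.2)) ⊓ Bd
  have hfin : ∀ j, Module.Finite ℝ (V j) := by
    intro j
    have := hWfin j.1
    have := hWfin j.2
    exact Submodule.finiteDimensional_of_le (inf_le_left (a := Submodule.map (Rs e)
      (W j.1 ⊔ W j.2)) (b := Bd))
  have hrk : ∀ j, Module.finrank ℝ (V j) ≤ 12 * N := by
    intro j
    have := hWfin j.1
    have := hWfin j.2
    have h1 : Module.finrank ℝ (V j) ≤
        Module.finrank ℝ (Submodule.map (Rs e) (W j.1 ⊔ W j.2)) :=
      Submodule.finrank_mono (inf_le_left (a := Submodule.map (Rs e)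
      (W j.1 ⊔ W j.2)) (b := Bd))
    have h2 := Submodule.finrank_map_le (Rs e) (W j.1 ⊔ W j.2)
    have h3 := Submodule.finrank_add_le_finrank_add_finrank (W j.1) (W j.2)
    have h4 := hWrk j.1
    have h5 := hWrk j.2
    omega
  obtain ⟨t, ht, hsep⟩ := exists_points (12 * N) V hfin hrk (fun j u hu => hu.2)
  refine ⟨Set.range fun i : Fin (12 * N) => muCurr e (t i) (ht i), Set.finite_range _, ?_⟩
  intro T T' hTT'
  have h := T.dta hN
  have h' := T'.dta hN
  apply same_of_tl h h'
  apply tl_eq_of_CR h h'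
  -- codes
  obtain ⟨n₁, D₁, v₁, hc₁⟩ := h.exists_code
  obtain ⟨n₂, D₂, v₂, hc₂⟩ := h'.exists_code
  have m₁ := hW (n₁, D₁) T.carrier h v₁ hc₁
  have m₂ := hW (n₂, D₂) T'.carrier h' v₂ hc₂
  obtain ⟨C, hC0, hC⟩ := tl_le_length h
  obtain ⟨C', hC0', hC'⟩ := tl_le_length h'
  set f : FreeGroup (Fin N) → ℝ := tl T.carrier with hf
  set f' : FreeGroup (Fin N) → ℝ := tl T'.carrier with hf'
  have bd : ∀ n, 0 ≤ f (FreeGroup.mk (e n).1) / (e n).1.length ∧
      f (FreeGroup.mk (e n).1) / (e n).1.length ≤ C := by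
    intro n
    have hpos := (e n).len_pos
    have hpos' : (0 : ℝ) < (e n).1.length := by exact_mod_cast hpos
    exact ⟨div_nonneg (h.tl_nonneg _) hpos'.le, (div_le_iff₀ hpos').2 (hC _)⟩
  have bd' : ∀ n, 0 ≤ f' (FreeGroup.mk (e n).1) / (e n).1.length ∧
      f' (FreeGroup.mk (e n).1) / (e n).1.length ≤ C' := by
    intro n
    have hpos := (e n).len_pos
    have hpos' : (0 : ℝ) < (e n).1.length := by exact_mod_cast hpos
    exact ⟨div_nonneg (h'.tl_nonneg _) hpos'.le, (div_le_iff₀ hpos').2 (hC' _)⟩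
  have hmem : Rs e (f - f') ∈ V ((n₁, D₁), (n₂, D₂)) := by
    refine ⟨⟨f - f', ?_, rfl⟩, C + C', fun n => ?_⟩
    · exact Submodule.sub_mem _ (Submodule.mem_sup_left m₁) (Submodule.mem_sup_right m₂)
    · change |(f (FreeGroup.mk (e n).1) - f' (FreeGroup.mk (e n).1)) / _| ≤ _
      rw [sub_div, abs_le]
      have := bd n
      have := bd' n
      constructor <;> linarith
  have hzero : Rs e (f - f') = 0 := by
    apply hsep _ _ hmem
    intro i
    have hi := hTT' _ ⟨i, rfl⟩
    simp only at hi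
    rw [inter_muCurr h, inter_muCurr h'] at hi
    have conv : ∀ (k : FreeGroup (Fin N) → ℝ) (D : ℝ),
        (∀ n, 0 ≤ k (FreeGroup.mk (e n).1) / (e n).1.length ∧
          k (FreeGroup.mk (e n).1) / (e n).1.length ≤ D) →
        (∀ n, 0 ≤ k (FreeGroup.mk (e n).1)) →
        Summable (fun n => k (FreeGroup.mk (e n).1) / (e n).1.length * t i ^ n) ∧
        ∑' n, wt e (t i) n * ENNReal.ofReal (k (FreeGroup.mk (e n).1)) =
          ENNReal.ofReal (∑' n, k (FreeGroup.mk (e n).1) / (e n).1.length * t i ^ n) := by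
      intro k D hk hk0
      have hs := summable_bdd (u := fun n => k (FreeGroup.mk (e n).1) / (e n).1.length)
        (C := D) (fun n => by rw [abs_of_nonneg (hk n).1]; exact (hk n).2) (ht i).1.le (ht i).2
      refine ⟨hs, ?_⟩
      rw [ENNReal.ofReal_tsum_of_nonneg (fun n => mul_nonneg (hk n).1
        (pow_nonneg (ht i).1.le n)) hs]
      apply tsum_congr
      intro n
      unfold wt
      rw [← ENNReal.ofReal_mul (div_nonneg (pow_nonneg (ht i).1.le n) (Nat.cast_nonneg _))]
      congr 1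
      ring
    obtain ⟨s1, c1⟩ := conv f C bd (fun n => h.tl_nonneg _)
    obtain ⟨s2, c2⟩ := conv f' C' bd' (fun n => h'.tl_nonneg _)
    rw [c1, c2] at hi
    have p1 : 0 ≤ ∑' n, f (FreeGroup.mk (e n).1) / (e n).1.length * t i ^ n :=
      tsum_nonneg fun n => mul_nonneg (bd n).1 (pow_nonneg (ht i).1.le n)
    have p2 : 0 ≤ ∑' n, f' (FreeGroup.mk (e n).1) / (e n).1.length * t i ^ n :=
      tsum_nonneg fun n => mul_nonneg (bd' n).1 (pow_nonneg (ht i).1.le n)
    have h3 := (ENNReal.ofReal_eq_ofReal_iff p1 p2).1 hi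
    have h4 : ∑' n, (Rs e (f - f')) n * t i ^ n =
        ∑' n, (f (FreeGroup.mk (e n).1) / (e n).1.length * t i ^ n -
          f' (FreeGroup.mk (e n).1) / (e n).1.length * t i ^ n) := by
      apply tsum_congr
      intro n
      change (f (FreeGroup.mk (e n).1) - f' (FreeGroup.mk (e n).1)) / _ * _ = _
      ring
    rw [h4, s1.tsum_sub s2, h3, sub_self]
  intro c
  obtain ⟨n, rfl⟩ := he c
  have h5 := congrFun hzero n
  have h6 : (f (FreeGroup.mk (e n).1) - f' (FreeGroup.mk (e n).1)) / ((e n).1.length : ℝ) = 0 :=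
    h5
  have hpos' : ((e n).1.length : ℝ) ≠ 0 := by
    have := (e n).len_pos
    positivity
  rw [div_eq_zero_iff] at h6
  rcases h6 with h6 | h6
  · linarith
  · exact absurd h6 hpos'

end Pool.Agent.Lib.MP_f2f7de_al
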